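import Mathlib

set_option autoImplicit false

namespace Pool.Agent.Lib.MP_ffb54b_al

open PowerSeries

/-- The Nottingham group `N(p)`: power series `t + a₂ t² + ⋯` over `𝔽_p`. -/
@[ext] structure Nott (p : ℕ) where
  /-- The underlying power series. -/
  ser : PowerSeries (ZMod p)
  coeff_zero : constantCoeff ser = 0
  coeff_one : coeff 1 ser = 1

namespace Nott

variable {p : ℕ}

lemma hasSubst (f : Nott p) : HasSubst f.ser := HasSubst.of_constantCoeff_zero' f.coeff_zero

lemma isUnit (f : Nott p) : IsUnit (coeff 1 f.ser) := f.coeff_one ▸ isUnit_one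

lemma X_pow_dvd_subst (g : Nott p) {n : ℕ} {h : (ZMod p)⟦X⟧} (hh : X ^ n ∣ h) :
    X ^ n ∣ h.subst g.ser := by
  obtain ⟨k, rfl⟩ := hh
  rw [subst_mul g.hasSubst, subst_pow g.hasSubst, subst_X g.hasSubst]
  exact (pow_dvd_pow_of_dvd (X_dvd_iff.2 g.coeff_zero) n).mul_right _

lemma sq_dvd (f : Nott p) : X ^ 2 ∣ f.ser - X := by
  rw [X_pow_dvd_iff]
  intro m hm
  interval_cases m
  · simp [f.coeff_zero]
  · simp [f.coeff_one]

/-- The group law is substitution: `(f * g)(t) = f(g(t))`. -/
noncomputable instance : Group (Nott p) where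
  mul f g := ⟨f.ser.subst g.ser, constantCoeff_subst_eq_zero g.coeff_zero _ f.coeff_zero, by
    have h := X_pow_dvd_iff.1 (g.X_pow_dvd_subst f.sq_dvd) 1 (by norm_num)
    rw [subst_sub g.hasSubst, subst_X g.hasSubst, map_sub, g.coeff_one] at h
    exact sub_eq_zero.1 h⟩
  one := ⟨X, by simp, by simp⟩
  inv f := ⟨f.ser.substInvOfIsUnit f.isUnit, by simp, by
    rw [coeff_one_substInvOfIsUnit, show f.isUnit.unit = 1 from Units.ext f.coeff_one]
    simp⟩
  mul_assoc f g h := Nott.ext (subst_comp_subst_apply g.hasSubst h.hasSubst f.ser)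
  one_mul f := Nott.ext (subst_X f.hasSubst)
  mul_one f := Nott.ext (X_subst f.ser)
  inv_mul_cancel f := Nott.ext (subst_substInvOfIsUnit_left f.ser f.coeff_zero f.isUnit)

/-- The topology of coefficientwise convergence (`𝔽_p` being discrete). -/
noncomputable instance : TopologicalSpace (Nott p) :=
  TopologicalSpace.induced (fun f n => coeff n f.ser) Pi.topologicalSpace

lemma mul_ser (f g : Nott p) : (f * g).ser = f.ser.subst g.ser := rfl

lemma one_ser : (1 : Nott p).ser = X := rfl

lemma dvd_subst_sub (h : (ZMod p)⟦X⟧) (f g : Nott p) {n : ℕ} (hn : X ^ n ∣ f.ser - g.ser) :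
    X ^ n ∣ h.subst f.ser - h.subst g.ser := by
  have e : ∀ k : Nott p, h.subst k.ser = Polynomial.aeval k.ser (trunc n h) +
      (h - trunc n h).subst k.ser := fun k => by
    rw [subst_sub k.hasSubst, subst_coe k.hasSubst]; ring
  have d : X ^ n ∣ h - (trunc n h : (ZMod p)⟦X⟧) := X_pow_dvd_iff.2 fun m hm => by simp [coeff_trunc, hm]
  rw [e f, e g, add_sub_add_comm]
  refine dvd_add (hn.trans ?_) (dvd_sub (f.X_pow_dvd_subst d) (g.X_pow_dvd_subst d))
  simpa only [Polynomial.eval_map_algebraMap] using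
    Polynomial.sub_dvd_eval_sub f.ser g.ser ((trunc n h).map (algebraMap _ _))

lemma dvd_mul_sub {f f' g g' : Nott p} {n : ℕ} (hf : X ^ n ∣ f.ser - f'.ser)
    (hg : X ^ n ∣ g.ser - g'.ser) : X ^ n ∣ (f * g).ser - (f' * g').ser := by
  have h1 := g.X_pow_dvd_subst hf
  rw [subst_sub g.hasSubst] at h1
  simpa [mul_ser] using dvd_add h1 (dvd_subst_sub f'.ser g g' hg)

lemma dvd_inv_sub {f g : Nott p} {n : ℕ} (h : X ^ n ∣ f.ser - g.ser) :
    X ^ n ∣ f⁻¹.ser - g⁻¹.ser := by
  have h1 := dvd_mul_sub (f := g⁻¹) (f' := g⁻¹) (by simp) (dvd_mul_sub h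
    (g := f⁻¹) (g' := f⁻¹) (by simp))
  rw [← dvd_neg]
  simpa using h1

lemma continuous_coeff (i : ℕ) : Continuous fun g : Nott p => coeff i g.ser :=
  continuous_pi_iff.1 (continuous_induced_dom (f := fun (f : Nott p) n => coeff n f.ser)) i

lemma nhds_basis (f : Nott p) :
    (nhds f).HasBasis (fun _ : ℕ => True) fun n => {g | X ^ n ∣ g.ser - f.ser} := by
  refine ⟨fun s => ⟨fun hs => ?_, fun ⟨n, _, h⟩ => Filter.mem_of_superset ?_ h⟩⟩
  · rw [nhds_induced, Filter.mem_comap] at hs
    obtain ⟨t, ht, hs⟩ := hs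
    rw [nhds_pi, Filter.mem_pi'] at ht
    obtain ⟨I, u, hu, ht⟩ := ht
    refine ⟨I.sup id + 1, trivial, fun g hg => hs (ht fun i hi => ?_)⟩
    have := X_pow_dvd_iff.1 hg i (Nat.lt_succ_of_le (Finset.le_sup (f := id) hi))
    rw [map_sub, sub_eq_zero] at this
    simpa [this] using mem_of_mem_nhds (hu i)
  · have : ∀ i, ∀ᶠ g : Nott p in nhds f, coeff i g.ser = coeff i f.ser := fun i =>
      ((continuous_coeff i).tendsto f).eventually (p := fun x => x = coeff i f.ser) (by simp)
    filter_upwards [(Filter.eventually_all_finset (Finset.range n)).2 fun i _ => this i] with g hg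
    exact X_pow_dvd_iff.2 fun m hm => by rw [map_sub, hg m (Finset.mem_range.2 hm), sub_self]

instance : IsTopologicalGroup (Nott p) where
  continuous_mul := continuous_iff_continuousAt.2 fun x =>
    (nhds_basis _).tendsto_right_iff.2 fun n _ => by
      rw [nhds_prod_eq]
      filter_upwards [Filter.prod_mem_prod ((nhds_basis x.1).mem_of_mem (i := n) trivial)
        ((nhds_basis x.2).mem_of_mem (i := n) trivial)] with y hy using dvd_mul_sub hy.1 hy.2
  continuous_inv := continuous_iff_continuousAt.2 fun x =>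
    (nhds_basis _).tendsto_right_iff.2 fun n _ => by
      filter_upwards [(nhds_basis x).mem_of_mem (i := n) trivial] with y hy using dvd_inv_sub hy

end Nott

variable (G : Type*) [Group G] [TopologicalSpace G] [IsTopologicalGroup G]

/-- The closed lower central series: `gamma G 1 = G`, and `gamma G (i + 1)` is the closure of the
subgroup generated by the commutators of elements of `gamma G i` with elements of `G`.
(The value at `0` is `G` and plays no role.) -/
def gamma : ℕ → Subgroup G
  | 0 => ⊤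
  | 1 => ⊤
  | i + 2 => (⁅gamma (i + 1), ⊤⁆ : Subgroup G).topologicalClosure

instance gamma_normal : ∀ i, (gamma G i).Normal
  | 0 => inferInstanceAs (⊤ : Subgroup G).Normal
  | 1 => inferInstanceAs (⊤ : Subgroup G).Normal
  | i + 2 => haveI := gamma_normal (i + 1)
    Subgroup.is_normal_topologicalClosure _

/-- The factor `gamma G i / gamma G (i + 1)`. -/
abbrev Factor (i : ℕ) := gamma G i ⧸ (gamma G (i + 1)).subgroupOf (gamma G i)

/-- A pro-`p` group: compact, Hausdorff, totally disconnected, and every open normal subgroup has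
index a power of `p`. -/
def IsProP (p : ℕ) : Prop :=
  CompactSpace G ∧ T2Space G ∧ TotallyDisconnectedSpace G ∧
    ∀ U : Subgroup G, U.Normal → IsOpen (U : Set G) → ∃ k, U.index = p ^ k

/-- `G` is an `n`-approximation to the Nottingham group `N(p)`. -/
def IsApprox (p n : ℕ) : Prop :=
  IsProP G p ∧ Infinite G ∧ Nonempty (G ⧸ gamma G n ≃ₜ* Nott p ⧸ gamma (Nott p) n)

end Pool.Agent.Lib.MP_ffb54b_al
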