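import Pool.Agent.Lib.MP_ffb54b_al.Local

set_option autoImplicit false
set_option linter.unusedSectionVars false

namespace Pool.Agent.Lib.MP_ffb54b_al

open Finset

/-- A complete filtered abelian group with factors of order `p`. -/
structure Filt (p : ℕ) (A : Type*) [AddCommGroup A] where
  /-- The filtration. -/
  F : ℤ → AddSubgroup A
  /-- The leading coefficients. -/
  ℓ : ℤ → A → ZMod p
  /-- Elements with leading coefficient one. -/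
  e : ℤ → A
  anti : Antitone F
  add : ∀ {i : ℤ} {a b : A}, a ∈ F i → b ∈ F i → ℓ i (a + b) = ℓ i a + ℓ i b
  zero : ∀ {i : ℤ} {a : A}, a ∈ F i → (ℓ i a = 0 ↔ a ∈ F (i + 1))
  e_mem : ∀ i, e i ∈ F i
  e_one : ∀ i, ℓ i (e i) = 1
  sep : ∀ {a : A}, (∀ i, a ∈ F i) → a = 0
  exh : ∀ a : A, ∃ i, a ∈ F i
  complete : ∀ (i : ℤ) (z : ℕ → A), (∀ c : ℕ, z c ∈ F (i + c)) →
    ∃ y, ∀ c : ℕ, y - ∑ j ∈ range c, z j ∈ F (i + c)

namespace Filt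

variable {p : ℕ} [hp : Fact p.Prime] {A : Type*} [AddCommGroup A] (Φ : Filt p A) {i j : ℤ}
  {a b : A}

lemma mono (h : a ∈ Φ.F i) (hj : j ≤ i) : a ∈ Φ.F j := Φ.anti hj h

lemma ℓ_zero (h : a ∈ Φ.F j) (hj : i < j) : Φ.ℓ i a = 0 :=
  (Φ.zero (Φ.mono h hj.le)).2 (Φ.mono h hj)

lemma ℓ_neg (ha : a ∈ Φ.F i) : Φ.ℓ i (-a) = -Φ.ℓ i a := by
  rw [eq_neg_iff_add_eq_zero, ← Φ.add (neg_mem ha) ha, neg_add_cancel]
  exact Φ.ℓ_zero (j := i + 1) (zero_mem _) (by omega)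

lemma ℓ_sub (ha : a ∈ Φ.F i) (hb : b ∈ Φ.F i) : Φ.ℓ i (a - b) = Φ.ℓ i a - Φ.ℓ i b := by
  rw [sub_eq_add_neg, Φ.add ha (neg_mem hb), Φ.ℓ_neg hb, sub_eq_add_neg]

lemma ℓ_zsmul (ha : a ∈ Φ.F i) (n : ℤ) : Φ.ℓ i (n • a) = n * Φ.ℓ i a := by
  induction n using Int.induction_on with
  | zero => simpa using Φ.ℓ_zero (j := i + 1) (zero_mem _) (by omega)
  | succ n ih => rw [add_smul, one_smul, Φ.add (zsmul_mem ha _) ha, ih]; push_cast; ring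
  | pred n ih => rw [sub_smul, one_smul, Φ.ℓ_sub (zsmul_mem ha _) ha, ih]; push_cast; ring

lemma sub_mem_succ (ha : a ∈ Φ.F i) (hb : b ∈ Φ.F i) (h : Φ.ℓ i a = Φ.ℓ i b) :
    a - b ∈ Φ.F (i + 1) := by
  rw [← Φ.zero (sub_mem ha hb), Φ.ℓ_sub ha hb, h, sub_self]

lemma decomp (ha : a ∈ Φ.F i) (hb : b ∈ Φ.F i) (h : Φ.ℓ i b = 1) :
    a - ((Φ.ℓ i a).val : ℤ) • b ∈ Φ.F (i + 1) :=
  Φ.sub_mem_succ ha (zsmul_mem hb _) (by rw [Φ.ℓ_zsmul hb, h]; simp)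

lemma sep' (h : ∀ c : ℕ, a ∈ Φ.F (i + c)) : a = 0 :=
  Φ.sep fun j => Φ.mono (h (j - i).toNat) (by omega)

/-- Leading coefficients of an additive map of degree `d`. -/
lemma lead₁ (f : A →+ A) {k : ℤ} (hf : ∀ a ∈ Φ.F (i + 1), f a ∈ Φ.F (k + 1)) (ha : a ∈ Φ.F i)
    (hb : b ∈ Φ.F i) (h : Φ.ℓ i b = 1) (hb' : f b ∈ Φ.F k) :
    f a ∈ Φ.F k ∧ Φ.ℓ k (f a) = Φ.ℓ i a * Φ.ℓ k (f b) := by
  have h1 := hf _ (Φ.decomp ha hb h)
  rw [map_sub, map_zsmul] at h1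
  have h2 : f a ∈ Φ.F k := by
    simpa using add_mem (Φ.mono h1 (show k ≤ k + 1 by omega)) (zsmul_mem hb' (Φ.ℓ i a).val)
  refine ⟨h2, ?_⟩
  have h3 := Φ.ℓ_zero h1 (lt_add_one k)
  rw [Φ.ℓ_sub h2 (zsmul_mem hb' _), Φ.ℓ_zsmul hb', sub_eq_zero] at h3
  simpa using h3

/-- A biadditive map of degree at least `d`. -/
def Deg (β : A →+ A →+ A) (d : ℤ) : Prop :=
  ∀ ⦃i j : ℤ⦄ ⦃a b : A⦄, a ∈ Φ.F i → b ∈ Φ.F j → β a b ∈ Φ.F (i + j + d)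

variable {Φ}

lemma Deg.lead {β : A →+ A →+ A} {d : ℤ} (h : Φ.Deg β d) (ha : a ∈ Φ.F i) (hb : b ∈ Φ.F j) :
    Φ.ℓ (i + j + d) (β a b) = Φ.ℓ i a * Φ.ℓ j b * Φ.ℓ (i + j + d) (β (Φ.e i) (Φ.e j)) := by
  have h1 := (Φ.lead₁ (β.flip b) (fun a ha => Φ.mono (h ha hb) (by omega)) ha (Φ.e_mem i)
    (Φ.e_one i) (h (Φ.e_mem i) hb)).2
  have h2 := (Φ.lead₁ (β (Φ.e i)) (fun b hb => Φ.mono (h (Φ.e_mem i) hb) (by omega)) hb (Φ.e_mem j)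
    (Φ.e_one j) (h (Φ.e_mem i) (Φ.e_mem j))).2
  simp only [AddMonoidHom.flip_apply] at h1
  rw [h1, h2, mul_assoc]

lemma Deg.eq_zero {β : A →+ A →+ A} (h0 : Φ.Deg β 0)
    (h : ∀ d, Φ.Deg β d → ∀ i j, Φ.ℓ (i + j + d) (β (Φ.e i) (Φ.e j)) = 0) (a b : A) :
    β a b = 0 := by
  have key : ∀ c : ℕ, Φ.Deg β c := fun c => by
    induction c with
    | zero => exact h0
    | succ c ih =>
      intro i j a b ha hb
      rw [Nat.cast_succ, ← add_assoc, ← Φ.zero (ih ha hb), ih.lead ha hb, h c ih, mul_zero]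
  obtain ⟨i, hi⟩ := Φ.exh a
  obtain ⟨j, hj⟩ := Φ.exh b
  exact Φ.sep' fun c => key c hi hj

end Filt

/-- A filtered group with an action of `G` whose leading terms are of Witt type. -/
structure Act (p : ℕ) (A : Type*) [AddCommGroup A] {G : Type*} [Group G] (K : ℕ → Subgroup G)
    (lG : ℕ → G → ZMod p) extends Filt p A where
  /-- The action. -/
  ρ : G → A →+ A
  ρ_mul : ∀ g h a, ρ (g * h) a = ρ g (ρ h a)
  ρ_deg : ∀ {k : ℕ} {g : G} {i : ℤ} {a : A}, g ∈ K k → a ∈ F i → ρ g a - a ∈ F (i + k)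
  ρ_lead : ∀ {k : ℕ} {g : G} {i : ℤ} {a : A}, 1 ≤ k → g ∈ K k → a ∈ F i →
    ℓ (i + k) (ρ g a - a) = ((i : ZMod p) - k) * lG k g * ℓ i a

variable {p : ℕ} [hp : Fact p.Prime] {A : Type*} [AddCommGroup A] {G : Type*} [Group G]
  {K : ℕ → Subgroup G} {lG : ℕ → G → ZMod p}

/-- A biadditive map whose leading term is the Witt bracket. -/
def Filt.Witt (Φ : Filt p A) (β : A →+ A →+ A) : Prop :=
  Φ.Deg β 0 ∧ ∀ i j, Φ.ℓ (i + j + 0) (β (Φ.e i) (Φ.e j)) = (j : ZMod p) - i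

lemma Act.anti_of_inv (h5 : 5 ≤ p) (Φ : Act p A K lG) (hs : ∀ i, 1 ≤ i → ∃ g ∈ K i, lG i g = 1)
    {μ : A →+ A →+ A} (hμ : Φ.Deg μ 0) (hρ : ∀ g a b, Φ.ρ g (μ a b) = μ (Φ.ρ g a) (Φ.ρ g b))
    (a b : A) : μ a b = -μ b a := by
  refine eq_neg_iff_add_eq_zero.2 (Filt.Deg.eq_zero (Φ := Φ.toFilt) (β := μ + μ.flip)
    (fun i j a b ha hb => add_mem (hμ ha hb) (Φ.mono (hμ hb ha) (by omega))) (fun d hd => ?_) a b)
  refine sym_inv_zero h5 _ d (fun i j => ?_) fun k i j hk => ?_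
  · simp only [AddMonoidHom.add_apply, AddMonoidHom.flip_apply, add_comm i j,
      add_comm (μ (Φ.e i) (Φ.e j))]
  · lift k to ℕ using by omega
    obtain ⟨g, hg, hg'⟩ := hs k (by omega)
    set σ := μ + μ.flip
    have a1 : Φ.ρ g (σ (Φ.e i) (Φ.e j)) - σ (Φ.e i) (Φ.e j) =
        σ (Φ.ρ g (Φ.e i) - Φ.e i) (Φ.e j) + σ (Φ.e i) (Φ.ρ g (Φ.e j) - Φ.e j) +
        σ (Φ.ρ g (Φ.e i) - Φ.e i) (Φ.ρ g (Φ.e j) - Φ.e j) := by
      simp only [σ, AddMonoidHom.add_apply, AddMonoidHom.flip_apply, map_add, map_sub, hρ,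
        AddMonoidHom.sub_apply]
      abel
    have m1 := Φ.ρ_deg hg (Φ.e_mem i)
    have m2 := Φ.ρ_deg hg (Φ.e_mem j)
    have a2 := Φ.ρ_lead (by omega) hg (hd (Φ.e_mem i) (Φ.e_mem j))
    have b1 := hd.lead m1 (Φ.e_mem j)
    have b2 := hd.lead (Φ.e_mem i) m2
    rw [Φ.ρ_lead (by omega) hg (Φ.e_mem _), Φ.e_one, Φ.e_one, hg'] at b1 b2
    have n1 := hd m1 (Φ.e_mem j)
    have n2 := hd (Φ.e_mem i) m2
    rw [show i + k + j + d = i + j + d + k by ring] at b1 n1 ⊢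
    rw [show i + (j + k) + d = i + j + d + k by ring] at b2 n2 ⊢
    rw [a1, Φ.add (add_mem n1 n2) (Φ.mono (hd m1 m2) (by omega)), Φ.add n1 n2, b1, b2,
      Φ.ℓ_zero (hd m1 m2) (by omega), hg'] at a2
    push_cast at a2 ⊢
    linear_combination -a2

lemma Filt.jac_of_alt (h5 : 5 ≤ p) (Φ : Filt p A) {μ ν : A →+ A →+ A} (hμ : Φ.Witt μ)
    (hν : Φ.Deg ν 0) (ha : ∀ a b, μ a b = -μ b a)
    (hj : ∀ a b c, μ (μ a b) c - μ a (μ b c) + ν b (μ a c) = 0) (a b c : A) :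
    μ (μ a b) c + μ (μ b c) a + μ (μ c a) b = 0 := by
  have key := Filt.Deg.eq_zero (Φ := Φ) (β := ν - μ)
    (fun i j a b ha hb => sub_mem (hν ha hb) (hμ.1 ha hb)) fun d hd => by
      refine alt_zero h5 _ fun i j k => ?_
      have a1 : (ν - μ) (Φ.e j) (μ (Φ.e i) (Φ.e k)) = -(ν - μ) (Φ.e i) (μ (Φ.e j) (Φ.e k)) := by
        have b1 := hj (Φ.e i) (Φ.e j) (Φ.e k)
        have b2 := hj (Φ.e j) (Φ.e i) (Φ.e k)
        rw [ha (Φ.e j) (Φ.e i), map_neg, AddMonoidHom.neg_apply] at b2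
        simp only [AddMonoidHom.sub_apply]
        linear_combination (norm := abel) b1 + b2
      have b1 := hd.lead (Φ.e_mem j) (hμ.1 (Φ.e_mem i) (Φ.e_mem k))
      have b2 := hd.lead (Φ.e_mem i) (hμ.1 (Φ.e_mem j) (Φ.e_mem k))
      have n2 := hd (Φ.e_mem i) (hμ.1 (Φ.e_mem j) (Φ.e_mem k))
      rw [hμ.2, Φ.e_one, add_zero] at b1 b2
      rw [add_zero] at n2
      rw [show j + (i + k) + d = i + (j + k) + d by ring] at b1 ⊢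
      rw [a1, Φ.ℓ_neg n2, b2] at b1
      linear_combination -b1
  have b1 := hj a b c
  have b2 := key b (μ a c)
  rw [AddMonoidHom.sub_apply, AddMonoidHom.sub_apply] at b2
  rw [ha (μ b c), ha (μ c a), ha c a, map_neg]
  linear_combination (norm := abel) b1 - b2

end Pool.Agent.Lib.MP_ffb54b_al
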