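import Pool.Agent.Lib.MP_ffb54b_al.NT

set_option autoImplicit false
set_option linter.unusedSectionVars false

namespace Pool.Agent.Lib.MP_ffb54b_al

open Subgroup Nott
open scoped commutatorElement

universe u

variable {G : Type u} [Group G] [TopologicalSpace G] [IsTopologicalGroup G] {p : ℕ}
  [hp : Fact p.Prime] {Y : Subgroup G} [Y.Normal] {x y : G}

/-- The factor in degree `M` is generated by `u`. -/
def GenBy (K : ℕ → Subgroup G) [∀ i, (K i).Normal] (u : G) (M : ℕ) : Prop :=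
  u ∈ K M ∧ ∀ a ∈ K M, ∃ n : ℤ, pr K (M + 1) a = pr K (M + 1) (u ^ n)

lemma gamma_closed : ∀ i, IsClosed (gamma G i : Set G)
  | 0 => isClosed_univ
  | 1 => isClosed_univ
  | _ + 2 => isClosed_topologicalClosure _

lemma gamma_le_Jn (h5 : 5 ≤ p) (i : ℕ) : gamma (Nott p) (i + 1) ≤ Jn p (i + 1) := by
  rw [← WS_eq h5]
  exact gamma_le_WS (Subgroup.isClosed_of_isOpen _ (isOpen_Jn _))
    (commutator_le.2 fun a _ b _ => nt.comm' (mem_one a) (mem_one b) le_rfl) _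

lemma gamma_Jn_step (h5 : 5 ≤ p) (k : ℕ) : ∃ M, gamma (Nott p) (k + 1) = Jn p (M + 1) := by
  induction k with
  | zero => exact ⟨0, nt.top.symm⟩
  | succ k ih =>
    obtain ⟨M, h⟩ := ih
    rw [gamma, h]
    by_cases hM : (M : ZMod p) = 0
    exacts [⟨_, comm_eq_one h5 hM⟩, ⟨_, comm_ne_one h5 hM⟩]

/-- The standing hypotheses of the induction. -/
structure Ctx (p : ℕ) (Y : Subgroup G) [Y.Normal] (x y : G) : Prop where
  h5 : 5 ≤ p
  closed : IsClosed (Y : Set G)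
  comm : ⁅(⊤ : Subgroup G), ⊤⁆ ≤ Y
  idx : ∀ k, (gamma G (k + 1)).index = (gamma (Nott p) (k + 1)).index
  tors1 : ∀ a, a ^ p ∈ WS Y 2
  tors2 : ∀ a ∈ WS Y 2, a ^ p ∈ WS Y 3
  gen1 : GenBy (WS Y) x 1
  gen2 : GenBy (WS Y) y 2

namespace Ctx

variable (h : Ctx p Y x y)
include h

lemma ns : NS (WS Y) := WS_ns h.closed h.comm

lemma mem (i : ℕ) : gs p x y i ∈ WS Y i := gs_mem h.ns h.gen1.1 h.gen2.1 i

lemma index_ne (M : ℕ) : (WS Y (M + 1)).index ≠ 0 := by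
  refine ne_zero_of_dvd_ne_zero ?_ (index_dvd_of_le (gamma_le_WS h.closed h.comm (M + 1)))
  obtain ⟨N, hN⟩ := gamma_Jn_step h.h5 M
  rw [h.idx, hN, nt.index]
  exact pow_ne_zero _ hp.out.ne_zero

lemma WS_le {i : ℕ} {S : Subgroup G} (hS : WS Y (i + 4) ≤ S)
    (h1 : ∀ a ∈ WS Y (i + 2), ∀ b : G, ⁅b, a⁆ ∈ S)
    (h2 : ∀ a ∈ WS Y (i + 1), ∀ b ∈ WS Y 2, ⁅b, a⁆ ∈ S) : WS Y (i + 3) ≤ S := by
  have : (WS Y (i + 4)).FiniteIndex := ⟨h.index_ne _⟩
  refine topologicalClosure_minimal _ (sup_le (commutator_le.2 fun a ha b _ => ?_)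
    (commutator_le.2 fun a ha b hb => ?_)) (Subgroup.isClosed_of_isOpen _ (isOpen_mono hS
      (isOpen_of_isClosed_of_finiteIndex _ (WS_closed h.closed _))))
  · rw [← commutatorElement_inv]; exact inv_mem (h1 a ha b)
  · rw [← commutatorElement_inv]; exact inv_mem (h2 a ha b hb)

lemma tors : ∀ M, ∀ a ∈ WS Y (M + 1), a ^ p ∈ WS Y (M + 2)
  | 0 => fun a _ => h.tors1 a
  | 1 => h.tors2
  | i + 2 => by
    obtain ⟨Q, _, _, cls, c⟩ := exists_cls h.ns (p := 0) (M := i + 3) (by omega) (by simp)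
    let S : Subgroup G :=
      { carrier := {a | a ∈ WS Y (i + 3) ∧ (p : ℤ) • cls a = 0}
        one_mem' := ⟨one_mem _, by simp [c.one]⟩
        mul_mem' := fun ha hb => ⟨mul_mem ha.1 hb.1, by
          rw [c.mul ha.1 hb.1, smul_add, ha.2, hb.2, add_zero]⟩
        inv_mem' := fun ha => ⟨inv_mem ha.1, by rw [c.inv ha.1, smul_neg, ha.2, neg_zero]⟩ }
    have key : ∀ {j k : ℕ} {a b : G}, 1 ≤ k → a ∈ WS Y j → b ∈ WS Y k → b ^ p ∈ WS Y (k + 1) →
        i + 3 ≤ k + j → ⁅b, a⁆ ∈ S := fun hk ha hb hb' e => ⟨h.ns.comm' hb ha e, by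
      rw [← c.zpow_left h.ns hk hb ha e, zpow_natCast, c.zero (h.ns.comm' (pow_mem hb _) ha e)]
      exact h.ns.comm' hb' ha (by omega)⟩
    intro a ha
    have := h.WS_le (S := S) (fun a ha => ⟨h.ns.anti (by omega) ha, by
        rw [(c.zero (h.ns.anti (by omega) ha)).2 ha, smul_zero]⟩)
      (fun a ha b => key le_rfl ha (mem_top b) (h.tors1 b) (by omega))
      (fun a ha b hb => key (by omega) ha hb (h.tors2 b hb) (by omega)) ha
    rw [← c.zero (pow_mem ha _), ← zpow_natCast, c.zpow ha]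
    exact this.2

lemma ex_cls (M : ℕ) : ∃ (Q : Type u) (_ : AddCommGroup Q) (_ : Module (ZMod p) Q) (cls : G → Q),
    IsCls (WS Y) (M + 1) cls := exists_cls h.ns (by omega) (h.tors M)

lemma span {i : ℕ} {u v : G} (hu : GenBy (WS Y) u (i + 2)) (hv : GenBy (WS Y) v (i + 1))
    {S : Subgroup G} (hS : WS Y (i + 4) ≤ S) (h1 : ⁅x, u⁆ ∈ S) (h2 : ⁅y, v⁆ ∈ S) :
    WS Y (i + 3) ≤ S := by
  obtain ⟨Q, _, _, cls, c⟩ := h.ex_cls (i + 2)
  have key : ∀ {j k : ℕ} {u z : G}, 1 ≤ j → 1 ≤ k → i + 3 ≤ k + j → GenBy (WS Y) u j →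
      GenBy (WS Y) z k → ⁅z, u⁆ ∈ S → ∀ a ∈ WS Y j, ∀ b ∈ WS Y k, ⁅b, a⁆ ∈ S := by
    intro j k u z hj hk e hu hz h1 a ha b hb
    obtain ⟨n, hn⟩ := hu.2 a ha
    obtain ⟨m, hm⟩ := hz.2 b hb
    have h2 := h.ns.comm' hz.1 hu.1 e
    refine pr_mem hS ((c.eq_iff (h.ns.comm' hb ha e) (zpow_mem h2 (m * n))).1 ?_) (zpow_mem h1 _)
    rw [c.lead_left h.ns hk hb hz.1 hm ha e, c.lead_right h.ns hj hz.1 ha hu.1 hn e, c.zpow h2,
      mul_smul]
  exact h.WS_le hS (fun a ha b => key (by omega) le_rfl (by omega) hu h.gen1 h1 a ha b (mem_top b))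
    (key (by omega) (by omega) (by omega) hv h.gen2 h2)

lemma span_gen {i : ℕ} {u v w : G} (hu : GenBy (WS Y) u (i + 2)) (hv : GenBy (WS Y) v (i + 1))
    (hw : w ∈ WS Y (i + 3)) {n m : ℤ}
    (h1 : pr (WS Y) (i + 4) ⁅x, u⁆ = pr (WS Y) (i + 4) (w ^ n))
    (h2 : pr (WS Y) (i + 4) ⁅y, v⁆ = pr (WS Y) (i + 4) (w ^ m)) : GenBy (WS Y) w (i + 3) := by
  refine ⟨hw, fun a ha => ?_⟩
  obtain ⟨n, hn⟩ := h.span (S := (zpowers (pr (WS Y) (i + 4) w)).comap (pr (WS Y) (i + 4))) hu hv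
    (fun a ha => by rw [mem_comap, pr_one.2 ha]; exact one_mem _)
    ⟨n, by rw [h1, map_zpow]⟩ ⟨m, by rw [h2, map_zpow]⟩ ha
  exact ⟨n, by rw [map_zpow]; exact hn.symm⟩

lemma collapse {M : ℕ} (h1 : WS Y (M + 1) ≤ WS Y (M + 2)) (h2 : WS Y (M + 2) ≤ WS Y (M + 3)) :
    False := by
  have a1 : WS Y (M + 3) ≤ WS Y (M + 4) := topologicalClosure_mono
    (sup_le_sup (commutator_mono h2 le_rfl) (commutator_mono h1 le_rfl))
  have a2 : ∀ j, WS Y (M + 1) ≤ gamma G (j + 1) := fun j => by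
    induction j with
    | zero => exact le_top
    | succ j ih =>
      exact h1.trans (h2.trans (topologicalClosure_mono (sup_le
        (commutator_mono ((h.ns.anti (by omega)).trans ih) le_rfl) (commutator_mono ih le_top))))
  have a3 := index_dvd_of_le (a2 (WS Y (M + 1)).index)
  rw [h.idx] at a3
  have a4 := (index_dvd_of_le (gamma_le_Jn h.h5 _)).trans a3
  rw [nt.index] at a4
  exact (Nat.lt_pow_self hp.out.one_lt).not_ge
    (Nat.le_of_dvd (Nat.pos_of_ne_zero (h.index_ne M)) a4)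

lemma relIndex_le {M : ℕ} {u : G} (hu : GenBy (WS Y) u (M + 1)) :
    (WS Y (M + 2)).relIndex (WS Y (M + 1)) ≤ p ∧
      (u ∉ WS Y (M + 2) → (WS Y (M + 2)).relIndex (WS Y (M + 1)) = p) := by
  obtain ⟨Q, _, _, cls, c⟩ := h.ex_cls M
  have e : cls '' WS Y (M + 1) = Set.range fun r : ZMod p => r • cls u := by
    refine Set.ext fun q => ⟨?_, ?_⟩
    · rintro ⟨a, ha, rfl⟩
      obtain ⟨n, hn⟩ := hu.2 a ha
      exact ⟨n, by
        rw [(c.eq_iff ha (zpow_mem hu.1 n)).2 hn, c.zpow hu.1]; exact Int.cast_smul_eq_zsmul ..⟩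
    · rintro ⟨r, rfl⟩
      exact ⟨_, zpow_mem hu.1 r.val, by rw [c.zpow hu.1, ← Int.cast_smul_eq_zsmul (ZMod p)]; simp⟩
  rw [c.relIndex, e]
  refine ⟨(Finite.card_range_le _).trans (Nat.card_zmod p).le, fun h1 => ?_⟩
  rw [Nat.card_range_of_injective (smul_left_injective _ fun h2 => h1 ((c.zero hu.1).1 h2)),
    Nat.card_zmod]

section Loc

variable {M : ℕ} {Q : Type*} [AddCommGroup Q] [Module (ZMod p) Q] {cls : G → Q}
  (c : IsCls (WS Y) M cls)
include c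

lemma rel_left {i j k : ℕ} {b : G} (hi : 1 ≤ i) (hj : 1 ≤ j) (r : Rel (WS Y) (gs p x y) (i + j))
    (hb : b ∈ WS Y k) (hM : M ≤ i + j + k) : cls ⁅⁅gs p x y i, gs p x y j⁆, b⁆ =
      ((j : ZMod p) - i) • cls ⁅gs p x y (i + j), b⁆ := by
  rw [c.lead_left h.ns (by omega) (h.ns.comm (h.mem i) (h.mem j)) (h.mem _) (r i j hi hj rfl) hb hM,
    ← Int.cast_smul_eq_zsmul (ZMod p)]
  push_cast
  rfl

lemma jac {k l : ℕ} (hk : 1 ≤ k) (hl : 1 ≤ l) (hM : k + l < M) (r1 : Rel (WS Y) (gs p x y) (k + l))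
    (r2 : Rel (WS Y) (gs p x y) (M - k)) (r3 : Rel (WS Y) (gs p x y) (M - l)) :
    ((l : ZMod p) - k) • cls ⁅gs p x y (k + l), gs p x y (M - (k + l))⁆ =
      ((M : ZMod p) - k - 2 * l) • cls ⁅gs p x y k, gs p x y (M - k)⁆ -
      ((M : ZMod p) - l - 2 * k) • cls ⁅gs p x y l, gs p x y (M - l)⁆ := by
  obtain ⟨m, rfl⟩ : ∃ m, M = k + l + m := ⟨M - (k + l), by omega⟩
  rw [show k + l + m - k = l + m by omega] at r2 ⊢
  rw [show k + l + m - l = m + k by omega] at r3 ⊢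
  have := c.jacobi h.ns hk hl (show 1 ≤ m by omega) (h.mem k) (h.mem l) (h.mem m) le_rfl
  rw [h.rel_left c hk hl r1 (h.mem m) le_rfl, h.rel_left c hl (by omega) r2 (h.mem k) (by omega),
    h.rel_left c (by omega) hk r3 (h.mem l) (by omega),
    c.anti h.ns (h.mem (l + m)) (h.mem k) (by omega),
    c.anti h.ns (h.mem (m + k)) (h.mem l) (by omega)] at this
  rw [Nat.add_sub_cancel_left]
  push_cast
  linear_combination (norm := module) this

lemma loc {s : ℕ} (hs1 : 1 ≤ s) (hs : s ≤ 3) (hM : 5 * p ≤ M)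
    (r : ∀ d, d + s ≤ M → Rel (WS Y) (gs p x y) d) {l : ℕ} (h1 : s ≤ l) (h2 : l ≤ p + 4) :
    cls ⁅gs p x y (l + p), gs p x y (M - (l + p))⁆ = cls ⁅gs p x y l, gs p x y (M - l)⁆ ∧
      (M : ZMod p) • cls ⁅gs p x y l, gs p x y (M - l)⁆ =
        ((M : ZMod p) - 2 * l) • cls ⁅gs p x y p, gs p x y (M - p)⁆ :=
  have := h.h5
  local_H1 h.h5 (fun k => cls ⁅gs p x y k, gs p x y (M - k)⁆) M hs (fun k l hk hl hkl =>
    h.jac c (by omega) (by omega) (by omega) (r _ (by omega)) (r _ (by omega)) (r _ (by omega)))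
    h1 h2

end Loc

lemma F1 {i : ℕ} {Q : Type*} [AddCommGroup Q] [Module (ZMod p) Q] {cls : G → Q}
    (c : IsCls (WS Y) (i + 3) cls) (r : ∀ d, d < i + 3 → Rel (WS Y) (gs p x y) d)
    (g1 : GenBy (WS Y) (gs p x y (i + 1)) (i + 1)) (g2 : GenBy (WS Y) (gs p x y (i + 2)) (i + 2))
    (z : Q) (c1 : cls ⁅x, gs p x y (i + 2)⁆ = (i + 1 : ZMod p) • z)
    (c2 : cls ⁅y, gs p x y (i + 1)⁆ = (i - 1 : ZMod p) • z) :
    Rel (WS Y) (gs p x y) (i + 3) ∧ GenBy (WS Y) (gs p x y (i + 3)) (i + 3) := by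
  have hz : cls (gs p x y (i + 3)) = z := by
    simp only [gs]
    split_ifs with h0
    · have h1 : (i - 1 : ZMod p) ≠ 0 := fun h1 => two_ne h.h5 (by linear_combination h0 - h1)
      rw [← zpow_natCast, c.zpow (h.ns.comm' h.gen2.1 g1.1 (by omega)), c2,
        ← Int.cast_smul_eq_zsmul (ZMod p), Int.cast_natCast, ZMod.natCast_zmod_val,
        inv_smul_smul₀ h1]
    · rw [← zpow_natCast, c.zpow (h.ns.comm' h.gen1.1 g2.1 (by omega)), c1,
        ← Int.cast_smul_eq_zsmul (ZMod p), Int.cast_natCast, ZMod.natCast_zmod_val,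
        inv_smul_smul₀ h0]
  have key : ∀ k, k + 1 < i + 3 → cls ⁅gs p x y (k + 1), gs p x y (i + 3 - (k + 1))⁆ =
      (i + 1 - 2 * k : ZMod p) • z := by
    intro k
    induction k using Nat.strong_induction_on with
    | _ k ih =>
    intro hk
    rcases k with _ | _ | k
    · simpa [gs] using c1
    · refine c2.trans ?_
      congr 1; push_cast; ring
    generalize ht : cls ⁅gs p x y (k + 1 + 1 + 1), gs p x y (i + 3 - (k + 1 + 1 + 1))⁆ = t
    by_cases h0 : (k + 1 : ZMod p) = 0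
    · have := h.jac c (k := k + 1) (l := 2) (by omega) (by omega) (by omega) (r _ (by omega))
        (r _ (by omega)) (r _ (by omega))
      rw [ih k (by omega) (by omega), show cls ⁅gs p x y 2, gs p x y (i + 3 - 2)⁆ = _ from c2,
        show cls ⁅gs p x y (k + 1 + 2), gs p x y (i + 3 - (k + 1 + 2))⁆ = t from ht] at this
      have h1 : (1 - k : ZMod p) ≠ 0 := fun h1 => two_ne h.h5 (by linear_combination h0 + h1)
      refine smul_right_injective _ h1 ?_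
      push_cast at this ⊢
      linear_combination (norm := module) this
    · have := h.jac c (k := k + 2) (l := 1) (by omega) (by omega) (by omega) (r _ (by omega))
        (r _ (by omega)) (r _ (by omega))
      rw [ih (k + 1) (by omega) (by omega), 
        show cls ⁅gs p x y 1, gs p x y (i + 3 - 1)⁆ = _ from c1,
        show cls ⁅gs p x y (k + 2 + 1), gs p x y (i + 3 - (k + 2 + 1))⁆ = t from ht] at this
      refine smul_right_injective _ h0 ?_
      push_cast at this ⊢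
      linear_combination (norm := module) -this
  have R : Rel (WS Y) (gs p x y) (i + 3) := fun k l hk hl e => by
    obtain ⟨k, rfl⟩ := Nat.exists_eq_add_of_le' hk
    have := key k (by omega)
    rw [show i + 3 - (k + 1) = l by omega] at this
    rw [← c.eq_iff (h.ns.comm' (h.mem _) (h.mem _) e.ge) (zpow_mem (h.mem _) _), this,
      c.zpow (h.mem _), hz, ← Int.cast_smul_eq_zsmul (ZMod p)]
    congr 1
    have := congrArg (Nat.cast (R := ZMod p)) e
    push_cast at this ⊢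
    linear_combination -this
  exact ⟨R, h.span_gen g2 g1 (h.mem _) (R 1 (i + 2) le_rfl (by omega) (by omega))
    (R 2 (i + 1) (by omega) (by omega) (by omega))⟩

lemma cent {M e : ℕ} (he1 : 1 ≤ e) (he2 : e ≤ 2) (hM : 5 * p ≤ M) (hM0 : (M : ZMod p) = 0)
    (r : ∀ d, d < M → Rel (WS Y) (gs p x y) d) {Q : Type*} [AddCommGroup Q] [Module (ZMod p) Q]
    {cls : G → Q} (c : IsCls (WS Y) (M + e) cls) {k : ℕ} (hk1 : 1 ≤ k) (hk2 : k ≤ 2) :
    cls ⁅⁅gs p x y k, gs p x y (M - k)⁆, gs p x y e⁆ =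
      (-2 * k : ZMod p) • cls ⁅gs p x y p, gs p x y (M + e - p)⁆ := by
  have h5 := h.h5
  obtain ⟨N, rfl⟩ := Nat.exists_eq_add_of_le' (show 1 ≤ M by omega)
  obtain ⟨Q', _, _, cls', c'⟩ := h.ex_cls N
  have m1 := h.ns.comm' (h.mem k) (h.mem (N + 1 - k)) (n := N + 1) (by omega)
  have m2 := h.ns.comm' (h.mem (k + p)) (h.mem (N + 1 - (k + p))) (n := N + 1) (by omega)
  rw [← c.congr_left h.ns m2 m1 ((c'.eq_iff m2 m1).1
    (h.loc c' le_rfl (by omega) hM (fun d hd => r d hd) hk1 (by omega)).1) (h.mem e) le_rfl]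
  have L := fun l h1 h2 => (h.loc c (s := e + 1) (l := l) (by omega) (by omega) (by omega)
    (fun d hd => r d (by omega)) h1 h2)
  have a1 := (L (k + p) (by omega) (by omega)).2
  have a2 := (L (e + (k + p)) (by omega) (by omega)).2
  obtain ⟨m, hm⟩ : ∃ m, N + 1 = k + p + m := ⟨N + 1 - (k + p), by omega⟩
  have a3 := c.jacobi h.ns (show 1 ≤ k + p by omega) (show 1 ≤ m by omega) he1 (h.mem _)
    (h.mem _) (h.mem _) (by omega)
  rw [h.rel_left c (i := m) (by omega) he1 (r _ (by omega)) (h.mem _) (by omega),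
    h.rel_left c (i := e) he1 (by omega) (r _ (by omega)) (h.mem _) (by omega),
    c.anti h.ns (h.mem (m + e)) (h.mem _) (by omega)] at a3
  rw [show N + 1 + e - (k + p) = m + e by omega] at a1
  rw [show N + 1 + e - (e + (k + p)) = m by omega] at a2
  rw [show N + 1 - (k + p) = m by omega]
  have hm' : (m : ZMod p) = -k := by
    rw [hm] at hM0
    push_cast at hM0
    rw [ZMod.natCast_self] at hM0
    linear_combination hM0
  simp only [Nat.cast_add (N + 1), Nat.cast_add k, Nat.cast_add e, hM0, hm', CharP.cast_eq_zero,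
    add_zero, zero_add] at a1 a2 a3
  refine smul_right_injective _ (small_ne h5 he1 (by omega)) ?_
  beta_reduce
  linear_combination (norm := module) (e : ZMod p) • a3 + ((e : ZMod p) + k) • a1 -
    ((k : ZMod p) - e) • a2

lemma F2 {i : ℕ} (hM : 5 * p ≤ i + 3) (hM0 : ((i + 3 : ℕ) : ZMod p) = 0)
    (r : ∀ d, d < i + 3 → Rel (WS Y) (gs p x y) d) (g2 : GenBy (WS Y) (gs p x y (i + 2)) (i + 2))
    {u : G} (hu : GenBy (WS Y) u (i + 3)) :
    pr (WS Y) (i + 4) ⁅y, gs p x y (i + 1)⁆ = pr (WS Y) (i + 4) (⁅x, gs p x y (i + 2)⁆ ^ (2 : ℤ)) := by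
  by_contra hne
  have h5 := h.h5
  have m1 : ⁅x, gs p x y (i + 2)⁆ ∈ WS Y (i + 3) := h.ns.comm' h.gen1.1 (h.mem _) (by omega)
  have m2 : ⁅y, gs p x y (i + 1)⁆ ∈ WS Y (i + 3) := h.ns.comm' h.gen2.1 (h.mem _) (by omega)
  set w := ⁅y, gs p x y (i + 1)⁆ * ⁅x, gs p x y (i + 2)⁆ ^ (-2 : ℤ) with hw
  have m3 : w ∈ WS Y (i + 3) := mul_mem m2 (zpow_mem m1 _)
  have gw : GenBy (WS Y) w (i + 3) := by
    obtain ⟨Q, _, _, cls, c⟩ := h.ex_cls (i + 2)
    refine ⟨m3, fun a ha => ?_⟩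
    obtain ⟨n, hn⟩ := hu.2 w m3
    obtain ⟨m, hm⟩ := hu.2 a ha
    rw [← c.eq_iff m3 (zpow_mem hu.1 _), c.zpow hu.1, ← Int.cast_smul_eq_zsmul (ZMod p)] at hn
    have h0 : (n : ZMod p) ≠ 0 := fun h0 => hne (pr_eq.2 (by
      rw [h0, zero_smul, c.zero m3] at hn
      rwa [← zpow_neg]))
    refine ⟨((m : ZMod p) / n).val, hm.trans ((c.eq_iff (zpow_mem hu.1 _) (zpow_mem m3 _)).1 ?_)⟩
    rw [c.zpow hu.1, c.zpow m3, hn, ← Int.cast_smul_eq_zsmul (ZMod p),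
      ← Int.cast_smul_eq_zsmul (ZMod p), Int.cast_natCast, ZMod.natCast_zmod_val, smul_smul,
      div_mul_cancel₀ _ h0]
  have key : ∀ {e : ℕ}, 1 ≤ e → e ≤ 2 → ∀ {Q : Type u} [AddCommGroup Q] [Module (ZMod p) Q]
      {cls : G → Q}, IsCls (WS Y) (i + 3 + e) cls → cls ⁅gs p x y e, w⁆ = 0 := by
    intro e he1 he2 Q _ _ cls c
    have a1 := h.cent he1 he2 hM hM0 r c (k := 1) le_rfl (by omega)
    have a2 := h.cent he1 he2 hM hM0 r c (k := 2) (by omega) le_rfl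
    rw [c.anti h.ns (h.mem e) m3 (by omega), hw,
      c.mul_left h.ns (by omega) m2 (zpow_mem m1 _) (h.mem e) le_rfl,
      c.zpow_left h.ns (by omega) m1 (h.mem e) le_rfl, ← Int.cast_smul_eq_zsmul (ZMod p),
      show cls ⁅⁅x, gs p x y (i + 2)⁆, gs p x y e⁆ = _ from a1,
      show cls ⁅⁅y, gs p x y (i + 1)⁆, gs p x y e⁆ = _ from a2]
    push_cast
    module
  have b1 : WS Y (i + 4) ≤ WS Y (i + 5) := by
    obtain ⟨Q, _, _, cls, c⟩ := h.ex_cls (i + 3)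
    have a1 := key le_rfl (by omega) c
    refine h.span gw g2 le_rfl ((c.zero (h.ns.comm' h.gen1.1 m3 (by omega))).1 a1)
      ((c.zero (h.ns.comm' h.gen2.1 (h.mem _) (by omega))).1 ?_)
    obtain ⟨n, hn⟩ := gw.2 _ m1
    have a2 := h.cent le_rfl (by omega) hM hM0 r c (k := 1) le_rfl (by omega)
    rw [show cls ⁅⁅gs p x y 1, gs p x y (i + 3 - 1)⁆, gs p x y 1⁆ = _ from
      c.lead_left h.ns (by omega) m1 m3 hn (h.mem 1) le_rfl, c.anti h.ns m3 (h.mem 1) le_rfl, a1,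
      neg_zero, smul_zero, eq_comm, smul_eq_zero_iff_right (by simpa using two_ne h5)] at a2
    have a3 := (h.loc c (s := 2) (l := 2) (by omega) (by omega) (by omega)
      (fun d hd => r d (by omega)) le_rfl (by omega)).2
    rw [a2, smul_zero, Nat.cast_succ, hM0, zero_add, one_smul] at a3
    exact a3
  have b2 : WS Y (i + 5) ≤ WS Y (i + 6) := by
    obtain ⟨Q, _, _, cls, c⟩ := h.ex_cls (i + 4)
    exact h.span (u := 1) ⟨one_mem _, fun a ha => ⟨0, by rw [pr_one.2 (b1 ha)]; simp⟩⟩ gw le_rfl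
      (by simp) ((c.zero (h.ns.comm' h.gen2.1 m3 (by omega))).1 (key (by omega) le_rfl c))
  exact h.collapse b1 b2

end Ctx

/-- The inductive statement in degree `M`. -/
def Good (p : ℕ) (Y : Subgroup G) [Y.Normal] (x y : G) (M : ℕ) : Prop :=
  Rel (WS Y) (gs p x y) M ∧ GenBy (WS Y) (gs p x y M) M ∧ gs p x y M ∉ WS Y (M + 1)

namespace Ctx

variable (h : Ctx p Y x y) {N : ℕ} (hN : ∀ M, M < N → Good p Y x y (M + 1))
include h hN

lemma index {M : ℕ} (hM : M ≤ N) : (WS Y (M + 1)).index = p ^ M := by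
  induction M with
  | zero => exact index_top
  | succ M ih =>
    rw [← relIndex_mul_index (h.ns.anti (Nat.le_succ (M + 1))), ih (by omega), pow_succ',
      (h.relIndex_le (hN M hM).2.1).2 (hN M hM).2.2]

lemma lcs_eq {k M : ℕ} (hM : M ≤ N) (h1 : gamma G (k + 1) ≤ WS Y (M + 1))
    (h2 : gamma (Nott p) (k + 1) = Jn p (M + 1)) : gamma G (k + 1) = WS Y (M + 1) := by
  have h3 := relIndex_mul_index h1
  rw [h.idx, h2, nt.index, h.index hN hM,
    mul_eq_right₀ (pow_ne_zero _ hp.out.ne_zero), relIndex_eq_one] at h3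
  exact le_antisymm h1 h3

lemma lcs_ne {k M : ℕ} (hM : M + 1 ≤ N) (h0 : (M : ZMod p) ≠ 0) (h1 : gamma G (k + 1) = WS Y (M + 1))
    (h2 : gamma (Nott p) (k + 1) = Jn p (M + 1)) :
    gamma G (k + 2) = WS Y (M + 2) ∧ gamma (Nott p) (k + 2) = Jn p (M + 2) := by
  have h3 : gamma (Nott p) (k + 2) = Jn p (M + 2) := by rw [gamma, h2, comm_ne_one h.h5 h0]
  refine ⟨h.lcs_eq hN hM ?_ h3, h3⟩
  rw [gamma, h1]
  exact topologicalClosure_minimal _ (commutator_le.2 fun a ha b _ =>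
    h.ns.comm' (j := 1) ha (mem_top b) le_rfl) (WS_closed h.closed _)

lemma lcs (M : ℕ) (hM : M ≤ N) (h0 : (M : ZMod p) ≠ 1) :
    ∃ k, gamma G (k + 1) = WS Y (M + 1) ∧ gamma (Nott p) (k + 1) = Jn p (M + 1) := by
  induction M using Nat.strong_induction_on with
  | _ M ih =>
  rcases M with _ | M
  · exact ⟨0, rfl, nt.top.symm⟩
  by_cases h1 : (M : ZMod p) = 1
  swap
  · obtain ⟨k, h2, h3⟩ := ih M (by omega) (by omega) h1
    exact ⟨k + 1, h.lcs_ne hN hM (fun h4 => h0 (by simp [h4])) h2 h3⟩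
  rcases M with _ | M
  · simp at h1
  have h4 : (M : ZMod p) = 0 := by simpa using h1
  obtain ⟨k, h2, h3⟩ := ih M (by omega) (by omega) (by simp [h4])
  have h5 : gamma (Nott p) (k + 2) = Jn p (M + 3) := by rw [gamma, h3, comm_eq_one h.h5 h4]
  refine ⟨k + 1, h.lcs_eq hN hM ?_ h5, h5⟩
  rw [gamma, h2]
  refine topologicalClosure_minimal _ (commutator_le.2 fun a ha b _ => ?_) (WS_closed h.closed _)
  obtain ⟨Q, _, _, cls, c⟩ := h.ex_cls (M + 1)
  obtain ⟨n, hn⟩ := (hN M (by omega)).2.1.2 a ha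
  obtain ⟨m, hm⟩ := h.gen1.2 b (mem_top b)
  rw [← c.zero (h.ns.comm' (j := 1) ha (mem_top b) le_rfl),
    c.lead_left h.ns (j := 1) (by omega) ha (h.mem _) hn (mem_top b) le_rfl,
    c.lead_right h.ns le_rfl (h.mem _) (mem_top b) h.gen1.1 hm le_rfl,
    show cls ⁅gs p x y (M + 1), x⁆ = _ from (c.eq_iff (h.ns.comm (h.mem _) (h.mem 1))
      (zpow_mem (h.mem _) _)).2 ((hN (M + 1) (by omega)).1 (M + 1) 1 (by omega) le_rfl rfl),
    c.zpow (h.mem _), ← Int.cast_smul_eq_zsmul (ZMod p) (_ - _)]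
  simp [h4]

omit hN in
lemma rel_gen {i : ℕ} (hM : 5 * p ≤ i + 3) (r : ∀ d, d < i + 3 → Rel (WS Y) (gs p x y) d)
    (g1 : GenBy (WS Y) (gs p x y (i + 1)) (i + 1)) (g2 : GenBy (WS Y) (gs p x y (i + 2)) (i + 2))
    (hu : ((i + 3 : ℕ) : ZMod p) = 0 → ∃ u, GenBy (WS Y) u (i + 3)) :
    Rel (WS Y) (gs p x y) (i + 3) ∧ GenBy (WS Y) (gs p x y (i + 3)) (i + 3) := by
  obtain ⟨Q, _, _, cls, c⟩ := h.ex_cls (i + 2)
  have t2 := two_ne h.h5
  by_cases h0 : ((i + 3 : ℕ) : ZMod p) = 0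
  · obtain ⟨u, hu⟩ := hu h0
    have m1 : ⁅x, gs p x y (i + 2)⁆ ∈ WS Y (i + 3) := h.ns.comm' h.gen1.1 (h.mem _) (by omega)
    have a1 := (c.eq_iff (h.ns.comm' h.gen2.1 (h.mem _) (by omega)) (zpow_mem m1 _)).2
      (h.F2 hM h0 r g2 hu)
    have hi : (i : ZMod p) = -3 := by push_cast at h0; linear_combination h0
    refine h.F1 c r g1 g2 ((-2 : ZMod p)⁻¹ • cls ⁅x, gs p x y (i + 2)⁆) ?_ ?_
    · rw [hi, smul_smul, show (-3 + 1 : ZMod p) * (-2)⁻¹ = 1 by field_simp; ring, one_smul]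
    · rw [a1, c.zpow m1, hi, smul_smul, show (-3 - 1 : ZMod p) * (-2)⁻¹ = 2 by field_simp; ring,
        ← Int.cast_smul_eq_zsmul (ZMod p), Int.cast_ofNat]
  · have L := fun l h1 h2 => (h.loc c (s := 1) (l := l) le_rfl (by omega) hM
      (fun d hd => r d hd) h1 h2).2
    refine h.F1 c r g1 g2 (((i + 3 : ℕ) : ZMod p)⁻¹ • cls ⁅gs p x y p, gs p x y (i + 3 - p)⁆) ?_ ?_
    · rw [smul_comm, eq_inv_smul_iff₀ h0]
      refine (L 1 le_rfl (by omega)).trans ?_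
      congr 1; push_cast; ring
    · rw [smul_comm, eq_inv_smul_iff₀ h0]
      refine (L 2 (by omega) (by omega)).trans ?_
      congr 1; push_cast; ring

lemma step (hM : 5 * p ≤ N + 1) : Good p Y x y (N + 1) := by
  have h5 := h.h5
  obtain ⟨i, rfl⟩ := Nat.exists_eq_add_of_le' (show 2 ≤ N by omega)
  have r : ∀ d, d < i + 3 → Rel (WS Y) (gs p x y) d := fun d hd => by
    rcases d with _ | d
    · intro i j hi hj e; omega
    · exact (hN d (by omega)).1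
  have g1 := (hN i (by omega)).2.1
  have g2 := (hN (i + 1) (by omega)).2.1
  obtain ⟨R, g3⟩ := h.rel_gen hM r g1 g2 fun h0 => by
    have hi : (i : ZMod p) = -3 := by push_cast at h0; linear_combination h0
    obtain ⟨k, h1, h2⟩ := h.lcs hN (i + 1) (by omega) (fun h1 => three_ne h5 (by
      push_cast at h1; linear_combination hi - h1))
    have h3 := (h.lcs_ne hN le_rfl (fun h1 => two_ne h5 (by
      push_cast at h1; linear_combination hi - h1)) h1 h2).1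
    have m1 : ⁅x, gs p x y (i + 2)⁆ ∈ WS Y (i + 3) := h.ns.comm' h.gen1.1 (h.mem _) (by omega)
    refine ⟨_, m1, fun a ha => ?_⟩
    rw [gamma, h1] at h3
    have : (WS Y (i + 4)).FiniteIndex := ⟨h.index_ne _⟩
    have hS : WS Y (i + 4) ≤
        (zpowers (pr (WS Y) (i + 4) ⁅x, gs p x y (i + 2)⁆)).comap (pr (WS Y) (i + 4)) :=
      fun a ha => by rw [mem_comap, pr_one.2 ha]; exact one_mem _
    obtain ⟨n, hn⟩ := topologicalClosure_minimal _ (commutator_le.2 fun a ha b _ => by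
      obtain ⟨Q, _, _, cls, c⟩ := h.ex_cls (i + 2)
      obtain ⟨n, hn⟩ := g2.2 a ha
      obtain ⟨m, hm⟩ := h.gen1.2 b (mem_top b)
      refine ⟨-(n * m), ?_⟩
      beta_reduce
      rw [← map_zpow, ← c.eq_iff (zpow_mem m1 _) (h.ns.comm' (j := 1) ha (mem_top b) le_rfl),
        c.lead_left h.ns (j := 1) (by omega) ha (h.mem _) hn (mem_top b) le_rfl,
        c.lead_right h.ns le_rfl (h.mem _) (mem_top b) h.gen1.1 hm le_rfl, c.zpow m1,
        c.anti h.ns (h.mem _) h.gen1.1 le_rfl, smul_smul, smul_neg, neg_smul])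
      (Subgroup.isClosed_of_isOpen _ (isOpen_mono hS
        (isOpen_of_isClosed_of_finiteIndex _ (WS_closed h.closed _)))) (h3.ge ha)
    exact ⟨n, by rw [map_zpow]; exact hn.symm⟩
  refine ⟨R, g3, fun hg => ?_⟩
  have b1 : WS Y (i + 3) ≤ WS Y (i + 4) := fun a ha => by
    obtain ⟨n, hn⟩ := g3.2 a ha
    exact pr_mem le_rfl hn (zpow_mem hg n)
  have m1 : ⁅x, gs p x y (i + 3)⁆ ∈ WS Y (i + 5) := h.ns.comm' h.gen1.1 hg (by omega)
  obtain ⟨R', g4⟩ := h.rel_gen (i := i + 1) (by omega)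
    (fun d hd => (Nat.lt_succ_iff_lt_or_eq.1 hd).elim (r d) fun e => e ▸ R) g2 g3 fun _ =>
      ⟨_, h.span_gen g3 g2 (h.ns.comm' h.gen2.1 g2.1 (by omega)) (n := 0) (m := 1)
        (by rw [pr_one.2 m1]; simp) (by simp)⟩
  by_cases h0 : ((i + 2 : ℕ) : ZMod p) = 0
  · obtain ⟨k, h1, h2⟩ := h.lcs hN (i + 2) le_rfl (by simp [h0])
    have h3 : WS Y (i + 5) ≤ gamma G (k + 2) := by
      rw [gamma, h1]
      exact topologicalClosure_mono (sup_le (commutator_mono (h.ns.anti (by omega)) le_rfl)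
        (commutator_mono le_rfl le_top))
    have h4 := Nat.le_of_dvd (Nat.pos_of_ne_zero (h.index_ne _)) (index_dvd_of_le h3)
    rw [h.idx, gamma, h2, comm_eq_one h5 h0, nt.index,
      ← relIndex_mul_index (h.ns.anti (Nat.le_succ (i + 4))),
      le_antisymm (h.ns.anti (Nat.le_succ (i + 3))) b1, h.index hN le_rfl] at h4
    have h6 := (h.relIndex_le g4).1
    rw [le_antisymm (h.ns.anti (Nat.le_succ (i + 3))) b1] at h6
    have h7 := h4.trans (Nat.mul_le_mul_right _ h6)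
    rw [← pow_succ', Nat.pow_le_pow_iff_right hp.out.one_lt] at h7
    omega
  · obtain ⟨Q, _, _, cls, c⟩ := h.ex_cls (i + 3)
    have a1 := (c.eq_iff (h.ns.anti (by omega) m1) (zpow_mem (h.mem _) _)).2
      (R' 1 (i + 3) le_rfl (by omega) (by omega))
    rw [(c.zero (h.ns.anti (by omega) m1)).2 m1, c.zpow (h.mem _),
      ← Int.cast_smul_eq_zsmul (ZMod p), eq_comm, smul_eq_zero_iff_right (fun h1 => h0 (by
        push_cast at h1 ⊢; linear_combination h1)), c.zero (h.mem _)] at a1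
    refine h.collapse b1 fun a ha => ?_
    obtain ⟨n, hn⟩ := g4.2 a ha
    exact pr_mem le_rfl hn (zpow_mem a1 n)

omit hN in
theorem exists_nt (base : ∀ M, M + 1 < 5 * p → Good p Y x y (M + 1)) :
    ∃ ℓ : ℕ → G → ZMod p, NT (WS Y) ℓ := by
  have good : ∀ M, Good p Y x y (M + 1) := fun M => by
    induction M using Nat.strong_induction_on with
    | _ M ih => exact (lt_or_ge _ _).elim (base M) (h.step ih)
  have key : ∀ M, ∃ ℓ : G → ZMod p, 1 ≤ M → IsCls (WS Y) M ℓ ∧ ℓ (gs p x y M) = 1 := by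
    rintro (_ | M)
    · exact ⟨0, fun h => absurd h (by omega)⟩
    obtain ⟨Q, _, _, cls, c⟩ := h.ex_cls M
    have h0 : cls (gs p x y (M + 1)) ≠ 0 := fun h1 => (good M).2.2 ((c.zero (h.mem _)).1 h1)
    have : ∀ a, ∃ r : ZMod p, a ∈ WS Y (M + 1) → cls a = r • cls (gs p x y (M + 1)) := fun a => by
      by_cases ha : a ∈ WS Y (M + 1)
      · obtain ⟨n, hn⟩ := (good M).2.1.2 a ha
        exact ⟨n, fun _ => by rw [(c.eq_iff ha (zpow_mem (h.mem _) n)).2 hn, c.zpow (h.mem _),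
          Int.cast_smul_eq_zsmul]⟩
      · exact ⟨0, fun h => absurd h ha⟩
    choose ℓ hℓ using this
    refine ⟨ℓ, fun _ => ⟨⟨fun {a b} ha hb => smul_left_injective _ h0 ?_, fun {a} ha => ?_⟩,
      smul_left_injective _ h0 ?_⟩⟩
    · simp only [add_smul, ← hℓ _ ha, ← hℓ _ hb, ← hℓ _ (mul_mem ha hb), c.mul ha hb]
    · rw [← c.zero ha, hℓ a ha, smul_eq_zero_iff_left h0]
    · simp only [← hℓ _ (h.mem _), one_smul]
  choose ℓ hℓ using key
  refine ⟨ℓ, h.ns, rfl, fun i hi => (hℓ i hi).1, fun i hi => ⟨_, h.mem i, (hℓ i hi).2⟩,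
    fun {i j a b} hi hj ha hb => ?_⟩
  obtain ⟨i, rfl⟩ := Nat.exists_eq_add_of_le' hi
  obtain ⟨j, rfl⟩ := Nat.exists_eq_add_of_le' hj
  obtain ⟨n, hn⟩ := (good i).2.1.2 a ha
  obtain ⟨m, hm⟩ := (good j).2.1.2 b hb
  obtain ⟨c, c'⟩ := hℓ (i + 1 + (j + 1)) (by omega)
  rw [c.lead_left h.ns hi ha (h.mem _) hn hb le_rfl,
    c.lead_right h.ns hj (h.mem _) hb (h.mem _) hm le_rfl,
    (c.eq_iff (h.ns.comm (h.mem _) (h.mem _)) (zpow_mem (h.mem _) _)).2
      ((good (i + 1 + j)).1 _ _ hi hj rfl), c.zpow (h.mem _), c',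
    ((hℓ _ hi).1.eq_iff ha (zpow_mem (h.mem _) _)).2 hn, (hℓ _ hi).1.zpow (h.mem _), (hℓ _ hi).2,
    ((hℓ _ hj).1.eq_iff hb (zpow_mem (h.mem _) _)).2 hm, (hℓ _ hj).1.zpow (h.mem _), (hℓ _ hj).2]
  simp only [zsmul_eq_mul]
  push_cast
  ring

end Ctx

end Pool.Agent.Lib.MP_ffb54b_al
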