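import Pool.Agent.Lib.MP_ffb54b_al.Rigid
import Pool.Agent.Lib.MP_ffb54b_al.Induct

set_option autoImplicit false
set_option linter.unusedSectionVars false

namespace Pool.Agent.Lib.MP_ffb54b_al

open Subgroup Nott PowerSeries
open scoped commutatorElement

universe u

variable {G : Type u} [Group G] [TopologicalSpace G] [IsTopologicalGroup G] {p : ℕ}
  [hp : Fact p.Prime]

lemma gamma_anti : Antitone (gamma G) := antitone_nat_of_succ_le fun
  | 0 => le_rfl
  | i + 1 => topologicalClosure_minimal _ (commutator_le_left _ _) (gamma_closed (i + 1))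

lemma WS_le_gamma (Y : Subgroup G) [Y.Normal] (hY : NS (WS Y)) :
    ∀ j, WS Y (2 * j + 1) ≤ gamma G (j + 1)
  | 0 => le_top
  | j + 1 => topologicalClosure_mono (sup_le (commutator_mono
      ((hY.anti (show 2 * j + 1 ≤ 2 * j + 2 by omega)).trans (WS_le_gamma Y hY j)) le_rfl)
      (commutator_mono (WS_le_gamma Y hY j) le_top))

section Disc

variable {H : Type*} [Group H] [TopologicalSpace H] [IsTopologicalGroup H] [DiscreteTopology H]
  {f : G →* H} (hf : Continuous f) (hs : Function.Surjective f)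
include hf

lemma map_closure (S : Subgroup G) :
    S.topologicalClosure.map f = (S.map f).topologicalClosure :=
  le_antisymm (image_closure_subset_closure_image hf) (topologicalClosure_minimal _
    (map_mono (le_topologicalClosure _)) (isClosed_discrete _))

include hs

lemma map_gamma : ∀ i, (gamma G i).map f = gamma H i
  | 0 => map_top_of_surjective f hs
  | 1 => map_top_of_surjective f hs
  | i + 2 => by
    rw [gamma, map_closure hf, map_commutator, map_gamma (i + 1), map_top_of_surjective f hs, gamma]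

lemma map_WS (Y : Subgroup G) : ∀ i, (WS Y i).map f = WS (Y.map f) i
  | 0 => map_top_of_surjective f hs
  | 1 => map_top_of_surjective f hs
  | 2 => rfl
  | i + 3 => by
    rw [WS, map_closure hf, Subgroup.map_sup, map_commutator, map_commutator, map_WS Y (i + 1),
      map_WS Y (i + 2), map_top_of_surjective f hs, WS]

lemma mem_WS_iff {Y : Subgroup G} {i : ℕ} (hk : f.ker ≤ WS Y i) {a : G} :
    a ∈ WS Y i ↔ f a ∈ WS (Y.map f) i := by
  rw [← map_WS hf hs, ← mem_comap, comap_map_eq, sup_eq_left.2 hk]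

lemma quot_equiv {m : ℕ} (hk : f.ker ≤ gamma G m) :
    Nonempty (G ⧸ gamma G m ≃* H ⧸ gamma H m) ∧ DiscreteTopology (G ⧸ gamma G m) := by
  refine ⟨⟨(QuotientGroup.quotientMulEquivOfEq ?_).trans
    (QuotientGroup.quotientKerEquivOfSurjective ((QuotientGroup.mk' (gamma H m)).comp f)
      ((QuotientGroup.mk'_surjective _).comp hs))⟩, QuotientGroup.discreteTopology
      (isOpen_mono hk ((isOpen_discrete {1}).preimage hf))⟩
  rw [← MonoidHom.comap_ker, QuotientGroup.ker_mk', ← map_gamma hf hs, comap_map_eq,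
    sup_eq_left.2 hk]

end Disc

lemma IsProP.eq_one (h : IsProP G p) {g : G} (hg : ∀ i, g ∈ gamma G i) : g = 1 := by
  obtain ⟨_, _, _, h⟩ := h
  by_contra h1
  obtain ⟨U, hU⟩ := ProfiniteGrp.exist_openNormalSubgroup_sub_open_nhds_of_one
    (isOpen_compl_singleton (x := g)) (Ne.symm h1)
  obtain ⟨k, hk⟩ := h U.toSubgroup inferInstance U.isOpen
  have := QuotientGroup.discreteTopology U.isOpen
  have : Finite (G ⧸ U.toSubgroup) := Nat.finite_of_card_ne_zero
    (by rw [← index_eq_card, hk]; exact pow_ne_zero _ hp.out.ne_zero)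
  obtain ⟨n, hn⟩ := Subgroup.nilpotent_iff_lowerCentralSeries.1
    (IsPGroup.of_card (G := G ⧸ U.toSubgroup) hk).isNilpotent
  have a1 : ∀ i, gamma (G ⧸ U.toSubgroup) (i + 1) ≤ Subgroup.lowerCentralSeries ⊤ i := fun i => by
    induction i with
    | zero => exact le_top
    | succ i ih =>
      exact topologicalClosure_minimal _ (commutator_mono ih le_rfl) (isClosed_discrete _)
  have a2 := a1 n (map_gamma (f := QuotientGroup.mk' U.toSubgroup) QuotientGroup.continuous_mk
    (QuotientGroup.mk'_surjective _) (n + 1) ▸ mem_map_of_mem _ (hg (n + 1)))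
  rw [hn] at a2
  exact hU ((QuotientGroup.eq_one_iff g).1 a2) rfl

lemma discrete_quot (h5 : 5 ≤ p) (n : ℕ) : DiscreteTopology (Nott p ⧸ gamma (Nott p) n) :=
  QuotientGroup.discreteTopology (isOpen_mono (gamma_anti n.le_succ) (by
    obtain ⟨M, h⟩ := gamma_Jn_step h5 n
    exact h ▸ isOpen_Jn _))

lemma IsApprox.exists_hom {n : ℕ} (h : IsApprox G p n) : ∃ f : G →* Nott p ⧸ gamma (Nott p) n,
    Continuous f ∧ Function.Surjective f ∧ f.ker = gamma G n := by
  obtain ⟨-, -, ⟨e⟩⟩ := h
  refine ⟨e.toMulEquiv.toMonoidHom.comp (QuotientGroup.mk' _),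
    e.continuous.comp QuotientGroup.continuous_mk,
    e.surjective.comp (QuotientGroup.mk'_surjective _), Subgroup.ext fun a => ?_⟩
  simp

lemma IsApprox.mono (h5 : 5 ≤ p) {n m : ℕ} (h : IsApprox G p n) (hm : m ≤ n) :
    IsApprox G p m := by
  obtain ⟨f, h1, h2, h3⟩ := h.exists_hom
  have := discrete_quot h5 n
  obtain ⟨⟨e⟩, _⟩ := quot_equiv h1 h2 (h3.le.trans (gamma_anti hm))
  obtain ⟨⟨e'⟩, _⟩ := quot_equiv (f := QuotientGroup.mk' (gamma (Nott p) n))
    QuotientGroup.continuous_mk (QuotientGroup.mk'_surjective _)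
    ((QuotientGroup.ker_mk' _).le.trans (gamma_anti hm))
  exact ⟨h.1, h.2.1, ⟨⟨e.trans e'.symm, continuous_of_discreteTopology,
    continuous_of_discreteTopology⟩⟩⟩

lemma iso_of_nt (h5 : 5 ≤ p) (hG : IsProP G p) {K : ℕ → Subgroup G} [∀ i, (K i).Normal]
    {lG : ℕ → G → ZMod p} (h : NT K lG) (hc : ∀ i, IsClosed (K i : Set G))
    (hs : ∀ g, (∀ i, g ∈ K i) → g = 1) : Nonempty (G ≃ₜ* Nott p) := by
  obtain ⟨θ, hθ⟩ := exists_hom h5 h
  obtain ⟨_, _, -⟩ := hG
  have cont : Continuous θ := continuous_of_continuousAt_one θ (by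
    rw [ContinuousAt, map_one]
    refine (nhds_basis _).tendsto_right_iff.2 fun n _ => ?_
    have : (K (n + 1)).FiniteIndex := ⟨h.index n ▸ pow_ne_zero _ hp.out.ne_zero⟩
    filter_upwards [(isOpen_of_isClosed_of_finiteIndex _ (hc (n + 1))).mem_nhds (one_mem _)]
      with g hg using (pow_dvd_pow _ (by omega)).trans (hθ _ (by omega) g hg).1)
  have inj : Function.Injective θ := (injective_iff_map_eq_one θ).2 fun g hg => hs g fun i => by
    refine h.anti i.le_succ ?_
    induction i with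
    | zero => exact h.top ▸ mem_top g
    | succ i ih =>
      rw [← (h.cls _ (by omega)).zero ih, ← (hθ _ (by omega) g ih).2, hg]
      simp [one_ser]
  have sur : Function.Surjective θ := fun f => topologicalClosure_minimal θ.range le_rfl
    (isCompact_range cont).isClosed (Nott.mem_closure (nt.approx le_rfl (fun r hr => by
      obtain ⟨g, hg, hg'⟩ := h.surj r hr
      exact ⟨θ g, ⟨g, rfl⟩, (hθ r hr g hg).1, by simp only [(hθ r hr g hg).2, hg']; simp⟩)
      (mem_one f)))
  exact ⟨⟨MulEquiv.ofBijective θ ⟨inj, sur⟩, cont,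
    Continuous.continuous_symm_of_equiv_compact_to_t2
      (f := (MulEquiv.ofBijective θ ⟨inj, sur⟩).toEquiv) cont⟩⟩

theorem rigid (h5 : 5 ≤ p) {n : ℕ} (hn : 5 * p ≤ n) (hG : IsApprox G p n)
    (hH : ∀ i, 1 ≤ i → Nonempty (Factor G i ≃* Factor (Nott p) i)) : Nonempty (G ≃ₜ* Nott p) := by
  obtain ⟨f, h1, h2, h3⟩ := hG.exists_hom
  have := discrete_quot h5 n
  let π := QuotientGroup.mk' (gamma (Nott p) n)
  have h1' : Continuous π := QuotientGroup.continuous_mk
  have h2' : Function.Surjective π := QuotientGroup.mk'_surjective _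
  let Y := ((Jn p 2).map π).comap f
  have : Y.Normal := (Normal.map inferInstance π h2').comap f
  have hY : IsClosed (Y : Set G) := (isClosed_discrete ((Jn p 2).map π).carrier).preimage h1
  choose t ht using fun a => h2' (f a)
  have comm : ⁅(⊤ : Subgroup G), ⊤⁆ ≤ Y := commutator_le.2 fun a _ b _ =>
    ⟨⁅t a, t b⁆, nt.comm' (mem_one _) (mem_one _) le_rfl, by simp only [map_commutatorElement, ht]⟩
  have link : ∀ {i a b}, i + 1 ≤ n → f a = π b → (a ∈ WS Y (i + 1) ↔ b ∈ Jn p (i + 1)) := by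
    intro i a b hi e
    rw [mem_WS_iff h1 h2 (h3.le.trans ((gamma_anti hi).trans (gamma_le_WS hY comm _))),
      ← WS_eq h5, mem_WS_iff h1' h2' ((QuotientGroup.ker_mk' _).le.trans ((gamma_anti hi).trans
        (WS_eq h5 i ▸ gamma_le_Jn h5 i))), e, map_comap_eq_self_of_surjective h2]
  obtain ⟨x', hx1, hx2⟩ := (nt (p := p)).surj 1 le_rfl
  obtain ⟨y', hy1, hy2⟩ := (nt (p := p)).surj 2 (by omega)
  obtain ⟨x, hx⟩ := h2 (π x')
  obtain ⟨y, hy⟩ := h2 (π y')
  have e : ∀ i, f (gs p x y i) = π (gs p x' y' i) := fun i => by rw [map_gs, map_gs, hx, hy]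
  have m := gs_mem (p := p) nt.toNS hx1 hy1
  have o := nt.gs_one h5 hx2 hy1 hy2
  have good : ∀ M, M + 1 < 5 * p → Good p Y x y (M + 1) := fun M hM => by
    have c := (nt (p := p)).cls (M + 1) (by omega)
    refine ⟨fun i j hi hj hij => ?_, ⟨(link (by omega) (e _)).2 (m _), fun a ha => ?_⟩, fun h => ?_⟩
    · obtain ⟨i, rfl⟩ := Nat.exists_eq_add_of_le' hi
      obtain ⟨j, rfl⟩ := Nat.exists_eq_add_of_le' hj
      refine pr_eq.2 ((link (b := ⁅gs p x' y' (i + 1), gs p x' y' (j + 1)⁆ *
        (gs p x' y' (M + 1) ^ (((j + 1 : ℕ) : ℤ) - (i + 1 : ℕ)))⁻¹) (by omega)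
        (by simp only [map_mul, map_inv, map_zpow, map_commutatorElement, e])).2 (pr_eq.1
        ((c.eq_iff (nt.comm' (m _) (m _) hij.ge) (zpow_mem (m _) _)).1 ?_)))
      have := nt.lead hi hj (m (i + 1)) (m (j + 1))
      rw [hij, o, o] at this
      rw [this, c.zpow (m _), o]
      simp
    · obtain ⟨k, hk⟩ := nt.pr_zpow (by omega) ((link (by omega) (ht a).symm).1 ha) (m _)
        (o M ▸ one_ne_zero)
      exact ⟨k, pr_eq.2 ((link (by omega) (by
        simp only [map_mul, map_inv, map_zpow, e, ht])).2 (pr_eq.1 hk))⟩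
    · exact one_ne_zero ((o M).symm.trans ((c.zero (m _)).2 ((link (by omega) (e _)).1 h)))
  have tors : ∀ i, i + 2 ≤ n → ∀ a ∈ WS Y (i + 1), a ^ p ∈ WS Y (i + 2) := fun i hi a ha => by
    have c := (nt (p := p)).cls (i + 1) (by omega)
    have ha' := (link (by omega) (ht a).symm).1 ha
    rw [link (b := t a ^ p) hi (by simp only [map_pow, ht]), ← c.zero (pow_mem ha' _),
      ← zpow_natCast, c.zpow ha']
    simp
  have C : Ctx p Y x y := ⟨h5, hY, comm, fun k => ?_, fun a => tors 0 (by omega) a (mem_top a),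
    tors 1 (by omega), (good 0 (by omega)).2.1, (good 1 (by omega)).2.1⟩
  · obtain ⟨ℓ, hℓ⟩ := C.exists_nt good
    exact iso_of_nt h5 hG.1 hℓ (WS_closed hY) fun g hg => hG.1.eq_one fun i =>
      gamma_anti i.le_succ (WS_le_gamma Y C.ns i (hg _))
  · induction k with
    | zero => exact index_top.trans index_top.symm
    | succ k ih =>
      obtain ⟨e⟩ := hH (k + 1) (by omega)
      rw [← relIndex_mul_index (gamma_anti (k + 1).le_succ),
        ← relIndex_mul_index (gamma_anti (G := Nott p) (k + 1).le_succ), ih]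
      exact congrArg (· * _) (Nat.card_congr e.toEquiv)

end Pool.Agent.Lib.MP_ffb54b_al
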