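import Pool.Agent.Lib.MP_ffb54b_al.NT
import Pool.Agent.Lib.MP_ffb54b_al.Filt

set_option autoImplicit false
set_option linter.unusedSectionVars false

namespace Pool.Agent.Lib.MP_ffb54b_al

open Subgroup Filter Finset
open scoped commutatorElement

attribute [local instance] Ultrafilter.add in
lemma exists_ultra {p : ℕ} (hp : 0 < p) : ∃ U : Ultrafilter ℕ, (∀ k, ∀ᶠ N : ℕ in U, k ≤ N) ∧
    (∀ᶠ N : ℕ in U, (N : ZMod p) = 0) ∧
    Tendsto (fun τ : ℕ × ℕ => τ.1 + τ.2) ((U : Filter ℕ).curry U) U := by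
  obtain ⟨U, hU, h⟩ := Hindman.exists_idempotent_ultrafilter_le_FS (Stream'.const p)
  have h1 : ∀ (a : Stream' ℕ) m, m ∈ Hindman.FS a → (∀ i, a.get i = p) →
      (m : ZMod p) = 0 ∧ 1 ≤ m := by
    intro a m hm
    induction hm with
    | head' a => exact fun h => by rw [show a.head = p from h 0]; exact ⟨by simp, hp⟩
    | tail' a m _ ih => exact fun h => ih fun i => h (i + 1)
    | cons' a m _ ih =>
      exact fun h => by
        have := ih fun i => h (i + 1)
        rw [show a.head = p from h 0]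
        exact ⟨by simp [this.1], by omega⟩
  have h2 := h.mono fun m hm => h1 _ m hm fun _ => rfl
  have h3 : ∀ P : ℕ → Prop, (∀ᶠ m in U, P m) ↔ ∀ᶠ m in U, ∀ᶠ m' in U, P (m + m') := fun P => by
    rw [← Ultrafilter.eventually_add, hU]
  refine ⟨U, fun k => ?_, h2.mono fun _ h => h.1, fun s hs => ?_⟩
  · induction k with
    | zero => simp
    | succ k ih =>
      exact (h3 _).2 (ih.mono fun m hm => h2.mono fun m' hm' => by omega)
  · exact eventually_curry_iff.2 ((h3 _).1 hs)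

universe u

variable {G : Type u} [Group G] {p : ℕ} [hp : Fact p.Prime]

/-- The shifted index `N + i`. -/
def ix (N : ℕ) (i : ℤ) : ℕ := ((N : ℤ) + i).toNat

/-- Every `𝔽_p`-valued function is eventually constant along the filter. -/
def Conv (p : ℕ) {I : Type} (ℱ : Filter I) : Prop := ∀ f : I → ZMod p, ∃ r, ∀ᶠ τ in ℱ, f τ = r

lemma Conv.ultra (U : Ultrafilter ℕ) : Conv p (U : Filter ℕ) := fun f => by
  obtain ⟨r, hr⟩ := Ultrafilter.eq_pure_of_finite (U.map f)
  exact ⟨r, (Ultrafilter.mem_map (m := f) (s := {r})).1 (by rw [hr]; simp)⟩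

lemma Conv.curry {I J : Type} {ℱ : Filter I} {𝒢 : Filter J} (h : Conv p ℱ) (h' : Conv p 𝒢) :
    Conv p (ℱ.curry 𝒢) := fun f => by
  choose r hr using fun x => h' fun y => f (x, y)
  obtain ⟨r', hr'⟩ := h r
  exact ⟨r', eventually_curry_iff.2 (hr'.mono fun x hx => hx ▸ hr x)⟩

lemma curry_neBot {I J : Type} (ℱ : Filter I) (𝒢 : Filter J) [ℱ.NeBot] [𝒢.NeBot] :
    (ℱ.curry 𝒢).NeBot :=
  frequently_true_iff_neBot _ |>.1 (frequently_curry_iff _ |>.2 (by simpa))

variable (K : ℕ → Subgroup G) [∀ i, (K i).Normal] (U : Ultrafilter ℕ) {I J : Type}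

/-- Asymptotic agreement of two families. -/
def Eqv (ℱ : Filter I) (s : I → ℕ) (a b : I → G) : Prop :=
  ∀ c : ℤ, ∀ᶠ τ in ℱ, pr K (ix (s τ) c) (a τ) = pr K (ix (s τ) c) (b τ)

/-- A family lies eventually in the `i`-th shifted term. -/
def Ev (ℱ : Filter I) (s : I → ℕ) (i : ℤ) : Subgroup (I → G) where
  carrier := {a | ∀ᶠ τ in ℱ, a τ ∈ K (ix (s τ) i)}
  one_mem' := Eventually.of_forall fun _ => one_mem _
  mul_mem' ha hb := (Eventually.and ha hb).mono fun _ h => mul_mem h.1 h.2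
  inv_mem' ha := Eventually.mono ha fun _ h => inv_mem h

/-- An abelian group of limits of windows of the series `K`. -/
structure Model (A : Type u) [AddCommGroup A] where
  /-- A representing sequence. -/
  rep : A → ℕ → G
  add : ∀ y z, Eqv K U id (rep (y + z)) (rep y * rep z)
  ext : ∀ {y z}, Eqv K U id (rep y) (rep z) → y = z
  surj : ∀ {a i}, a ∈ Ev K U id i → ∃ y, Eqv K U id a (rep y)
  bdd : ∀ y, ∃ i, rep y ∈ Ev K U id i

variable {K U} {ℱ : Filter I} {𝒢 : Filter J} {s : I → ℕ} {a b c a' b' : I → G} {i j : ℤ}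

lemma mem_Ev : a ∈ Ev K ℱ s i ↔ ∀ᶠ τ in ℱ, a τ ∈ K (ix (s τ) i) := Iff.rfl

lemma Eqv.rfl : Eqv K ℱ s a a := fun _ => Eventually.of_forall fun _ => _root_.rfl

lemma Eqv.symm (h : Eqv K ℱ s a b) : Eqv K ℱ s b a := fun c => (h c).mono fun _ => Eq.symm

lemma Eqv.trans (h : Eqv K ℱ s a b) (h' : Eqv K ℱ s b c) : Eqv K ℱ s a c := fun c =>
  ((h c).and (h' c)).mono fun _ h => h.1.trans h.2

lemma Eqv.mul (h : Eqv K ℱ s a b) (h' : Eqv K ℱ s a' b') : Eqv K ℱ s (a * a') (b * b') := fun c =>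
  ((h c).and (h' c)).mono fun _ h => by simp only [Pi.mul_apply, map_mul, h.1, h.2]

lemma Eqv.inv (h : Eqv K ℱ s a b) : Eqv K ℱ s a⁻¹ b⁻¹ := fun c =>
  (h c).mono fun _ h => by simp only [Pi.inv_apply, map_inv, h]

lemma Eqv.comp (h : Eqv K ℱ s a b) {t : J → I} (ht : Tendsto t 𝒢 ℱ) :
    Eqv K 𝒢 (s ∘ t) (a ∘ t) (b ∘ t) := fun c => ht.eventually (h c)

lemma Eqv.mem (h : Eqv K ℱ s a b) (hb : b ∈ Ev K ℱ s i) : a ∈ Ev K ℱ s i :=
  ((h i).and hb).mono fun _ h => pr_mem le_rfl h.1 h.2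

lemma eqv_iff : Eqv K ℱ s a b ↔ a * b⁻¹ ∈ ⨅ i, Ev K ℱ s i := by
  simp only [Eqv, pr_eq, Subgroup.mem_iInf, mem_Ev, Pi.mul_apply, Pi.inv_apply]

lemma Ev_anti (hK : NS K) : Antitone (Ev K ℱ s) := fun _ _ h _ ha =>
  Eventually.mono ha fun _ h' => hK.anti (Int.toNat_le_toNat (by omega)) h'

instance : (⨅ i, Ev K ℱ s i).Normal := ⟨fun _ ha b => Subgroup.mem_iInf.2 fun i =>
  Eventually.mono (Subgroup.mem_iInf.1 ha i) fun τ h => Normal.conj_mem inferInstance _ h (b τ)⟩

lemma exists_model (hK : NS K) (top : ∀ k, ∀ᶠ N : ℕ in U, k ≤ N) :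
    ∃ (A : Type u) (_ : AddCommGroup A), Nonempty (Model K U A) := by
  let S := ⨆ i, Ev K U id i
  have hS : ∀ {a}, a ∈ S ↔ ∃ i, a ∈ Ev K U id i :=
    mem_iSup_of_directed (Ev_anti hK).directed_le
  let H := S ⧸ (⨅ i, Ev K U id i).subgroupOf S
  have e : ∀ a b : S, (a : H) = b ↔ Eqv K U id a b := fun a b => by
    rw [eqv_iff, ← mul_inv_eq_one, ← QuotientGroup.mk_inv, ← QuotientGroup.mk_mul,
      QuotientGroup.eq_one_iff, mem_subgroupOf]
    rfl
  let _ : CommGroup H := { (inferInstance : Group H) with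
    mul_comm := by
      rintro ⟨a⟩ ⟨b⟩
      obtain ⟨i, hi⟩ := hS.1 a.2
      obtain ⟨j, hj⟩ := hS.1 b.2
      refine (e (a * b) (b * a)).2 fun c => ?_
      filter_upwards [hi, hj, top (c - i - j).toNat] with N h1 h2 h3
      simp only [Subgroup.coe_mul, Pi.mul_apply, map_mul]
      exact hK.pr_comm h1 h2 (by simp only [ix, id]; omega) }
  refine ⟨Additive H, inferInstance, ⟨fun y => (Quotient.out y.toMul : S), fun y z => ?_,
    fun h => ?_, fun {a i} ha => ⟨Additive.ofMul (↑(⟨a, hS.2 ⟨i, ha⟩⟩ : S) : H), ?_⟩,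
    fun y => hS.1 (Subtype.prop _)⟩⟩
  · exact (e _ (_ * _)).1 (by simp)
  · simpa using (e _ _).2 h
  · exact (e ⟨a, hS.2 ⟨i, ha⟩⟩ _).1 (by simp)

/-- A pattern: a filter of ultrafilter type whose image under `s` is `U`. -/
structure Pat (p : ℕ) (U : Ultrafilter ℕ) (ℱ : Filter I) (s : I → ℕ) : Prop where
  ne : ℱ.NeBot
  conv : Conv p ℱ
  tend : Tendsto s ℱ U

lemma Pat.self (U : Ultrafilter ℕ) : Pat p U U id := ⟨inferInstance, Conv.ultra U, tendsto_id⟩

lemma Pat.iff (h : Pat p U ℱ s) {P : ℕ → Prop} : (∀ᶠ τ in ℱ, P (s τ)) ↔ ∀ᶠ N in U, P N := by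
  refine ⟨fun h1 => by_contra fun h2 => ?_, h.tend.eventually⟩
  have := h.ne
  obtain ⟨τ, h3⟩ := (h1.and (h.tend.eventually (Ultrafilter.eventually_not.2 h2))).exists
  exact h3.2 h3.1

/-- Ordered products of initial segments. -/
def pp (w : ℕ → G) : ℕ → G
  | 0 => 1
  | n + 1 => pp w n * w n

namespace Model

variable {A : Type u} [AddCommGroup A] (M : Model K U A) {y z : A}

/-- The family `a` has limit `y`. -/
def IsLim (ℱ : Filter I) (s : I → ℕ) (a : I → G) (y : A) : Prop := Eqv K ℱ s a (M.rep y ∘ s)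

/-- The filtration of the limit group. -/
def F (i : ℤ) : AddSubgroup A where
  carrier := {y | M.rep y ∈ Ev K (U : Filter ℕ) id i}
  zero_mem' := by
    have h := (M.add 0 0).mul (Eqv.rfl (a := (M.rep 0)⁻¹))
    rw [add_zero, mul_inv_cancel, mul_inv_cancel_right] at h
    exact h.symm.mem (one_mem _)
  add_mem' {y z} hy hz := (M.add y z).mem (mul_mem (a := M.rep y) hy hz)
  neg_mem' {y} hy := by
    have h := (M.add 0 0).mul (Eqv.rfl (a := (M.rep 0)⁻¹))
    have h' := (M.add (-y) y).mul (Eqv.rfl (a := (M.rep y)⁻¹))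
    rw [add_zero, mul_inv_cancel, mul_inv_cancel_right] at h
    rw [neg_add_cancel, mul_inv_cancel_right] at h'
    exact h'.symm.mem (mul_mem (h.symm.mem (one_mem _)) (inv_mem hy))

variable {M}

lemma IsLim.self : M.IsLim ℱ s (M.rep y ∘ s) y := Eqv.rfl

lemma IsLim.congr (h : M.IsLim ℱ s a y) (e : Eqv K ℱ s b a) : M.IsLim ℱ s b y := e.trans h

lemma IsLim.comp (h : M.IsLim ℱ s a y) {t : J → I} (ht : Tendsto t 𝒢 ℱ) {u : J → ℕ}
    (e : ∀ τ, s (t τ) = u τ) : M.IsLim 𝒢 u (a ∘ t) y :=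
  (funext e : s ∘ t = u) ▸ Eqv.comp h ht

variable (P : Pat p U ℱ s)
include P

lemma IsLim.unique (h : M.IsLim ℱ s a y) (h' : M.IsLim ℱ s a z) : y = z :=
  M.ext fun c => P.iff.1 ((h.symm.trans h') c)

lemma IsLim.mul (h : M.IsLim ℱ s a y) (h' : M.IsLim ℱ s b z) : M.IsLim ℱ s (a * b) (y + z) :=
  (Eqv.mul h h').trans ((M.add y z).comp P.tend).symm

lemma IsLim.mem (h : M.IsLim ℱ s a y) : y ∈ M.F i ↔ a ∈ Ev K ℱ s i :=
  ⟨fun hy => Eqv.mem h (P.tend.eventually hy), fun ha => P.iff.1 (h.symm.mem ha)⟩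

lemma IsLim.one : M.IsLim ℱ s 1 0 := fun c =>
  (P.tend.eventually (zero_mem (M.F c))).mono fun _ h => (map_one _).trans (pr_one.2 h).symm

lemma IsLim.inv (h : M.IsLim ℱ s a y) : M.IsLim ℱ s a⁻¹ (-y) := by
  have h1 := ((h.mul P (IsLim.self (y := -y))).trans (by
    rw [add_neg_cancel]; exact (IsLim.one P).symm)).symm
  simpa [IsLim] using (Eqv.rfl (a := a⁻¹)).mul h1

lemma IsLim.pow (h : M.IsLim ℱ s a y) (n : ℕ) : M.IsLim ℱ s (a ^ n) (n • y) := by
  induction n with
  | zero => simpa using IsLim.one P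
  | succ n ih => rw [pow_succ, succ_nsmul]; exact ih.mul P h

lemma IsLim.sub_mem (h : M.IsLim ℱ s a y) (h' : M.IsLim ℱ s b z) : y - z ∈ M.F i ↔
    ∀ᶠ τ in ℱ, pr K (ix (s τ) i) (a τ) = pr K (ix (s τ) i) (b τ) := by
  rw [sub_eq_add_neg, (h.mul P (h'.inv P)).mem P]
  simp only [pr_eq, mem_Ev, Pi.mul_apply, Pi.inv_apply]

omit P in
lemma complete (hK : NS K) (top : ∀ k, ∀ᶠ N : ℕ in U, k ≤ N) (i : ℤ) (z : ℕ → A)
    (hz : ∀ c : ℕ, z c ∈ M.F (i + c)) : ∃ y, ∀ c : ℕ, y - ∑ j ∈ range c, z j ∈ M.F (i + c) := by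
  classical
  have P := Pat.self (p := 2) U
  let w (N j : ℕ) : G := if M.rep (z j) N ∈ K (ix N (i + j)) then M.rep (z j) N else 1
  have hw : ∀ N j : ℕ, w N j ∈ K (ix N (i + j)) := fun N j => by
    simp only [w]; split_ifs with h; exacts [h, one_mem _]
  have h1 : ∀ N c n : ℕ, pr K (ix N (i + c)) (pp (w N) (c + n)) = pr K _ (pp (w N) c) := by
    intro N c n
    induction n with
    | zero => rfl
    | succ n ih =>
      rw [← add_assoc, pp, map_mul, ih, pr_one.2 (hK.anti (by simp only [ix]; omega)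
        (hw N (c + n))), mul_one]
  have h2 : ∀ c, M.IsLim U id (fun N => pp (w N) c) (∑ j ∈ range c, z j) := fun c => by
    induction c with
    | zero => exact IsLim.one P
    | succ c ih =>
      rw [sum_range_succ]
      refine ih.mul P (b := fun N => w N c) fun d => Eventually.mono (hz c) fun N h => ?_
      exact congrArg _ (if_pos h)
  obtain ⟨y, hy⟩ := M.surj (a := fun N => pp (w N) N) (i := i) (Eventually.of_forall fun N => by
    have := h1 N 0 N
    rw [zero_add, Nat.cast_zero, add_zero, pp, map_one] at this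
    exact pr_one.1 this)
  refine ⟨y, fun c => (IsLim.sub_mem P hy (h2 c)).2 ((top c).mono fun N hN => ?_)⟩
  obtain ⟨n, rfl⟩ := Nat.exists_eq_add_of_le hN
  exact h1 _ c n

end Model

/-- The standing hypotheses on the series and on the ultrafilter. -/
structure Hyp (K : ℕ → Subgroup G) (lG : ℕ → G → ZMod p) (U : Ultrafilter ℕ) : Prop where
  nt : NT K lG
  top : ∀ k, ∀ᶠ N : ℕ in U, k ≤ N
  dvd : ∀ᶠ N : ℕ in U, (N : ZMod p) = 0

lemma Eqv.comm (hK : NS K) {t u : I → ℕ} (e : ∀ τ, s τ + t τ = u τ) (h : Eqv K ℱ s a a')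
    (h' : Eqv K ℱ t b b') (ha : a' ∈ Ev K ℱ s i) (hb : b ∈ Ev K ℱ t j) :
    Eqv K ℱ u ⁅a, b⁆ ⁅a', b'⁆ := fun c => by
  filter_upwards [h (c - j), h' (c - i), ha, hb] with τ h1 h2 h3 h4
  exact (hK.congr_left h1 h4 (by simp only [ix, ← e τ]; omega)).trans
    (hK.congr_right h3 h2 (by simp only [ix, ← e τ]; omega))

namespace Model

variable {A : Type u} [AddCommGroup A] (M : Model K U A) {y z : A} {lG : ℕ → G → ZMod p}

/-- The leading coefficient in the limit group. -/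
noncomputable def ℓ (lG : ℕ → G → ZMod p) (i : ℤ) (y : A) : ZMod p :=
  (Conv.ultra U fun N => lG (ix N i) (M.rep y N)).choose

lemma exists_conj (g : G) (y : A) : ∃ z, M.IsLim U id (fun N => g * M.rep y N * g⁻¹) z :=
  (M.bdd y).elim fun _ h => M.surj (Eventually.mono h fun _ h' =>
    Normal.conj_mem inferInstance _ h' g)

/-- The conjugation action on the limit group. -/
noncomputable def ρ (g : G) : A →+ A := AddMonoidHom.mk' (fun y => (M.exists_conj g y).choose)
  fun y z => IsLim.unique (Pat.self (p := 2) U) (M.exists_conj g (y + z)).choose_spec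
    (((M.exists_conj g y).choose_spec.mul (Pat.self (p := 2) U)
      (M.exists_conj g z).choose_spec).congr fun c => (M.add y z c).mono fun N h => by
        simp only [Pi.mul_apply, map_mul, map_inv, h]; group)

/-- The bracket `β` is the limit of commutators along the pattern `s, t`. -/
def IsBr (ℱ : Filter I) (s t : I → ℕ) (β : A →+ A →+ A) : Prop :=
  ∀ y z, M.IsLim ℱ (s + t) ⁅M.rep y ∘ s, M.rep z ∘ t⁆ (β y z)

variable {M}

lemma IsBr.lim (hK : NS K) {t : I → ℕ} {β : A →+ A →+ A} (h : M.IsBr ℱ s t β)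
    (hs : Tendsto s ℱ U) (ht : Tendsto t ℱ U) {r : J → I} (hr : Tendsto r 𝒢 ℱ) {u v w : J → ℕ}
    {a b : J → G} (ha : M.IsLim 𝒢 u a y) (hb : M.IsLim 𝒢 v b z) (e1 : ∀ τ, s (r τ) = u τ)
    (e2 : ∀ τ, t (r τ) = v τ) (e : ∀ τ, u τ + v τ = w τ) : M.IsLim 𝒢 w ⁅a, b⁆ (β y z) := by
  obtain ⟨i, hi⟩ := M.bdd y
  obtain ⟨j, hj⟩ := M.bdd z
  obtain rfl : s ∘ r = u := funext e1
  obtain rfl : t ∘ r = v := funext e2
  exact ((h y z).comp hr e).congr (Eqv.comm hK e ha hb ((hs.comp hr).eventually hi)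
    (Eqv.mem hb ((ht.comp hr).eventually hj)))

variable (H : Hyp K lG U) (P : Pat p U ℱ s)
include P

lemma IsLim.conj (h : M.IsLim ℱ s a y) (g : G) :
    M.IsLim ℱ s (fun τ => g * a τ * g⁻¹) (M.ρ g y) :=
  Eqv.trans (fun c => (h c).mono fun τ h => by simp only [map_mul, h]; rfl)
    (Eqv.comp (M.exists_conj g y).choose_spec P.tend)

include H

lemma IsLim.lead (h : M.IsLim ℱ s a y) (ha : a ∈ Ev K ℱ s i) :
    ∀ᶠ τ in ℱ, lG (ix (s τ) i) (a τ) = M.ℓ lG i y := by
  filter_upwards [h (i + 1), ha, h.symm.mem ha, P.tend.eventually (H.top (1 - i).toNat),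
    P.tend.eventually (Conv.ultra U fun N => lG (ix N i) (M.rep y N)).choose_spec]
    with τ h1 h2 h3 h4 h5
  exact (((H.nt.cls _ (by simp only [ix]; omega)).eq_iff h2 h3).2
    (H.nt.pr_mono h1 (by simp only [ix]; omega))).trans h5

lemma IsLim.lead_eq (h : M.IsLim ℱ s a y) (ha : a ∈ Ev K ℱ s i) {r : ZMod p}
    (hr : ∀ᶠ τ in ℱ, lG (ix (s τ) i) (a τ) = r) : M.ℓ lG i y = r := by
  have := P.ne
  obtain ⟨τ, h1⟩ := ((h.lead H P ha).and hr).exists
  exact h1.1.symm.trans h1.2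

omit P in
lemma exists_e (i : ℤ) : ∃ e, e ∈ M.F i ∧ M.ℓ lG i e = 1 := by
  have : ∀ n, ∃ g ∈ K n, 1 ≤ n → lG n g = 1 := fun n => (Nat.eq_zero_or_pos n).elim
    (fun h => ⟨1, one_mem _, by omega⟩) fun h => (H.nt.surj n h).imp fun _ h => ⟨h.1, fun _ => h.2⟩
  choose g hg hg' using this
  have ha : (fun N => g (ix N i)) ∈ Ev K (U : Filter ℕ) id i := Eventually.of_forall fun N => hg _
  obtain ⟨y, hy⟩ := M.surj ha
  exact ⟨y, hy.symm.mem ha, IsLim.lead_eq H (Pat.self U) hy ha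
    ((H.top (1 - i).toNat).mono fun N h => hg' _ (by simp only [ix, id]; omega))⟩

omit P in
variable (M) in
/-- The limit group with its filtration and action. -/
noncomputable def act : Act p A K lG where
  F := M.F
  ℓ := M.ℓ lG
  e i := (exists_e H i).choose
  anti _ _ h _ hy := Ev_anti H.nt.toNS h hy
  add {i y z} hy hz := by
    have P := Pat.self (p := p) U
    refine (IsLim.self.mul P IsLim.self).lead_eq H P (mul_mem hy hz) ?_
    filter_upwards [IsLim.self.lead H P hy, IsLim.self.lead H P hz, hy, hz, H.top (1 - i).toNat]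
      with N h1 h2 h3 h4 h5
    rw [← h1, ← h2]
    exact (H.nt.cls _ (by simp only [ix, id]; omega)).mul h3 h4
  zero {i y} hy := by
    have P := Pat.self (p := p) U
    have : ∀ᶠ N in U, M.ℓ lG i y = 0 ↔ M.rep y N ∈ K (ix N (i + 1)) := by
      filter_upwards [IsLim.self.lead H P hy, hy, H.top (1 - i).toNat] with N h1 h2 h3
      rw [← h1, show ix N (i + 1) = ix N i + 1 by simp only [ix]; omega]
      exact (H.nt.cls _ (by simp only [ix, id]; omega)).zero h2
    exact eventually_const.symm.trans (eventually_congr this)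
  e_mem i := (exists_e H i).choose_spec.1
  e_one i := (exists_e H i).choose_spec.2
  sep h := M.ext fun c => (Eventually.and (h c) (zero_mem (M.F c))).mono fun _ h =>
    (pr_one.2 h.1).trans (pr_one.2 h.2).symm
  exh := M.bdd
  complete := complete H.nt.toNS H.top
  ρ := M.ρ
  ρ_mul g h y := by
    have P := Pat.self (p := p) U
    refine (IsLim.self.conj P _).unique P (((IsLim.self.conj P h).conj P g).congr ?_)
    simp only [mul_inv_rev, mul_assoc]
    exact Eqv.rfl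
  ρ_deg {k g i y} hg hy := by
    have P := Pat.self (p := p) U
    rw [sub_eq_add_neg, ((IsLim.self.conj P g).mul P (IsLim.self.inv P)).mem P]
    exact Eventually.mono hy fun N h => H.nt.comm' hg h (by simp only [ix, id]; omega)
  ρ_lead {k g i y} hk hg hy := by
    have P := Pat.self (p := p) U
    rw [sub_eq_add_neg]
    refine ((IsLim.self.conj P g).mul P (IsLim.self.inv P)).lead_eq H P
      (Eventually.mono hy fun N h => H.nt.comm' hg h (by simp only [ix, id]; omega)) ?_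
    filter_upwards [IsLim.self.lead H P hy, hy, H.top (1 - i).toNat, H.dvd] with N h1 h2 h3 h4
    rw [← h1, show ix (id N) (i + k) = k + ix N i by simp only [ix, id]; omega]
    refine (H.nt.lead hk (by simp only [ix, id]; omega) hg h2).trans ?_
    rw [← Int.cast_natCast (ix _ _), show (ix (id N) i : ℤ) = N + i by simp only [ix, id]; omega]
    simp [h4]

lemma exists_lim (ha : a ∈ Ev K ℱ s i) : ∃ y, M.IsLim ℱ s a y := by
  have key : ∀ c : ℕ, ∃ y, ∀ᶠ τ in ℱ,
      pr K (ix (s τ) (i + c)) (a τ) = pr K (ix (s τ) (i + c)) (M.rep y (s τ)) := fun c => by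
    induction c with
    | zero =>
      exact ⟨0, (Eventually.and ha (P.tend.eventually (zero_mem (M.F i)))).mono fun τ h => by
        rw [Nat.cast_zero, add_zero, pr_one.2 h.1]; exact (pr_one.2 h.2).symm⟩
    | succ c ih =>
      obtain ⟨y, hy⟩ := ih
      obtain ⟨e, he, he'⟩ := exists_e (M := M) H (i + c)
      obtain ⟨r, hr⟩ := P.conv fun τ => lG (ix (s τ) (i + c)) (a τ * (M.rep y (s τ))⁻¹)
      refine ⟨r.val • e + y, ?_⟩
      filter_upwards [hy, hr, (((IsLim.self (M := M) (y := e)).pow P r.val).mul P (IsLim.self (y := y)))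
        (i + (c + 1 : ℕ)), IsLim.self.lead H P ((IsLim.self.mem P).1 he), P.tend.eventually he,
        P.tend.eventually (H.top (1 - i).toNat)] with τ h1 h2 h3 h4 h5 h6
      have c' := H.nt.cls (ix (s τ) (i + c)) (by simp only [ix]; omega)
      refine Eq.trans (H.nt.pr_mono (n := ix (s τ) (i + c) + 1) ?_ (by simp only [ix]; omega)) h3
      rw [Pi.mul_apply, map_mul, ← mul_inv_eq_iff_eq_mul, ← map_inv, ← map_mul, Pi.pow_apply,
        ← zpow_natCast]
      refine (c'.eq_iff (pr_eq.1 h1) (zpow_mem h5 _)).1 ?_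
      rw [h2, c'.zpow h5, show lG _ (M.rep e (s τ)) = 1 from h4.trans he']
      simp
  choose y hy using key
  obtain ⟨z, hz⟩ := complete (M := M) H.nt.toNS H.top i (fun c => y (c + 1) - y c) fun c =>
    (IsLim.sub_mem P IsLim.self IsLim.self).2 (((hy c).and (hy (c + 1))).mono fun τ h =>
      (H.nt.pr_mono h.2 (by simp only [ix]; omega)).symm.trans h.1)
  refine ⟨z + y 0, fun c => ?_⟩
  have h1 := hz (c - i).toNat
  rw [sum_range_sub, show ∀ a b c : A, a - (b - c) = a + c - b by intros; abel] at h1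
  filter_upwards [(IsLim.sub_mem P IsLim.self IsLim.self).1 h1, hy (c - i).toNat] with τ h2 h3
  exact H.nt.pr_mono (h3.trans h2.symm) (by simp only [ix]; omega)

variable {t : I → ℕ} (Q : Pat p U ℱ t) (R : Pat p U ℱ (s + t))
include Q R

lemma exists_br : ∃ β, M.IsBr ℱ s t β := by
  have : ∀ y z, ∃ w, M.IsLim ℱ (s + t) ⁅M.rep y ∘ s, M.rep z ∘ t⁆ w := fun y z => by
    obtain ⟨i, hi⟩ := M.bdd y
    obtain ⟨j, hj⟩ := M.bdd z
    refine exists_lim H R (i := i + j) ?_
    filter_upwards [P.tend.eventually hi, Q.tend.eventually hj] with τ h1 h2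
    exact H.nt.comm' h1 h2 (by simp only [ix, id, Pi.add_apply]; omega)
  choose β hβ using this
  refine ⟨AddMonoidHom.mk' (fun y => AddMonoidHom.mk' (β y) fun z w => ?_) fun y w => ?_, hβ⟩
  · obtain ⟨i, hi⟩ := M.bdd y
    obtain ⟨j, hj⟩ := M.bdd z
    obtain ⟨k, hk⟩ := M.bdd w
    refine (hβ y (z + w)).unique R (((hβ y z).mul R (hβ y w)).congr
      ((Eqv.comm H.nt.toNS (fun _ => rfl) Eqv.rfl (IsLim.self.mul Q IsLim.self).symm
        (P.tend.eventually hi) (Q.tend.eventually (add_mem (s := M.F (min j k))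
        (Ev_anti H.nt.toNS (min_le_left _ _) hj) (Ev_anti H.nt.toNS (min_le_right _ _) hk)))).trans
        fun c => ?_))
    filter_upwards [P.tend.eventually hi, Q.tend.eventually hj, Q.tend.eventually hk,
      Q.tend.eventually (H.top (c - i - j - k).toNat)] with τ h1 h2 h3 h4
    exact (H.nt.mul_right h1 h2 h3 (by simp only [ix, id]; omega)).trans
      (map_mul ..).symm
  · ext z
    obtain ⟨i, hi⟩ := M.bdd y
    obtain ⟨j, hj⟩ := M.bdd z
    obtain ⟨k, hk⟩ := M.bdd w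
    refine (hβ (y + w) z).unique R (((hβ y z).mul R (hβ w z)).congr
      ((Eqv.comm H.nt.toNS (fun _ => rfl) (IsLim.self.mul P IsLim.self).symm Eqv.rfl
        (mul_mem (P.tend.eventually (Ev_anti H.nt.toNS (min_le_left i k) hi))
        (P.tend.eventually (Ev_anti H.nt.toNS (min_le_right _ _) hk))) (Q.tend.eventually hj)).trans
        fun c => ?_))
    filter_upwards [P.tend.eventually hi, Q.tend.eventually hj, P.tend.eventually hk,
      P.tend.eventually (H.top (c - i - j - k).toNat)] with τ h1 h2 h3 h4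
    exact (H.nt.mul_left h1 h3 h2 (by simp only [ix, id]; omega)).trans
      (map_mul ..).symm

lemma IsBr.witt {β : A →+ A →+ A} (h : M.IsBr ℱ s t β) : (M.act H).Witt β := by
  have key : ∀ {i j y z}, y ∈ M.F i → z ∈ M.F j →
      ⁅M.rep y ∘ s, M.rep z ∘ t⁆ ∈ Ev K ℱ (s + t) (i + j + 0) := fun hy hz => by
    filter_upwards [P.tend.eventually hy, Q.tend.eventually hz] with τ h1 h2
    exact H.nt.comm' h1 h2 (by simp only [ix, id, Pi.add_apply]; omega)
  refine ⟨fun i j y z hy hz => ((h y z).mem R).2 (key hy hz), fun i j => ?_⟩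
  have hy := (M.act H).e_mem i
  have hz := (M.act H).e_mem j
  refine (h _ _).lead_eq H R (key hy hz) ?_
  filter_upwards [P.tend.eventually hy, Q.tend.eventually hz, P.tend.eventually H.dvd,
    Q.tend.eventually H.dvd, P.tend.eventually (H.top (1 - i).toNat),
    Q.tend.eventually (H.top (1 - j).toNat), IsLim.self.lead H P ((IsLim.self.mem P).1 hy),
    IsLim.self.lead H Q ((IsLim.self.mem Q).1 hz)] with τ h1 h2 h3 h4 h5 h6 h7 h8
  rw [show ix ((s + t) τ) (i + j + 0) = ix (s τ) i + ix (t τ) j by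
    simp only [ix, Pi.add_apply]; omega]
  refine (H.nt.lead (by simp only [ix, id]; omega) (by simp only [ix, id]; omega) h1 h2).trans ?_
  rw [show lG (ix (id (s τ)) i) (M.rep _ _) = 1 from h7.trans ((M.act H).e_one i),
    show lG (ix (id (t τ)) j) (M.rep _ _) = 1 from h8.trans ((M.act H).e_one j), ← Int.cast_natCast (ix _ i),
    ← Int.cast_natCast (ix _ j), show (ix (id (s τ)) i : ℤ) = s τ + i by simp only [ix, id]; omega,
    show (ix (id (t τ)) j : ℤ) = t τ + j by simp only [ix, id]; omega]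
  simp [h3, h4]

omit H in
lemma IsBr.conj (hK : NS K) {β : A →+ A →+ A} (h : M.IsBr ℱ s t β) (g : G) (y z : A) :
    M.ρ g (β y z) = β (M.ρ g y) (M.ρ g z) := by
  refine ((h y z).conj R g).unique R ((h.lim hK P.tend Q.tend tendsto_id (IsLim.self.conj P g)
    (IsLim.self.conj Q g) (fun _ => rfl) (fun _ => rfl) fun _ => rfl).congr fun c =>
    Eventually.of_forall fun τ => ?_)
  simp only [commutatorElement_def, Pi.mul_apply, Pi.inv_apply]
  group

end Model

theorem exists_act (h5 : 5 ≤ p) {lG : ℕ → G → ZMod p} (h : NT K lG) :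
    ∃ (A : Type u) (_ : AddCommGroup A) (Φ : Act p A K lG) (μ : A →+ A →+ A), Φ.Witt μ ∧
      (∀ a b, μ a b = -μ b a) ∧ (∀ a b c, μ (μ a b) c + μ (μ b c) a + μ (μ c a) b = 0) ∧
      ∀ g a b, Φ.ρ g (μ a b) = μ (Φ.ρ g a) (Φ.ρ g b) := by
  obtain ⟨U, top, dvd, idem⟩ := exists_ultra hp.out.pos
  obtain ⟨A, _, ⟨M⟩⟩ := exists_model h.toNS top
  have H : Hyp K lG U := ⟨h, top, dvd⟩
  set V := (U : Filter ℕ).curry (U : Filter ℕ)
  set W := (U : Filter ℕ).curry V
  have nV : V.NeBot := curry_neBot _ _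
  have nW : W.NeBot := curry_neBot _ _
  have cV : Conv p V := (Conv.ultra U).curry (Conv.ultra U)
  have cW : Conv p W := (Conv.ultra U).curry cV
  have t1 : Tendsto Prod.fst V U := fun s hs =>
    eventually_curry_iff.2 (Eventually.mono hs fun _ h => Eventually.of_forall fun _ => h)
  have t2 : Tendsto Prod.snd V U := fun s hs =>
    eventually_curry_iff.2 (Eventually.of_forall fun _ => hs)
  have r23 : Tendsto Prod.snd W V := fun s hs =>
    eventually_curry_iff.2 (Eventually.of_forall fun _ => hs)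
  have r1 : ∀ {f : ℕ × ℕ → ℕ}, Tendsto f V U → Tendsto (Prod.map id f) W V := fun hf s hs =>
    eventually_curry_iff.2 ((eventually_curry_iff.1 hs).mono fun _ h => hf.eventually h)
  have r3 : Tendsto (fun τ : ℕ × ℕ × ℕ => (τ.1 + τ.2.1, τ.2.2)) W V := fun s hs =>
    eventually_curry_iff.2 ((eventually_curry_iff.1 (idem.eventually
      (eventually_curry_iff.1 hs))).mono fun _ h => eventually_curry_iff.2 h)
  have P1 : Pat p U V Prod.fst := ⟨nV, cV, t1⟩
  have P2 : Pat p U V Prod.snd := ⟨nV, cV, t2⟩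
  have P3 : Pat p U V (Prod.fst + Prod.snd) := ⟨nV, cV, idem⟩
  have Q1 : Pat p U W (fun τ => τ.2.1) := ⟨nW, cW, t1.comp r23⟩
  have Q2 : Pat p U W (fun τ => τ.1 + τ.2.2) := ⟨nW, cW, idem.comp (r1 t2)⟩
  have Q3 : Pat p U W (fun τ => τ.1 + τ.2.1 + τ.2.2) := ⟨nW, cW, idem.comp r3⟩
  have Q4 : Pat p U W ((fun τ => τ.2.1) + fun τ => τ.1 + τ.2.2) := by
    convert Q3 using 2; simp only [Pi.add_apply]; omega
  obtain ⟨μ, hμ⟩ := Model.exists_br (M := M) H P1 P2 P3
  obtain ⟨ν, hν⟩ := Model.exists_br (M := M) H Q1 Q2 Q4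
  have w := hμ.witt H P1 P2 P3
  have e := hμ.conj P1 P2 P3 h.toNS
  have an := (M.act H).anti_of_inv h5 h.surj w.1 e
  refine ⟨A, _, M.act H, μ, w, an,
    (M.act H).jac_of_alt h5 w (hν.witt H Q1 Q2 Q4).1 an fun a b c => ?_, e⟩
  have b1 := (hμ a b).comp (r1 t1) (u := fun τ => τ.1 + τ.2.1) fun _ => rfl
  have b2 := (hμ b c).comp r23 (u := fun τ => τ.2.1 + τ.2.2) fun _ => rfl
  have b3 := (hμ a c).comp (r1 t2) (u := fun τ => τ.1 + τ.2.2) fun _ => rfl
  have a1 := hμ.lim h.toNS t1 t2 r3 (w := fun τ => τ.1 + τ.2.1 + τ.2.2) b1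
    (Model.IsLim.self (y := c) (s := fun τ => τ.2.2)) (fun _ => rfl) (fun _ => rfl) fun _ => rfl
  have a2 := hμ.lim h.toNS t1 t2 (r1 idem) (w := fun τ => τ.1 + τ.2.1 + τ.2.2)
    (Model.IsLim.self (y := a) (s := fun τ => τ.1)) b2 (fun _ => rfl) (fun _ => rfl)
    fun τ => (add_assoc ..).symm
  have a3 := hν.lim h.toNS Q1.tend Q2.tend tendsto_id (w := fun τ => τ.1 + τ.2.1 + τ.2.2)
    (Model.IsLim.self (y := b) (s := fun τ => τ.2.1)) (b3.inv Q2) (fun _ => rfl) (fun _ => rfl)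
    fun τ => by omega
  have a4 := (a1.mul Q3 (a2.inv Q3)).mul Q3 (a3.inv Q3)
  rw [map_neg, neg_neg, ← sub_eq_add_neg] at a4
  refine a4.unique Q3 ((Model.IsLim.one Q3).congr fun d => ?_)
  obtain ⟨i, hi⟩ := M.bdd a
  obtain ⟨j, hj⟩ := M.bdd b
  obtain ⟨k, hk⟩ := M.bdd c
  have T := top (d - i - j - k + |i| + |j| + |k|).toNat
  filter_upwards [(t1.comp r3).eventually T, (t1.comp (r1 t1)).eventually (hi.and T),
    Q1.tend.eventually (hj.and T), (t2.comp r3).eventually (hk.and T)] with τ _ h1 h2 h3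
  have := neg_abs_le i
  have := neg_abs_le j
  have := neg_abs_le k
  have := abs_nonneg i
  have := abs_nonneg j
  have := abs_nonneg k
  refine Eq.trans ?_ ((h.jacobi h1.1 h2.1 h3.1 (n := ix (τ.1 + τ.2.1 + τ.2.2) d) ?_ ?_ ?_).trans
    (map_one _).symm)
  · simp only [← map_mul]
    congr 1
    simp [commutatorElement_def, mul_assoc]
  all_goals
    have := h1.2
    have := h2.2
    have := h3.2
    simp only [ix, id, Function.comp, Prod.map] at *
    omega

end Pool.Agent.Lib.MP_ffb54b_al
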