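import Mathlib

set_option autoImplicit false

namespace Pool.Agent.Lib.MP_ffb54b_al

variable {p : ℕ} [hp : Fact p.Prime]

lemma small_ne (h5 : 5 ≤ p) {a : ℕ} (h0 : 0 < a) (h4 : a ≤ 4) : (a : ZMod p) ≠ 0 := fun h =>
  absurd (Nat.le_of_dvd h0 ((ZMod.natCast_eq_zero_iff _ _).1 h)) (by omega)

lemma two_ne (h5 : 5 ≤ p) : (2 : ZMod p) ≠ 0 := by
  exact_mod_cast small_ne h5 (a := 2) (by omega) (by omega)

lemma three_ne (h5 : 5 ≤ p) : (3 : ZMod p) ≠ 0 := by
  exact_mod_cast small_ne h5 (a := 3) (by omega) (by omega)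

lemma exists_rep (a : ZMod p) (s : ℕ) : ∃ l : ℕ, s ≤ l ∧ l < s + p ∧ (l : ZMod p) = a :=
  ⟨s + (a - s).val, by omega, by have := ZMod.val_lt (a - (s : ZMod p)); omega, by simp⟩

lemma local_H1 (h5 : 5 ≤ p) {Q : Type*} [AddCommGroup Q] [Module (ZMod p) Q] (c : ℕ → Q)
    (M : ZMod p) {s : ℕ} (hs : s ≤ 3)
    (hR : ∀ k l : ℕ, s ≤ k → s ≤ l → k + l ≤ 3 * p + 6 → ((l : ZMod p) - k) • c (k + l) =
      (M - k - 2 * l) • c k - (M - l - 2 * k) • c l) {l : ℕ} (h1 : s ≤ l) (h2 : l ≤ p + 4) :
    c (l + p) = c l ∧ M • c l = (M - 2 * l) • c p := by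
  have key : ∀ k l : ℕ, s ≤ k → s ≤ l → k + l ≤ 2 * p + 6 →
      (M - k - 2 * l) • (c (k + p) - c k) = -(M - l - 2 * k) • (c (l + p) - c l) := by
    intro k l hk hl hkl
    have a1 := hR (k + p) l (by omega) hl (by omega)
    have a2 := hR k (l + p) hk (by omega) (by omega)
    rw [add_right_comm, add_assoc] at a1
    simp only [Nat.cast_add, CharP.cast_eq_zero, add_zero] at a1 a2
    linear_combination (norm := module) a2 - a1
  have A : ∀ k : ℕ, s ≤ k → k ≤ p + 4 → 3 * (k : ZMod p) - M ≠ 0 → c (k + p) - c k = 0 := by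
    intro k hk hk' h
    obtain ⟨l, h3, h4, h6⟩ := exists_rep (M - 2 * (k : ZMod p)) 3
    have := key k l hk (by omega) (by omega)
    rw [h6] at this
    refine (smul_eq_zero_iff_right h).1 ?_
    linear_combination (norm := module) this
  have B : c (l + p) - c l = 0 := by
    by_cases h : 3 * (l : ZMod p) - M = 0
    · obtain ⟨k, h3, h4, h6⟩ := exists_rep ((l : ZMod p) + 1) 3
      have h7 := key l k h1 (by omega) (by omega)
      rw [A k (by omega) (by omega) (by
        rw [h6]; intro h7; exact three_ne h5 (by linear_combination h7 - h)), h6,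
        ← sub_eq_zero.1 h] at h7
      refine (smul_eq_zero_iff_right (two_ne h5)).1 ?_
      linear_combination (norm := module) -h7
    · exact A l h1 h2 h
  refine ⟨sub_eq_zero.1 B, ?_⟩
  have a1 := hR l p h1 (by omega) (by omega)
  rw [sub_eq_zero.1 B, CharP.cast_eq_zero] at a1
  linear_combination (norm := module) -a1

lemma exists_int_rep (a : ZMod p) : ∃ k : ℤ, 1 ≤ k ∧ (k : ZMod p) = a := by
  obtain ⟨l, h1, -, h2⟩ := exists_rep a 1
  exact ⟨l, by omega, by simpa using h2⟩

lemma sym_inv_zero (h5 : 5 ≤ p) (c : ℤ → ℤ → ZMod p) (d : ZMod p) (hs : ∀ i j, c i j = c j i)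
    (hE : ∀ k i j : ℤ, 1 ≤ k → ((i : ZMod p) + j + d - k) * c i j =
      ((i : ZMod p) - k) * c (i + k) j + ((j : ZMod p) - k) * c i (j + k)) (i j : ℤ) :
    c i j = 0 := by
  have P1 : ∀ i n : ℤ, (n : ZMod p) - 2 * i ≠ 0 → c i (n + p) = c i n := by
    intro i n h
    obtain ⟨k, hk, hk'⟩ := exists_int_rep (i : ZMod p)
    have a1 := hE k i (n - k) hk
    have a2 := hE (k + p) i (n - k) (by omega)
    rw [show n - k + (k + p) = n + p by ring] at a2
    rw [sub_add_cancel] at a1
    push_cast at a1 a2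
    rw [hk'] at a1 a2
    rw [CharP.cast_eq_zero] at a2
    refine mul_left_cancel₀ h ?_
    linear_combination a1 - a2
  have P2 : ∀ i n : ℤ, c i (n + p) = c i n := by
    intro i n
    by_cases h : (n : ZMod p) - 2 * i = 0
    · have key : ∀ k : ℤ, 1 ≤ k → (k : ZMod p) ≠ 0 →
          ((i : ZMod p) + n + d - k) * (c i (n + p) - c i n) = 0 := by
        intro k hk hk'
        have a1 := hE k i n hk
        have a2 := hE k i (n + p) hk
        rw [P1 (i + k) n (fun h1 => by
          push_cast at h1
          exact mul_ne_zero (two_ne h5) hk' (by linear_combination h - h1)), add_right_comm n p k,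
          P1 i (n + k) (fun h1 => by
          push_cast at h1
          exact hk' (by linear_combination h1 - h))] at a2
        push_cast at a2
        rw [CharP.cast_eq_zero] at a2
        linear_combination a2 - a1
      have a1 := key 1 le_rfl (by simp)
      have a2 := key 2 (by norm_num) (by exact_mod_cast two_ne h5)
      push_cast at a1 a2
      linear_combination a1 - a2
    · exact P1 i n h
  have hp1 : (1 : ℤ) ≤ p := by omega
  have hd : ∀ i j, d * c i j = 0 := fun i j => by
    have a1 := hE p i j hp1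
    rw [P2, hs (i + p), P2, hs j] at a1
    push_cast at a1
    rw [CharP.cast_eq_zero] at a1
    linear_combination a1
  by_cases h : d = 0
  swap
  · exact (mul_eq_zero.1 (hd i j)).resolve_left h
  subst h
  have P3 : ∀ i n n' : ℤ, (n : ZMod p) = n' → c i n = c i n' := by
    intro i n n' h
    obtain ⟨t, ht⟩ := (ZMod.intCast_eq_intCast_iff_dvd_sub _ _ _).1 h
    obtain rfl : n' = n + t * p := by linarith
    have : Function.Periodic (c i) (p : ℤ) := P2 i
    exact ((this.int_mul t) n).symm
  have A : ∀ i : ℤ, (i : ZMod p) ≠ 0 → ∀ n : ℤ, (n : ZMod p) - 2 * i ≠ 0 → c i n = 0 := by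
    intro i hi n hn
    obtain ⟨k, hk, hk'⟩ := exists_int_rep (i : ZMod p)
    have a1 := hE k i i hk
    rw [hk'] at a1
    have a2 : c i i = 0 := mul_left_cancel₀ hi (by linear_combination a1)
    obtain ⟨k, hk, hk'⟩ := exists_int_rep ((n : ZMod p) - (i : ZMod p))
    have a3 := hE k i i hk
    rw [hs (i + k), P3 i (i + k) n (by push_cast; rw [hk']; ring), hk', a2] at a3
    exact mul_left_cancel₀ (mul_ne_zero (two_ne h5) hn) (by linear_combination a3)
  have B : ∀ i : ℤ, (i : ZMod p) ≠ 0 → ∀ n : ℤ, c i n = 0 := by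
    intro i hi n
    by_cases hn : (n : ZMod p) - 2 * i = 0
    · rw [hs]
      refine A n (fun h => mul_ne_zero (two_ne h5) hi (by linear_combination h - hn)) i fun h => ?_
      exact mul_ne_zero (three_ne h5) hi (by linear_combination -h - 2 * hn)
    · exact A i hi n hn
  by_cases hi : (i : ZMod p) = 0
  · by_cases hj : (j : ZMod p) = 0
    · have a1 := hE 1 i j le_rfl
      rw [B (i + 1) (by simp [hi]), hs i (j + 1), B (j + 1) (by simp [hj]), hi, hj] at a1
      push_cast at a1
      linear_combination -a1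
    · rw [hs, B j hj]
  · exact B i hi j

lemma alt_zero (h5 : 5 ≤ p) (c : ℤ → ℤ → ZMod p)
    (h : ∀ i j k : ℤ, ((k : ZMod p) - i) * c j (i + k) = -((k : ZMod p) - j) * c i (j + k))
    (j n : ℤ) : c j n = 0 := by
  have A : ∀ i n : ℤ, (n : ZMod p) - 2 * i ≠ 0 → c i n = 0 := by
    intro i n hn
    have a1 := h i i (n - i)
    rw [add_sub_cancel] at a1
    push_cast at a1
    exact mul_left_cancel₀ (mul_ne_zero (two_ne h5) hn) (by linear_combination a1)
  by_cases hn : (n : ZMod p) - 2 * j = 0
  · have a1 := h (j - 1) j (n - (j - 1))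
    rw [add_sub_cancel, A (j - 1) _ (fun h1 => by
      push_cast at h1
      exact three_ne h5 (by linear_combination h1 - hn))] at a1
    push_cast at a1
    exact mul_left_cancel₀ (two_ne h5) (by linear_combination a1 - hn * c j n)
  · exact A j n hn

/-- The cocycle condition of weight `d` for the Witt algebra with basis `t ^ n ∂`. -/
def Coc (c : ℕ → ℕ → ZMod p) (d : ZMod p) : Prop :=
  (∀ n m, c n m = -c m n) ∧ ∀ n m l : ℕ,
    ((m : ZMod p) - n) * c (n + m - 1) l + ((l : ZMod p) - (n + m - 1 + d)) * c n m +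
    ((l : ZMod p) - m) * c (m + l - 1) n + ((n : ZMod p) - (m + l - 1 + d)) * c m l +
    ((n : ZMod p) - l) * c (l + n - 1) m + ((m : ZMod p) - (l + n - 1 + d)) * c l n = 0

/-- The coboundary of `b`. -/
def cob (b : ℕ → ZMod p) (d : ZMod p) (n m : ℕ) : ZMod p :=
  b n * ((m : ZMod p) - n - d) + b m * ((m : ZMod p) + d - n) - ((m : ZMod p) - n) * b (n + m - 1)

lemma Coc.add_cob {c : ℕ → ℕ → ZMod p} {d : ZMod p} (h : Coc c d) (b : ℕ → ZMod p) :
    Coc (fun n m => c n m + cob b d n m) d := by
  refine ⟨fun n m => ?_, fun n m l => ?_⟩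
  · simp only [cob, h.1 n m, add_comm n m]; ring
  · have key : ∀ n m l : ℕ, ((m : ZMod p) - n) * cob b d (n + m - 1) l = ((m : ZMod p) - n) *
        (b (n + m - 1) * (l - (n + m - 1) - d) + b l * (l + d - (n + m - 1)) -
          (l - (n + m - 1)) * b (n + m + l - 2)) := by
      intro n m l
      rcases Nat.eq_zero_or_pos (n + m) with h0 | h0
      · obtain ⟨rfl, rfl⟩ := Nat.add_eq_zero_iff.1 h0
        simp
      · rw [cob, show n + m - 1 + l - 1 = n + m + l - 2 by omega, Nat.cast_pred h0]
        push_cast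
        ring
    have a1 := key n m l
    have a2 := key m l n
    have a3 := key l n m
    rw [show m + l + n = n + m + l by ring] at a2
    rw [show l + n + m = n + m + l by ring] at a3
    have a4 := h.2 n m l
    simp only [cob] at a1 a2 a3 ⊢
    linear_combination a1 + a2 + a3 + a4

lemma Coc.diag (h5 : 5 ≤ p) {c : ℕ → ℕ → ZMod p} {d : ZMod p} (h : Coc c d) (n : ℕ) :
    c n n = 0 := mul_left_cancel₀ (two_ne h5) (by linear_combination h.1 n n)

lemma Coc.zero_of_rows (h5 : 5 ≤ p) {c : ℕ → ℕ → ZMod p} (h : Coc c 0) (h1 : ∀ m, c 1 m = 0)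
    (h2 : ∀ m : ℕ, ((m : ZMod p) ≠ 2 → c 2 m = 0) ∧ ((m : ZMod p) = 2 → c 0 (m + 1) = 0))
    (n m : ℕ) : c n m = 0 := by
  have t2 := two_ne h5
  have t3 := three_ne h5
  have hs : ∀ m : ℕ, ((m : ZMod p) - 2) * c 0 (m + 1) + (m + 1) * c 2 m = 0 := by
    intro m
    induction m with
    | zero => simp [h.1 0 1, h1, (h2 0).1 (by simpa using t2.symm)]
    | succ m ih =>
      have a1 := h.2 0 2 (m + 1)
      rw [show 2 + (m + 1) - 1 = m + 1 + 1 by omega, show m + 1 + 0 - 1 = m by omega,
        h.1 (m + 1 + 1), h.1 m, h.1 (m + 1), h.1 0 2, (h2 0).1 (by simpa using t2.symm)] at a1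
      simp only [h1] at a1
      push_cast at a1 ⊢
      linear_combination ih - a1
  have r2 : ∀ m, c 2 m = 0 := fun m => by
    by_cases hm : (m : ZMod p) = 2
    · have := hs m
      rw [hm] at this
      exact mul_left_cancel₀ t3 (by linear_combination this)
    · exact (h2 m).1 hm
  have r0 : ∀ m, c 0 m = 0 := fun m => by
    rcases m with _ | m
    · exact h.diag h5 0
    by_cases hm : (m : ZMod p) = 2
    · exact (h2 m).2 hm
    · exact mul_left_cancel₀ (sub_ne_zero.2 hm) (by linear_combination hs m - (m + 1) * r2 m)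
  have up : ∀ n m : ℕ, ((n : ZMod p) - 2) * c (n + 1) m =
      (n + m - 3) * c n m - (m - 2) * c n (m + 1) := fun n m => by
    have a1 := h.2 2 n m
    rw [show 2 + n - 1 = n + 1 by omega, show m + 2 - 1 = m + 1 by omega, h.1 (n + m - 1),
      h.1 m 2, h.1 (m + 1)] at a1
    simp only [r2] at a1
    push_cast at a1
    linear_combination a1
  have R : ∀ m : ℕ, ((m : ZMod p) + 3) * c 3 (m + 1) = (m + 1) * c 3 m := fun m => by
    have a1 := h.2 0 3 (m + 1)
    rw [show m + 1 + 0 - 1 = m by omega, h.1 (3 + (m + 1) - 1), h.1 m, h.1 (m + 1) 0] at a1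
    simp only [r0, r2] at a1
    push_cast at a1
    linear_combination -a1
  have r3 : ∀ m, c 3 m = 0 := by
    have e3 := h.diag h5 3
    have e4 : c 3 4 = 0 := mul_left_cancel₀ (mul_ne_zero t2 t3) (by
      have := R 3
      push_cast at this
      linear_combination this + 4 * e3)
    intro m
    induction m using Nat.strong_induction_on with
    | _ m ih =>
    obtain hm | ⟨k, rfl⟩ : m < 3 ∨ ∃ k, m = k + 3 := by
      rcases lt_or_ge m 3 with h | h
      · exact Or.inl h
      · exact Or.inr ⟨m - 3, by omega⟩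
    · rw [h.1]; interval_cases m <;> simp [r0, h1, r2]
    have i0 := ih k (by omega)
    have i1 := ih (k + 1) (by omega)
    have i2 := ih (k + 2) (by omega)
    by_cases hk : (k : ZMod p) + 5 = 0
    · have a1 := h.2 3 4 k
      rw [show 4 + k - 1 = k + 3 by omega, show k + 3 - 1 = k + 2 by omega, h.1 (k + 3),
        h.1 (k + 2), h.1 k] at a1
      have b0 := up 3 k
      have b1 := up 3 (k + 1)
      have b2 := up 3 (k + 2)
      have c0 := up 4 k
      have c1 := up 4 (k + 1)
      have d0 := up 5 k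
      have hk' : (k : ZMod p) = -5 := by linear_combination hk
      push_cast at a1 b0 b1 b2 c0 c1 d0
      rw [hk'] at a1 b0 b1 b2 c0 c1 d0
      simp only [i0, i1, i2, e4, add_assoc, Nat.reduceAdd] at a1 b0 b1 b2 c0 c1 d0
      refine mul_left_cancel₀ (mul_ne_zero (mul_ne_zero t2 t3) (mul_ne_zero t2 t2)) ?_
      linear_combination 6 * a1 - 2 * d0 + 3 * c0 - 7 * c1 - 42 * b0 + 42 * b1 + 6 * b2
    · have := R (k + 2)
      push_cast at this
      exact mul_left_cancel₀ hk (by linear_combination this + (k + 3) * i2)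
  induction n using Nat.strong_induction_on generalizing m with
  | _ n ih =>
  obtain hn | ⟨k, rfl⟩ : n < 4 ∨ ∃ k, n = k + 4 := by
    rcases lt_or_ge n 4 with h | h
    · exact Or.inl h
    · exact Or.inr ⟨n - 4, by omega⟩
  · interval_cases n <;> simp [r0, h1, r2, r3]
  by_cases hk : (k : ZMod p) + 1 = 0
  · have a1 := h.2 3 (k + 2) m
    rw [show 3 + (k + 2) - 1 = k + 4 by omega, h.1 (k + 2 + m - 1), h.1 (m + 3 - 1), h.1 m 3] at a1
    simp only [r3, ih (k + 2) (by omega)] at a1
    push_cast at a1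
    exact mul_left_cancel₀ t2 (by linear_combination hk * c (k + 4) m - a1)
  · have a1 := up (k + 3) m
    simp only [ih (k + 3) (by omega)] at a1
    push_cast at a1
    exact mul_left_cancel₀ hk (by linear_combination a1)

lemma Coc.exists_cob (h5 : 5 ≤ p) {c : ℕ → ℕ → ZMod p} {d : ZMod p} (h : Coc c d) :
    ∃ b : ℕ → ZMod p, ∀ n m, c n m + cob b d n m = 0 := by
  by_cases hd : d = 0
  swap
  · refine ⟨fun m => -c 1 m / d, fun n m => ?_⟩
    have h' := h.add_cob fun m => -c 1 m / d
    have h1 : ∀ m, c 1 m + cob (fun m => -c 1 m / d) d 1 m = 0 := fun m => by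
      simp only [cob, h.diag h5 1, Nat.add_sub_cancel_left]
      field_simp
      push_cast
      ring
    have a1 := h'.2 1 n m
    have a2 := h'.1 (n + m - 1) 1
    have a3 := h'.1 m 1
    have a4 := h'.1 m n
    simp only [Nat.add_sub_cancel_left, Nat.add_sub_cancel, h1] at a1 a2 a3 a4
    rw [a2, a3, a4] at a1
    push_cast at a1
    exact mul_left_cancel₀ hd (by linear_combination -a1)
  subst hd
  let b : ℕ → ZMod p := fun n => Nat.rec 0 (fun m bm => if m = 0 then -c 1 2 else
    if (m : ZMod p) = 2 then bm - c 0 (m + 1) / 3 else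
      bm + (-c 1 2 - c 0 2 / 2) + c 2 m / (m - 2)) n
  have b0 : b 0 = 0 := rfl
  have b1 : b 1 = -c 1 2 := rfl
  have bs : ∀ m, m ≠ 0 → b (m + 1) = if (m : ZMod p) = 2 then b m - c 0 (m + 1) / 3 else
      b m + (-c 1 2 - c 0 2 / 2) + c 2 m / (m - 2) := fun m hm => if_neg hm
  have t2 := two_ne h5
  have b2 : b 2 = -c 1 2 - c 0 2 / 2 := by
    rw [show b 2 = _ from bs 1 one_ne_zero, if_neg (fun h => by
      push_cast at h
      exact one_ne_zero (α := ZMod p) (by linear_combination -h)), b1, h.1 2 1]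
    push_cast
    norm_num
  refine ⟨b, (h.add_cob b).zero_of_rows h5 (fun m => ?_) fun m => ⟨fun hm => ?_, fun hm => ?_⟩⟩
  · have add : ∀ n m : ℕ, (m : ZMod p) - n ≠ 0 → c 1 (n + m - 1) = c 1 n + c 1 m := by
      intro n m hnm
      have a1 := h.2 1 n m
      rw [Nat.add_sub_cancel_left, Nat.add_sub_cancel, h.1 (n + m - 1) 1, h.1 m 1, h.1 m n] at a1
      push_cast at a1
      exact mul_left_cancel₀ hnm (by linear_combination -a1)
    have e1 := h.diag h5 1
    have e0 : c 1 0 = -c 1 2 := by
      have := add 0 2 (by simpa using t2)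
      simp only [zero_add, Nat.add_one_sub_one] at this
      linear_combination e1 - this
    have e3 : c 1 3 = 2 * c 1 2 := by
      have := add 0 3 (by simpa using three_ne h5)
      simp only [zero_add, Nat.add_one_sub_one] at this
      linear_combination -this - e0
    have lin : ∀ m : ℕ, c 1 m = (m - 1) * c 1 2 := by
      intro m
      induction m using Nat.strong_induction_on with
      | _ m ih =>
      rcases m with _ | _ | m
      · simp [e0]
      · simp [e1]
      by_cases hm : (m : ZMod p) - 1 = 0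
      · have := add m 3 (fun h => by
          push_cast at h
          exact t2 (by linear_combination h + hm))
        rw [show m + 3 - 1 = m + 1 + 1 by omega, ih m (by omega), e3] at this
        rw [this]; push_cast; ring
      · have := add 2 (m + 1) (fun h => by
          push_cast at h
          exact hm (by linear_combination h))
        rw [show 2 + (m + 1) - 1 = m + 1 + 1 by omega, ih (m + 1) (by omega)] at this
        rw [this]; push_cast; ring
    simp only [cob, Nat.add_sub_cancel_left, b1, lin m]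
    push_cast
    ring
  · rcases eq_or_ne m 0 with rfl | h0
    · simp only [cob, b0, b1, b2, h.1 2 0]
      norm_num
      field_simp
      ring
    · have := sub_ne_zero.2 hm
      simp only [cob, show 2 + m - 1 = m + 1 by omega, bs m h0, if_neg hm, b2]
      push_cast
      field_simp
      ring
  · have h0 : m ≠ 0 := by
      rintro rfl
      exact t2 (by simpa using hm.symm)
    have := three_ne h5
    simp only [cob, zero_add, Nat.add_sub_cancel, bs m h0, if_pos hm, b0]
    push_cast
    rw [hm]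
    field_simp
    ring

end Pool.Agent.Lib.MP_ffb54b_al
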