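import Pool.Agent.Lib.MP_ffb54b_al.Series
import Pool.Agent.Lib.MP_ffb54b_al.Local

set_option autoImplicit false
set_option linter.unusedSectionVars false

namespace Pool.Agent.Lib.MP_ffb54b_al

open Subgroup PowerSeries
open scoped commutatorElement

variable {G : Type*} [Group G] {p : ℕ}

/-- A filtration of Nottingham type. -/
structure NT (K : ℕ → Subgroup G) (ℓ : ℕ → G → ZMod p) : Prop extends NS K where
  top : K 1 = ⊤
  cls : ∀ i, 1 ≤ i → IsCls K i (ℓ i)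
  surj : ∀ i, 1 ≤ i → ∃ g ∈ K i, ℓ i g = 1
  lead : ∀ {i j : ℕ} {a b : G}, 1 ≤ i → 1 ≤ j → a ∈ K i → b ∈ K j →
    ℓ (i + j) ⁅a, b⁆ = ((j : ZMod p) - i) * ℓ i a * ℓ j b

/-- The standard generators built from `x` and `y`. -/
noncomputable def gs (p : ℕ) (x y : G) : ℕ → G
  | 0 => 1
  | 1 => x
  | 2 => y
  | i + 3 => if (i + 1 : ZMod p) = 0 then ⁅y, gs p x y (i + 1)⁆ ^ ((i - 1 : ZMod p)⁻¹).val
      else ⁅x, gs p x y (i + 2)⁆ ^ ((i + 1 : ZMod p)⁻¹).val

lemma map_gs {H : Type*} [Group H] (f : G →* H) (x y : G) :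
    ∀ i, f (gs p x y i) = gs p (f x) (f y) i
  | 0 => map_one f
  | 1 => rfl
  | 2 => rfl
  | i + 3 => by
    simp only [gs]
    split_ifs <;> simp only [map_pow, map_commutatorElement, map_gs f x y (i + 1),
      map_gs f x y (i + 2)]

lemma gs_mem {K : ℕ → Subgroup G} (hK : NS K) {x y : G} (hx : x ∈ K 1) (hy : y ∈ K 2) :
    ∀ i, gs p x y i ∈ K i
  | 0 => one_mem _
  | 1 => hx
  | 2 => hy
  | i + 3 => by
    simp only [gs]
    split_ifs
    · exact pow_mem (hK.comm' hy (gs_mem hK hx hy (i + 1)) (by omega)) _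
    · exact pow_mem (hK.comm' hx (gs_mem hK hx hy (i + 2)) (by omega)) _

variable {K : ℕ → Subgroup G} [∀ i, (K i).Normal]

/-- The commutator relations in degree `M`. -/
def Rel (K : ℕ → Subgroup G) [∀ i, (K i).Normal] (g : ℕ → G) (M : ℕ) : Prop :=
  ∀ i j, 1 ≤ i → 1 ≤ j → i + j = M → pr K (M + 1) ⁅g i, g j⁆ = pr K (M + 1) (g M ^ ((j : ℤ) - i))

/-- The factor in degree `M` is generated by `g M`. -/
def Gen (K : ℕ → Subgroup G) [∀ i, (K i).Normal] (g : ℕ → G) (M : ℕ) : Prop :=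
  ∀ a ∈ K M, ∃ n : ℤ, pr K (M + 1) a = pr K (M + 1) (g M ^ n)

variable [hp : Fact p.Prime] {ℓ : ℕ → G → ZMod p}

omit [∀ i, (K i).Normal] in
lemma NT.gs_one (h5 : 5 ≤ p) (h : NT K ℓ) {x y : G} (hx : ℓ 1 x = 1) (hy : y ∈ K 2)
    (hy' : ℓ 2 y = 1) : ∀ i, ℓ (i + 1) (gs p x y (i + 1)) = 1
  | 0 => hx
  | 1 => hy'
  | i + 2 => by
    have hx' : x ∈ K 1 := h.top ▸ mem_top x
    have m := gs_mem (p := p) h.toNS hx' hy
    have c := h.cls (i + 3) (by omega)
    simp only [gs]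
    split_ifs with h0
    · have := h.lead (by omega) (by omega) hy (m (i + 1))
      rw [hy', h.gs_one h5 hx hy hy' i, show 2 + (i + 1) = i + 3 by omega] at this
      rw [← zpow_natCast, c.zpow (h.comm' hy (m (i + 1)) (by omega)), this]
      have h1 : (i - 1 : ZMod p) ≠ 0 := fun h1 => two_ne h5 (by linear_combination h0 - h1)
      rw [zsmul_eq_mul, Int.cast_natCast, ZMod.natCast_zmod_val]
      push_cast
      field_simp
      ring
    · have := h.lead (by omega) (by omega) hx' (m (i + 2))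
      rw [hx, h.gs_one h5 hx hy hy' (i + 1), show 1 + (i + 2) = i + 3 by omega] at this
      rw [← zpow_natCast, c.zpow (h.comm' hx' (m (i + 2)) (by omega)), this]
      rw [zsmul_eq_mul, Int.cast_natCast, ZMod.natCast_zmod_val]
      push_cast
      field_simp
      ring

lemma NT.pr_zpow (h : NT K ℓ) {i : ℕ} (hi : 1 ≤ i) {a s : G} (ha : a ∈ K i) (hs : s ∈ K i)
    (h0 : ℓ i s ≠ 0) : ∃ n : ℤ, pr K (i + 1) a = pr K (i + 1) (s ^ n) :=
  ⟨(ℓ i a / ℓ i s).val, ((h.cls i hi).eq_iff ha (zpow_mem hs _)).1 (by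
    rw [(h.cls i hi).zpow hs]; simp [h0])⟩

lemma NT.approx (h : NT K ℓ) {M : ℕ} (hM : 1 ≤ M) {S : Subgroup G}
    (hS : ∀ r, M ≤ r → ∃ s ∈ S, s ∈ K r ∧ ℓ r s ≠ 0) {a : G} (ha : a ∈ K M) (r : ℕ) :
    ∃ s ∈ S, pr K (M + r) a = pr K (M + r) s := by
  induction r with
  | zero => exact ⟨1, one_mem _, by rw [map_one]; exact pr_one.2 ha⟩
  | succ r ih =>
    obtain ⟨s, hs, e⟩ := ih
    obtain ⟨t, ht, ht1, ht2⟩ := hS (M + r) (by omega)
    obtain ⟨n, hn⟩ := h.pr_zpow (by omega) (pr_eq.1 e) ht1 ht2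
    refine ⟨t ^ n * s, mul_mem (zpow_mem ht n) hs, ?_⟩
    rw [← add_assoc, map_mul, ← hn, ← map_mul, inv_mul_cancel_right]

omit [∀ i, (K i).Normal] in
lemma IsCls.relIndex {M : ℕ} {Q : Type*} [AddCommGroup Q] {cls : G → Q} (h : IsCls K M cls) :
    (K (M + 1)).relIndex (K M) = Nat.card (cls '' K M) := by
  let f : K M →* Multiplicative Q := MonoidHom.mk' (fun a => Multiplicative.ofAdd (cls a))
    fun a b => congrArg Multiplicative.ofAdd (h.mul a.2 b.2)
  have : (K (M + 1)).subgroupOf (K M) = f.ker := Subgroup.ext fun a => (h.zero a.2).symm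
  rw [Subgroup.relIndex, this, index_ker]
  refine Nat.card_congr (Equiv.subtypeEquiv Multiplicative.toAdd fun q => ?_)
  exact ⟨fun ⟨a, e⟩ => ⟨a, a.2, e⟩, fun ⟨a, ha, e⟩ => ⟨⟨a, ha⟩, e⟩⟩

omit [∀ i, (K i).Normal] in
lemma NT.index (h : NT K ℓ) (M : ℕ) : (K (M + 1)).index = p ^ M := by
  induction M with
  | zero => simp [h.top]
  | succ M ih =>
    rw [← relIndex_mul_index (h.anti (Nat.le_succ (M + 1))), ih, (h.cls _ (by omega)).relIndex,
      pow_succ']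
    obtain ⟨g, hg, hg'⟩ := h.surj (M + 1) (by omega)
    rw [Set.eq_univ_of_forall (s := _ '' _) fun q => ⟨g ^ (q.val : ℤ), zpow_mem hg _, by
      rw [(h.cls _ (by omega)).zpow hg, hg']; simp⟩, Nat.card_univ, Nat.card_zmod]

namespace Nott

/-- The congruence subgroups of the Nottingham group. -/
def Jn (p i : ℕ) : Subgroup (Nott p) where
  carrier := {f | X ^ (i + 1) ∣ f.ser - X}
  one_mem' := by simp [one_ser]
  mul_mem' hf hg := by simpa [one_ser] using dvd_mul_sub (f' := 1) (g' := 1) hf hg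
  inv_mem' hf := by simpa [one_ser] using dvd_inv_sub (g := 1) hf

lemma mem_Jn {i : ℕ} {f : Nott p} : f ∈ Jn p i ↔ X ^ (i + 1) ∣ f.ser - X := Iff.rfl

instance (i : ℕ) : (Jn p i).Normal := ⟨fun f hf g => by
  simpa [one_ser, mem_Jn] using dvd_mul_sub (dvd_mul_sub (f := g) (f' := g) (g' := 1) (by simp) hf)
    (g := g⁻¹) (g' := g⁻¹) (by simp)⟩

lemma mul_inv_mem {i : ℕ} {f g : Nott p} : f * g⁻¹ ∈ Jn p i ↔ X ^ (i + 1) ∣ f.ser - g.ser :=
  ⟨fun h => by simpa using dvd_mul_sub (f' := 1) (g := g) (g' := g) h (by simp),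
    fun h => by simpa [one_ser, mem_Jn] using dvd_mul_sub (g := g⁻¹) (g' := g⁻¹) h (by simp)⟩

lemma taylor (g : Nott p) {j : ℕ} {H : (ZMod p)⟦X⟧} (hg : g.ser - X = X ^ (j + 2) * H) (i : ℕ)
    (F : (ZMod p)⟦X⟧) : X ^ (i + j + 2) ∣
      (X ^ i * F).subst g.ser - X ^ i * F - (i : (ZMod p)⟦X⟧) * X ^ (i + j + 1) * (H * F) := by
  obtain ⟨w, hw⟩ := dvd_subst_sub F g 1 (Dvd.intro _ hg.symm)
  rw [one_ser, X_subst, sub_eq_iff_eq_add] at hw
  have h1 : ∀ (y : (ZMod p)⟦X⟧) (n : ℕ), ∃ z, (1 + y) ^ n = 1 + n * y + y ^ 2 * z := fun y n => by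
    induction n with
    | zero => exact ⟨0, by simp⟩
    | succ n ih =>
      obtain ⟨z, hz⟩ := ih
      exact ⟨z + n + y * z, by rw [pow_succ, hz]; push_cast; ring⟩
  obtain ⟨z, hz⟩ := h1 (X ^ (j + 1) * H) i
  rw [subst_mul g.hasSubst, subst_pow g.hasSubst, subst_X g.hasSubst, hw,
    show g.ser = X * (1 + X ^ (j + 1) * H) by linear_combination hg, mul_pow, hz]
  exact ⟨w + (i : (ZMod p)⟦X⟧) * X ^ (j + 1) * H * w + X ^ j * H ^ 2 * z * (X ^ (j + 2) * w + F), by ring⟩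

lemma mul_sub (f g : Nott p) : (f * g).ser - g.ser = (f.ser - X).subst g.ser := by
  rw [mul_ser, subst_sub g.hasSubst, subst_X g.hasSubst]

lemma coeff_mul_sub {i : ℕ} {f : Nott p} (hf : f ∈ Jn p i) (g : Nott p) :
    coeff (i + 1) ((f * g).ser - g.ser) = coeff (i + 1) (f.ser - X) := by
  obtain ⟨F, hF⟩ := hf
  obtain ⟨H, hH⟩ := g.sq_dvd
  have := X_pow_dvd_iff.1 (g.taylor (j := 0) hH (i + 1) F) (i + 1) (by omega)
  rw [mul_sub, hF]
  rw [map_sub, map_sub, mul_assoc, ← nsmul_eq_mul, map_nsmul, coeff_X_pow_mul' (H * F)] at this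
  simpa [sub_eq_zero] using this

lemma comm_dvd {i j : ℕ} {f g : Nott p} {F H : (ZMod p)⟦X⟧} (hf : f.ser - X = X ^ (i + 2) * F)
    (hg : g.ser - X = X ^ (j + 2) * H) : X ^ (i + j + 4) ∣
      (f * g).ser - (g * f).ser - ((i : (ZMod p)⟦X⟧) - (j : (ZMod p)⟦X⟧)) * X ^ (i + j + 3) * (H * F) := by
  have h1 := g.taylor hg (i + 2) F
  have h2 := f.taylor hf (j + 2) H
  rw [← hf, ← mul_sub, show i + 2 + j + 2 = i + j + 4 by ring] at h1
  rw [← hg, ← mul_sub, show j + 2 + i + 2 = i + j + 4 by ring] at h2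
  convert dvd_sub h1 h2 using 1
  push_cast
  ring

theorem nt : NT (Jn p) fun i f => -coeff (i + 1) (f.ser - X) := by
  have top : ∀ f : Nott p, f ∈ Jn p 1 := fun f => f.sq_dvd
  have an : Antitone (Jn p) := fun i j h f hf => (pow_dvd_pow _ (by omega)).trans hf
  have e : ∀ f g : Nott p, ⁅f, g⁆ = f * g * (g * f)⁻¹ := fun f g => by
    rw [commutatorElement_def]; group
  have cm : ∀ {i j : ℕ} {f g : Nott p}, f ∈ Jn p i → g ∈ Jn p j → ⁅f, g⁆ ∈ Jn p (i + j) := by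
    intro i j f g hf hg
    rcases i with _ | i
    · rw [zero_add]
      exact commutator_le_right ⊤ _ (commutator_mem_commutator (mem_top f) hg)
    rcases j with _ | j
    · exact commutator_le_left _ ⊤ (commutator_mem_commutator hf (mem_top g))
    obtain ⟨F, hF⟩ := hf
    obtain ⟨H, hH⟩ := hg
    rw [e, mul_inv_mem, show i + 1 + (j + 1) + 1 = i + j + 3 by ring]
    simpa using dvd_add ((pow_dvd_pow _ (Nat.le_succ _)).trans (comm_dvd hF hH))
      (((dvd_refl (X ^ (i + j + 3))).mul_left ((i : (ZMod p)⟦X⟧) - j)).mul_right (H * F))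
  refine ⟨⟨an, cm⟩, eq_top_iff.2 fun f _ => top f, fun i hi => ⟨fun {f g} hf hg => ?_,
    fun {f} hf => ?_⟩, fun i hi => ?_, fun {i j f g} hi hj hf hg => ?_⟩
  · rw [← coeff_mul_sub hf g, ← neg_add, ← map_add, sub_add_sub_cancel]
  · rw [neg_eq_zero, mem_Jn, X_pow_dvd_iff]
    refine ⟨fun h m hm => ?_, fun h => h _ (by omega)⟩
    rcases Nat.lt_succ_iff_lt_or_eq.1 hm with h1 | rfl
    exacts [X_pow_dvd_iff.1 hf m h1, h]
  · refine ⟨⟨X - X ^ (i + 1), by simp, by simp [coeff_X_pow, show i ≠ 0 by omega]⟩, ?_, ?_⟩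
    · simp [mem_Jn]
    · simp [coeff_X_pow]
  · obtain ⟨i, rfl⟩ := Nat.exists_eq_add_of_le' hi
    obtain ⟨j, rfl⟩ := Nat.exists_eq_add_of_le' hj
    rw [← coeff_mul_sub (cm hf hg) (g * f), e, inv_mul_cancel_right]
    obtain ⟨F, hF⟩ := hf
    obtain ⟨H, hH⟩ := hg
    have := X_pow_dvd_iff.1 (comm_dvd hF hH) (i + j + 3) (by omega)
    rw [map_sub, sub_eq_zero] at this
    rw [show i + 1 + (j + 1) + 1 = i + j + 3 by ring, this, hF, hH, mul_assoc, ← map_natCast C,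
      ← map_natCast C, ← map_sub, coeff_C_mul]
    simp [coeff_X_pow_mul']
    ring

lemma mem_one (f : Nott p) : f ∈ Jn p 1 := f.sq_dvd

lemma isOpen_Jn (i : ℕ) : IsOpen (Jn p i : Set (Nott p)) :=
  Subgroup.isOpen_of_mem_nhds _ ((nhds_basis (1 : Nott p)).mem_of_mem (i := i + 1) trivial)

lemma mem_closure {S : Subgroup (Nott p)} {f : Nott p} {M : ℕ}
    (h : ∀ r, ∃ s ∈ S, pr (Jn p) (M + r) f = pr (Jn p) (M + r) s) : f ∈ S.topologicalClosure :=
  (mem_closure_iff_nhds_basis (nhds_basis f)).2 fun n _ => by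
    obtain ⟨s, hs, e⟩ := h n
    exact ⟨s, hs, (pow_dvd_pow _ (by omega)).trans (mul_inv_mem.1 (pr_eq.1 e.symm))⟩

instance : T2Space (Nott p) :=
  (Topology.IsEmbedding.mk ⟨rfl⟩ fun _ _ h => Nott.ext (PowerSeries.ext (congrFun h)) :
    Topology.IsEmbedding fun (f : Nott p) n => coeff n f.ser).t2Space

lemma closure_eq (h5 : 5 ≤ p) {M : ℕ} {S : Subgroup (Nott p)} (h1 : S ≤ Jn p (M + 3))
    (h2 : ⁅Jn p (M + 2), ⊤⁆ ≤ S) (h3 : ⁅Jn p (M + 1), Jn p 2⁆ ≤ S) :
    S.topologicalClosure = Jn p (M + 3) := by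
  refine le_antisymm (topologicalClosure_minimal _ h1
    (Subgroup.isClosed_of_isOpen _ (isOpen_Jn _))) fun f hf => mem_closure
    (nt.approx (by omega) (fun r hr => ?_) hf)
  obtain ⟨r, rfl⟩ := Nat.exists_eq_add_of_le' (show 3 ≤ r by omega)
  obtain ⟨x, hx, hx'⟩ := (nt (p := p)).surj 1 le_rfl
  obtain ⟨y, hy, hy'⟩ := (nt (p := p)).surj 2 (by omega)
  obtain ⟨a, ha, ha'⟩ := (nt (p := p)).surj (r + 1) (by omega)
  obtain ⟨b, hb, hb'⟩ := (nt (p := p)).surj (r + 2) (by omega)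
  by_cases h0 : (r + 1 : ZMod p) = 0
  · refine ⟨_, h3 (commutator_mem_commutator (nt.anti (by omega) ha) hy),
      nt.comm' ha hy le_rfl, ?_⟩
    have := nt.lead (by omega) (by omega) ha hy
    rw [this, ha', hy']
    push_cast
    exact fun h => two_ne h5 (by linear_combination h + h0)
  · refine ⟨_, h2 (commutator_mem_commutator (nt.anti (by omega) hb) (mem_top x)),
      nt.comm' hb hx le_rfl, ?_⟩
    have := nt.lead (by omega) (by omega) hb hx
    rw [this, hb', hx']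
    push_cast
    exact fun h => h0 (by linear_combination -h)

lemma WS_eq (h5 : 5 ≤ p) : ∀ i, WS (Jn p 2) (i + 1) = Jn p (i + 1)
  | 0 => nt.top.symm
  | 1 => rfl
  | i + 2 => by
    rw [WS, WS_eq h5 i, WS_eq h5 (i + 1)]
    exact closure_eq h5 (sup_le
      (commutator_le.2 fun _ ha b _ => nt.comm' ha (mem_one b) le_rfl)
      (commutator_le.2 fun _ ha _ hb => nt.comm' ha hb le_rfl)) le_sup_left le_sup_right

lemma comm_eq_one (h5 : 5 ≤ p) {M : ℕ} (hM : (M : ZMod p) = 0) :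
    (⁅Jn p (M + 1), ⊤⁆ : Subgroup _).topologicalClosure = Jn p (M + 3) :=
  closure_eq h5 (commutator_le.2 fun a ha b _ => by
      have h := nt.lead (by omega) le_rfl ha (mem_one b)
      rw [Nat.cast_add, hM, zero_add, sub_self, zero_mul, zero_mul] at h
      exact ((nt.cls (M + 2) (by omega)).zero (nt.comm' ha (mem_one b) le_rfl)).1 h)
    (commutator_mono (nt.anti (by omega)) le_rfl) (commutator_mono le_rfl le_top)

lemma comm_ne_one (h5 : 5 ≤ p) {M : ℕ} (hM : (M : ZMod p) ≠ 0) :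
    (⁅Jn p (M + 1), ⊤⁆ : Subgroup _).topologicalClosure = Jn p (M + 2) := by
  refine le_antisymm (topologicalClosure_minimal _
    (commutator_le.2 fun _ ha b _ => nt.comm' ha (mem_one b) le_rfl)
    (Subgroup.isClosed_of_isOpen _ (isOpen_Jn _))) fun f hf => ?_
  obtain ⟨x, hx, hx'⟩ := (nt (p := p)).surj 1 le_rfl
  obtain ⟨a, ha, ha'⟩ := (nt (p := p)).surj (M + 1) (by omega)
  obtain ⟨n, hn⟩ := nt.pr_zpow (by omega) hf (nt.comm' ha hx le_rfl) (by
    have h := nt.lead (by omega) le_rfl ha hx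
    rw [ha', hx'] at h
    exact fun h1 => hM (by simpa using h.symm.trans h1))
  refine pr_mem ?_ hn (zpow_mem (le_topologicalClosure _
    (commutator_mem_commutator ha (mem_top x))) n)
  rw [← closure_eq (S := ⁅Jn p (M + 2), ⊤⁆ ⊔ ⁅Jn p (M + 1), Jn p 2⁆) h5 (sup_le
      (commutator_le.2 fun _ ha b _ => nt.comm' ha (mem_one b) le_rfl)
      (commutator_le.2 fun _ ha _ hb => nt.comm' ha hb le_rfl)) le_sup_left le_sup_right]
  exact topologicalClosure_mono (sup_le (commutator_mono (nt.anti (by omega)) le_rfl)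
    (commutator_mono le_rfl le_top))

end Nott

end Pool.Agent.Lib.MP_ffb54b_al
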