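import Pool.Agent.Lib.MP_ffb54b_al.Limit

set_option autoImplicit false
set_option linter.unusedSectionVars false

namespace Pool.Agent.Lib.MP_ffb54b_al

open Finset PowerSeries

variable {p : ℕ} [hp : Fact p.Prime] {A : Type*} [AddCommGroup A] {Φ : Filt p A}
  {μ : A →+ A →+ A}

/-- A filtered Lie ring whose leading terms are of Witt type. -/
structure WLie (Φ : Filt p A) (μ : A →+ A →+ A) : Prop where
  h5 : 5 ≤ p
  witt : Φ.Witt μ
  anti : ∀ a b, μ a b = -μ b a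
  jac : ∀ a b c, μ (μ a b) c + μ (μ b c) a + μ (μ c a) b = 0

/-- A family lifting the elements `t ^ n ∂`. -/
def Bas (Φ : Filt p A) (x : ℕ → A) : Prop := ∀ n : ℕ, x n ∈ Φ.F (n - 1) ∧ Φ.ℓ (n - 1) (x n) = 1

/-- The error in the Witt relation. -/
def err (μ : A →+ A →+ A) (x : ℕ → A) (n m : ℕ) : A :=
  μ (x n) (x m) - ((m : ℤ) - n) • x (n + m - 1)

lemma err_add (x z : ℕ → A) (n m : ℕ) : err μ (x + z) n m = err μ x n m +
    (μ (z n) (x m) + μ (x n) (z m) - ((m : ℤ) - n) • z (n + m - 1)) + μ (z n) (z m) := by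
  simp only [err, Pi.add_apply, map_add, AddMonoidHom.add_apply, smul_add]
  abel

lemma Filt.shift (Φ : Filt p A) {z : ℕ → A} {d k : ℤ} (hz : ∀ n : ℕ, z n ∈ Φ.F (n - 1 + d))
    (n m : ℕ) (hk : k = n + m - 2 + d) : ((m : ℤ) - n) • z (n + m - 1) ∈ Φ.F k ∧
      Φ.ℓ k (((m : ℤ) - n) • z (n + m - 1)) =
        ((m : ZMod p) - n) * Φ.ℓ ((n + m - 1 : ℕ) - 1 + d) (z (n + m - 1)) := by
  rcases Nat.eq_zero_or_pos (n + m) with h | h
  · obtain ⟨rfl, rfl⟩ := Nat.add_eq_zero_iff.1 h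
    simpa using Φ.ℓ_zero (j := k + 1) (zero_mem _) (by omega)
  · obtain rfl : k = (n + m - 1 : ℕ) - 1 + d := by omega
    exact ⟨zsmul_mem (hz _) _, by rw [Φ.ℓ_zsmul (hz _)]; push_cast; rfl⟩

lemma Bas.add {x z : ℕ → A} (hx : Bas Φ x) (hz : ∀ n : ℕ, z n ∈ Φ.F n) : Bas Φ (x + z) := fun n =>
  ⟨add_mem (hx n).1 (Φ.mono (hz n) (by omega)), by
    rw [Pi.add_apply, Φ.add (hx n).1 (Φ.mono (hz n) (by omega)), Φ.ℓ_zero (hz n) (by omega),
      add_zero, (hx n).2]⟩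

namespace WLie

variable (h : WLie Φ μ) {i j k : ℤ} {a b : A}
include h

lemma mem (ha : a ∈ Φ.F i) (hb : b ∈ Φ.F j) (hk : k ≤ i + j) : μ a b ∈ Φ.F k :=
  Φ.mono (h.witt.1 ha hb) (by omega)

lemma lead (ha : a ∈ Φ.F i) (hb : b ∈ Φ.F j) (hk : k = i + j) :
    Φ.ℓ k (μ a b) = ((j : ZMod p) - i) * Φ.ℓ i a * Φ.ℓ j b := by
  have := h.witt.1.lead ha hb
  rw [h.witt.2, add_zero] at this
  rw [hk, this]; ring

lemma step {x : ℕ → A} (hx : Bas Φ x) {d : ℕ}
    (he : ∀ n m : ℕ, err μ x n m ∈ Φ.F (n + m - 1 + d)) : ∃ z : ℕ → A, (∀ n : ℕ, z n ∈ Φ.F (n + d)) ∧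
      ∀ n m : ℕ, err μ (x + z) n m ∈ Φ.F (n + m - 1 + (d + 1 : ℕ)) := by
  have hc : Coc (fun n m => Φ.ℓ (n + m - 1 + d) (err μ x n m)) (d + 1) := by
    refine ⟨fun n m => ?_, fun n m l => ?_⟩
    · beta_reduce
      rw [← Φ.ℓ_neg (he m n), add_comm (m : ℤ)]
      congr 1
      rw [err, err, h.anti, add_comm m, neg_sub, ← neg_sub (n : ℤ), neg_smul]
      abel
    have key : ∀ n m l : ℕ, ∃ r ∈ Φ.F (n + m + l - 2 + d), μ (μ (x n) (x m)) (x l) =
        (((m : ℤ) - n) * (l - (n + m - 1))) • x (n + m + l - 2) + r ∧ Φ.ℓ (n + m + l - 2 + d) r =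
        ((m : ZMod p) - n) * Φ.ℓ ((n + m - 1 : ℕ) + l - 1 + d) (err μ x (n + m - 1) l) +
          ((l : ZMod p) - (n + m - 1 + (d + 1))) * Φ.ℓ (n + m - 1 + d) (err μ x n m) := by
      intro n m l
      have a1 := Φ.shift (z := fun n => err μ x n l) (d := l + d) (k := n + m + l - 2 + d)
        (fun n => Φ.mono (he n l) (by omega)) n m (by ring)
      have a2 := h.mem (he n m) (hx l).1 (k := n + m + l - 2 + d) (by omega)
      refine ⟨_, add_mem a1.1 a2, ?_, ?_⟩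
      · rcases Nat.eq_zero_or_pos (n + m) with h0 | h0
        · obtain ⟨rfl, rfl⟩ := Nat.add_eq_zero_iff.1 h0
          simp [err]
        · simp only [err, map_sub, map_zsmul, AddMonoidHom.sub_apply, AddMonoidHom.zsmul_apply,
            show n + m - 1 + l - 1 = n + m + l - 2 by omega, Nat.cast_pred h0, Nat.cast_add]
          module
      · rw [Φ.add a1.1 a2, a1.2, h.lead (he n m) (hx l).1 (by ring), (hx l).2,
          show ((n + m - 1 : ℕ) : ℤ) - 1 + (l + d) = (n + m - 1 : ℕ) + l - 1 + d by ring]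
        push_cast
        ring
    obtain ⟨r1, m1, e1, l1⟩ := key n m l
    obtain ⟨r2, m2, e2, l2⟩ := key m l n
    obtain ⟨r3, m3, e3, l3⟩ := key l n m
    rw [show (m : ℤ) + l + n = n + m + l by ring] at m2 l2
    rw [show (l : ℤ) + n + m = n + m + l by ring] at m3 l3
    rw [show m + l + n = n + m + l by ring] at e2
    rw [show l + n + m = n + m + l by ring] at e3
    have e4 : r1 + r2 + r3 = 0 := by
      have := h.jac (x n) (x m) (x l)
      rw [e1, e2, e3] at this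
      linear_combination (norm := module) this
    have l4 := Φ.ℓ_zero (i := n + m + l - 2 + d) (e4 ▸ zero_mem _ : r1 + r2 + r3 ∈ Φ.F _)
      (lt_add_one _)
    rw [Φ.add (add_mem m1 m2) m3, Φ.add m1 m2, l1, l2, l3] at l4
    linear_combination l4
  obtain ⟨b, hb⟩ := hc.exists_cob h.h5
  have hz : ∀ n : ℕ, ((b n).val : ℤ) • Φ.e (n - 1 + (d + 1)) ∈ Φ.F (n - 1 + (d + 1)) := fun n =>
    zsmul_mem (Φ.e_mem _) _
  have hz' : ∀ n : ℕ, Φ.ℓ (n - 1 + (d + 1)) (((b n).val : ℤ) • Φ.e (n - 1 + (d + 1))) = b n :=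
    fun n => by rw [Φ.ℓ_zsmul (Φ.e_mem _), Φ.e_one]; simp
  refine ⟨_, fun n => Φ.mono (hz n) (by omega), fun n m => ?_⟩
  have a1 := Φ.shift hz n m (k := n + m - 1 + d) (by ring)
  have a2 := h.mem (hz n) (hx m).1 (k := n + m - 1 + d) (by omega)
  have a3 := h.mem (hx n).1 (hz m) (k := n + m - 1 + d) (by omega)
  rw [err_add]
  refine add_mem ?_ (h.mem (hz n) (hz m) (by push_cast; omega))
  rw [Nat.cast_succ, ← add_assoc, ← Φ.zero (add_mem (he n m) (sub_mem (add_mem a2 a3) a1.1)),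
    Φ.add (he n m) (sub_mem (add_mem a2 a3) a1.1), Φ.ℓ_sub (add_mem a2 a3) a1.1, Φ.add a2 a3,
    a1.2, h.lead (hz n) (hx m).1 (by ring), h.lead (hx n).1 (hz m) (by ring), hz', hz', hz',
    (hx n).2, (hx m).2]
  have := hb n m
  simp only [cob] at this
  push_cast
  linear_combination this

lemma exists_bas : ∃ x, Bas Φ x ∧ ∀ n m, μ (x n) (x m) = ((m : ℤ) - n) • x (n + m - 1) := by
  have := fun (d : ℕ) x (hx : Bas Φ x ∧ ∀ n m : ℕ, err μ x n m ∈ Φ.F (n + m - 1 + d)) =>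
    h.step hx.1 hx.2
  choose! z hz hz' using this
  let s : ℕ → ℕ → A := Nat.rec (fun n => Φ.e (n - 1)) fun d x => x + z d x
  have hs : ∀ d : ℕ, Bas Φ (s d) ∧ ∀ n m : ℕ, err μ (s d) n m ∈ Φ.F (n + m - 1 + d) := fun d => by
    induction d with
    | zero =>
      refine ⟨fun n => ⟨Φ.e_mem _, Φ.e_one _⟩, fun n m => ?_⟩
      have a1 := Φ.shift (z := s 0) (d := 0) (fun n => Φ.mono (Φ.e_mem _) (by omega)) n m rfl
      have a2 := h.mem (Φ.e_mem (n - 1)) (Φ.e_mem (m - 1)) (k := n + m - 2 + 0) (by omega)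
      refine Φ.mono (Φ.sub_mem_succ a2 a1.1 ?_) (by omega)
      have a3 : ∀ n : ℕ, Φ.ℓ (n - 1) (s 0 n) = 1 := fun n => Φ.e_one _
      rw [a1.2, h.lead (a := s 0 n) (b := s 0 m) (Φ.e_mem _) (Φ.e_mem _) (by ring), add_zero,
        a3, a3, a3]
      push_cast
      ring
    | succ d ih => exact ⟨ih.1.add fun n => Φ.mono (hz d _ ih n) (by omega), hz' d _ ih⟩
  choose y hy using fun n : ℕ => Φ.complete n (fun c => s (c + 1) n - s c n) fun c => by
    simpa [s] using hz c _ (hs c) n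
  have hy' : ∀ c n : ℕ, (s 0 + y - s c) n ∈ Φ.F (n + c) := fun c n => by
    have := hy n c
    rw [sum_range_sub fun c => s c n] at this
    convert this using 1
    simp only [Pi.sub_apply, Pi.add_apply]
    abel
  refine ⟨s 0 + y, (hs 0).1.add fun n => by simpa using hy n 0, fun n m => sub_eq_zero.1
    (Φ.sep' (a := err μ (s 0 + y) n m) (i := n + m - 1) fun c => ?_)⟩
  have := err_add (μ := μ) (s c) (s 0 + y - s c) n m
  rw [add_sub_cancel] at this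
  exact this.symm ▸ add_mem (add_mem ((hs c).2 n m) (sub_mem (add_mem
    (h.mem (hy' c n) ((hs c).1 m).1 (by omega)) (h.mem ((hs c).1 n).1 (hy' c m) (by omega)))
    (Φ.shift (d := c + 1) (fun n => Φ.mono (hy' c n) (by omega)) n m (by ring)).1))
    (h.mem (hy' c n) (hy' c m) (by omega))

lemma lead_const {d : ℤ} (hd : ∀ i, ∀ a ∈ Φ.F i, p • a ∈ Φ.F (i + d)) {i : ℤ}
    (hi : Φ.ℓ (i + d) (p • Φ.e i) ≠ 0) (j : ℤ) : Φ.ℓ (j + d) (p • Φ.e j) ≠ 0 := by
  have key : ∀ i j : ℤ, ((j : ZMod p) - (i + d)) * Φ.ℓ (i + d) (p • Φ.e i) =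
      ((j : ZMod p) + d - i) * Φ.ℓ (j + d) (p • Φ.e j) := fun i j => by
    have a1 := h.lead (hd i _ (Φ.e_mem i)) (Φ.e_mem j) (k := i + j + d) (by ring)
    have a2 := h.lead (Φ.e_mem i) (hd j _ (Φ.e_mem j)) (k := i + j + d) (by ring)
    rw [map_nsmul, AddMonoidHom.nsmul_apply, Φ.e_one] at a1
    rw [map_nsmul, a1, Φ.e_one] at a2
    push_cast at a2
    linear_combination a2
  have h0 : (d : ZMod p) = 0 := mul_right_cancel₀ (mul_ne_zero (two_ne h.h5) hi)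
    (by linear_combination -key i i)
  have key' : ∀ i j : ℤ, (j : ZMod p) - i ≠ 0 → Φ.ℓ (i + d) (p • Φ.e i) = Φ.ℓ (j + d) (p • Φ.e j) :=
    fun i j hij => mul_left_cancel₀ hij (by simpa [h0] using key i j)
  by_cases hj : (j : ZMod p) - i = 0
  · rwa [key' j (j + 1) (by simp), ← key' i (j + 1) (by
      push_cast; rw [add_sub_right_comm, hj]; simp)]
  · rwa [← key' i j hj]

lemma tors (a : A) : p • a = 0 := by
  obtain ⟨x, hx, hx'⟩ := h.exists_bas
  suffices ∀ d : ℕ, ∀ i, ∀ a ∈ Φ.F i, p • a ∈ Φ.F (i + (d + 1 : ℕ)) from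
    (Φ.exh a).elim fun i hi => Φ.sep' (i := i) fun c => Φ.mono (this c i a hi) (by omega)
  intro d
  induction d with
  | zero =>
    intro i a ha
    rw [zero_add, Nat.cast_one, ← Φ.zero (nsmul_mem ha _), ← natCast_zsmul, Φ.ℓ_zsmul ha]
    simp
  | succ d hd =>
  have hl : ∀ i, ∀ a ∈ Φ.F i, Φ.ℓ (i + (d + 1 : ℕ)) (p • a) =
      Φ.ℓ i a * Φ.ℓ (i + (d + 1 : ℕ)) (p • Φ.e i) := fun i a ha =>
    (Φ.lead₁ (nsmulAddMonoidHom p) (fun a ha => Φ.mono (hd _ a ha) (by omega)) ha (Φ.e_mem i)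
      (Φ.e_one i) (hd _ _ (Φ.e_mem i))).2
  intro i a ha
  rw [Nat.cast_succ, ← add_assoc, ← Φ.zero (hd i a ha), hl i a ha]
  refine mul_eq_zero_of_right _ (by_contra fun hi => ?_)
  have up : ∀ i a, a ∈ Φ.F i ∧ Φ.ℓ i a ≠ 0 → p • a ∈ Φ.F (i + (d + 1 : ℕ)) ∧
      Φ.ℓ (i + (d + 1 : ℕ)) (p • a) ≠ 0 := fun j a ha =>
    ⟨hd j a ha.1, hl j a ha.1 ▸ mul_ne_zero ha.2 (h.lead_const hd hi j)⟩
  have free : ∀ n : ℕ, n ≠ 0 → ∀ i a, a ∈ Φ.F i ∧ Φ.ℓ i a ≠ 0 → n • a ≠ 0 := by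
    intro n
    induction n using Nat.strong_induction_on with
    | _ n ih =>
    intro hn i a ha
    by_cases hpn : p ∣ n
    · obtain ⟨m, rfl⟩ := hpn
      rw [mul_comm, mul_smul]
      exact ih m (lt_mul_left (Nat.pos_of_ne_zero (right_ne_zero_of_mul hn)) hp.out.one_lt)
        (right_ne_zero_of_mul hn) _ _ (up i a ha)
    · intro h0
      have := Φ.ℓ_zsmul ha.1 n
      rw [natCast_zsmul, h0, Φ.ℓ_zero (j := i + 1) (zero_mem _) (by omega), eq_comm,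
        mul_eq_zero_iff_right ha.2, Int.cast_natCast, ZMod.natCast_eq_zero_iff] at this
      exact hpn this
  let T : ℕ → A →+ A := Nat.rec (AddMonoidHom.id A) fun k T =>
    (μ (x 1) - ((k : ℤ) - 1) • AddMonoidHom.id A).comp T
  have T1 : ∀ k n, T k (x n) = (n.descFactorial k) • x n := fun k n => by
    induction k with
    | zero => simp [T]
    | succ k ih =>
      change μ (x 1) (T k (x n)) - ((k : ℤ) - 1) • T k (x n) = _
      rw [ih, map_nsmul, hx', Nat.add_sub_cancel_left, Nat.descFactorial_succ]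
      rcases lt_or_ge n k with h1 | h1
      · simp [Nat.descFactorial_of_lt h1]
      · rw [← natCast_zsmul, ← natCast_zsmul, ← natCast_zsmul, Nat.cast_mul, Nat.cast_sub h1]
        module
  have T2 : ∀ k i, ∀ a ∈ Φ.F i, T k a ∈ Φ.F i := fun k i a ha => by
    induction k with
    | zero => exact ha
    | succ k ih => exact sub_mem (h.mem (hx 1).1 ih (by omega)) (zsmul_mem ih _)
  have T3 : ∀ n : ℕ, ∃ a, (a ∈ Φ.F (n - 1) ∧ Φ.ℓ (n - 1) a ≠ 0) ∧ T (d + 1) a = 0 := fun n => by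
    induction n using Nat.strong_induction_on with
    | _ n ih =>
    rcases lt_or_ge n (d + 1) with h1 | h1
    · exact ⟨x n, ⟨(hx n).1, by simp [(hx n).2]⟩, (T1 (d + 1) n).trans (by rw [Nat.descFactorial_of_lt h1, zero_smul])⟩
    · obtain ⟨a, ha, ha'⟩ := ih (n - (d + 1)) (by omega)
      have := up _ a ha
      rw [show ((n - (d + 1) : ℕ) : ℤ) - 1 + (d + 1 : ℕ) = n - 1 by omega] at this
      exact ⟨_, this, by rw [map_nsmul, ha', smul_zero]⟩
  have T4 : ∀ c : ℕ, ∃ a ∈ Φ.F (d + c), T (d + 1) a = T (d + 1) (x (d + 1)) := fun c => by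
    induction c with
    | zero => exact ⟨_, Φ.mono (hx _).1 (by omega), rfl⟩
    | succ c ih =>
      obtain ⟨a, ha, ha'⟩ := ih
      obtain ⟨b, hb, hb'⟩ := T3 (d + c + 1)
      rw [show ((d + c + 1 : ℕ) : ℤ) - 1 = d + c by omega] at hb
      refine ⟨a - ((Φ.ℓ (d + c) a / Φ.ℓ (d + c) b).val : ℤ) • b,
        Φ.mono (Φ.sub_mem_succ ha (zsmul_mem hb.1 _) ?_) (by omega),
        by rw [map_sub, map_zsmul, hb', smul_zero, sub_zero, ha']⟩
      rw [Φ.ℓ_zsmul hb.1, Int.cast_natCast, ZMod.natCast_zmod_val, div_mul_cancel₀ _ hb.2]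
  refine free _ (d + 1).factorial_ne_zero _ _ ⟨(hx (d + 1)).1, (hx (d + 1)).2 ▸ one_ne_zero⟩ ?_
  rw [← Nat.descFactorial_self, ← T1]
  exact Φ.sep' fun c => (T4 c).elim fun a ha => ha.2 ▸ T2 (d + 1) _ a ha.1

end WLie

lemma dense_ext {B : Type*} [AddCommGroup B] (φ : (ZMod p)⟦X⟧ →+ B) (P : ℕ → AddSubgroup B)
    (h1 : ∀ n f, X ^ n ∣ f → φ f ∈ P n) (h2 : ∀ n, φ (X ^ n) = 0)
    (h3 : ∀ b, (∀ n, b ∈ P n) → b = 0) (f : (ZMod p)⟦X⟧) : φ f = 0 := h3 _ fun n => by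
  have := h1 n (f - trunc n f) (X_pow_dvd_iff.2 fun m hm => by simp [coeff_trunc, hm])
  rwa [map_sub, trunc_apply, ← Polynomial.coeToPowerSeries.ringHom_apply, map_sum, map_sum,
    sum_eq_zero, sub_zero] at this
  intro m _
  rw [Polynomial.coeToPowerSeries.ringHom_apply, Polynomial.coe_monomial, monomial_eq_C_mul_X_pow,
    ← ZMod.natCast_zmod_val (coeff m f),
    map_natCast, ← nsmul_eq_mul, map_nsmul, h2, smul_zero]

/-- The bracket of vector fields. -/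
noncomputable def br (f g : (ZMod p)⟦X⟧) : (ZMod p)⟦X⟧ := f * d⁄dX _ g - d⁄dX _ f * g

lemma dvd_deriv {n : ℕ} {f : (ZMod p)⟦X⟧} (h : X ^ (n + 1) ∣ f) : X ^ n ∣ d⁄dX _ f :=
  X_pow_dvd_iff.2 fun m hm => by rw [coeff_derivative, X_pow_dvd_iff.1 h _ (by omega), zero_mul]

lemma WLie.exists_E (h : WLie Φ μ) : ∃ E : (ZMod p)⟦X⟧ →+ A,
    (∀ (n : ℕ) f, E f ∈ Φ.F (n - 1) ↔ X ^ n ∣ f) ∧
    (∀ (n : ℕ) f, X ^ n ∣ f → Φ.ℓ (n - 1) (E f) = coeff n f) ∧
    (∀ a ∈ Φ.F (-1), ∃ f, E f = a) ∧ ∀ f g, μ (E f) (E g) = E (br f g) := by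
  obtain ⟨x, hx, hx'⟩ := h.exists_bas
  let _ : Module (ZMod p) A := AddCommGroup.zmodModule h.tors
  have sm : ∀ (r : ZMod p) (a : A), r • a = (r.val : ℤ) • a := fun r a => by
    rw [← Int.cast_smul_eq_zsmul (ZMod p)]; simp
  have hm : ∀ (r : ZMod p) (c : ℕ), r • x c ∈ Φ.F (-1 + c) ∧ Φ.ℓ (-1 + c) (r • x c) = r := by
    intro r c
    rw [sm, show (-1 + c : ℤ) = c - 1 by ring, Φ.ℓ_zsmul (hx c).1, (hx c).2]
    exact ⟨zsmul_mem (hx c).1 _, by simp⟩
  choose E hE using fun f : (ZMod p)⟦X⟧ => Φ.complete (-1) (fun c => coeff c f • x c)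
    fun c => (hm _ c).1
  have uq : ∀ f a, (∀ c : ℕ, a - ∑ j ∈ range c, coeff j f • x j ∈ Φ.F (-1 + c)) → E f = a :=
    fun f a ha => sub_eq_zero.1 (Φ.sep' fun c => by simpa using sub_mem (hE f c) (ha c))
  have a1 : ∀ (n : ℕ) f, X ^ n ∣ f → E f ∈ Φ.F (n - 1) ∧ Φ.ℓ (n - 1) (E f) = coeff n f := by
    intro n f hf
    have b1 := hE f n
    have b2 := hE f (n + 1)
    rw [sum_range_succ] at b2
    rw [sum_eq_zero fun j hj => by rw [X_pow_dvd_iff.1 hf j (mem_range.1 hj), zero_smul]] at b1 b2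
    have b3 := Φ.ℓ_zero b2 (i := -1 + n) (by omega)
    rw [sub_zero] at b1
    rw [zero_add, Φ.ℓ_sub b1 (hm _ n).1, (hm _ n).2, sub_eq_zero] at b3
    rw [show (n - 1 : ℤ) = -1 + n by ring]
    exact ⟨b1, b3⟩
  let E' := AddMonoidHom.mk' E fun f g => uq _ _ fun c => by
    convert add_mem (hE f c) (hE g c) using 1
    simp only [map_add, add_smul, sum_add_distrib]
    abel
  have a2 : ∀ n, E' (X ^ n) = x n := fun n => uq _ _ fun c => by
    simp only [coeff_X_pow, ite_smul, one_smul, zero_smul, sum_ite_eq', mem_range]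
    split_ifs with h1
    · simp
    · rw [sub_zero]; exact Φ.mono (hx n).1 (by omega)
  have a3 : ∀ f, E' f ∈ Φ.F (-1) := fun f => Φ.mono (a1 0 f (by simp)).1 (by simp)
  have sp : ∀ i : ℤ, ∀ b, (∀ n : ℕ, b ∈ Φ.F (i + n)) → b = 0 := fun i b => Φ.sep'
  refine ⟨E', fun n f => ⟨fun hf => ?_, fun hf => (a1 n f hf).1⟩, fun n f hf => (a1 n f hf).2,
    fun a ha => ?_, fun f g => ?_⟩
  · induction n with
    | zero => simp
    | succ n ih =>
      have b1 := ih (Φ.mono hf (by omega))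
      refine X_pow_dvd_iff.2 fun m hm => ?_
      rcases Nat.lt_succ_iff_lt_or_eq.1 hm with h1 | rfl
      · exact X_pow_dvd_iff.1 b1 m h1
      · exact (a1 m f b1).2.symm.trans (Φ.ℓ_zero hf (by omega))
  · let r : ℕ → A := Nat.rec a fun c r => r - Φ.ℓ (-1 + c) r • x c
    have hr : ∀ c : ℕ, r c ∈ Φ.F (-1 + c) := fun c => by
      induction c with
      | zero => exact Φ.mono ha (by simp)
      | succ c ih => exact Φ.mono (Φ.sub_mem_succ ih (hm _ c).1 (hm _ c).2.symm) (by omega)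
    refine ⟨PowerSeries.mk fun c => Φ.ℓ (-1 + c) (r c), uq _ _ fun c => ?_⟩
    convert hr c using 1
    induction c with
    | zero => simp [r]
    | succ c ih => rw [sum_range_succ, ← sub_sub, ih, coeff_mk]
  · let D : (ZMod p)⟦X⟧ →+ (ZMod p)⟦X⟧ →+ A := AddMonoidHom.mk' (fun f => AddMonoidHom.mk'
      (fun g => μ (E' f) (E' g) - E' (br f g)) fun g g' => by
        simp only [br, map_add, mul_add, map_sub]; abel) fun f f' => by
        ext g
        simp only [br, map_add, add_mul, map_sub, AddMonoidHom.mk'_apply, AddMonoidHom.add_apply]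
        abel
    have an : ∀ f g, D f g = -D g f := fun f g => by
      simp only [D, br, AddMonoidHom.mk'_apply, map_sub, h.anti (E' f), mul_comm]
      abel
    have b1 : ∀ f (n : ℕ) g, X ^ n ∣ g → D f g ∈ Φ.F (-2 + n) := fun f n g hg => by
      refine sub_mem (h.mem (a3 f) (a1 n g hg).1 (by omega)) ?_
      rcases n with _ | n
      · exact Φ.mono (a3 _) (by omega)
      · exact Φ.mono (a1 n _ (dvd_sub ((dvd_deriv hg).mul_left _)
          (((pow_dvd_pow _ n.le_succ).trans hg).mul_left _))).1 (by omega)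
    refine sub_eq_zero.1 (dense_ext (D f) _ (b1 f) (fun m => ?_) (sp _) g)
    rw [an, neg_eq_zero]
    refine dense_ext (D _) _ (b1 _) (fun n => ?_) (sp _) f
    change μ (E' _) (E' _) - E' _ = 0
    rw [a2, a2, hx', ← a2, ← map_zsmul, sub_eq_zero, br, derivative_pow, derivative_pow]
    congr 1
    rcases n with _ | n <;> rcases m with _ | m <;> simp [← add_assoc, add_right_comm _ 1] <;> ring

/-- The alternating triple bracket. -/
noncomputable def tri (f g k h : (ZMod p)⟦X⟧) : (ZMod p)⟦X⟧ :=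
  br f (br (br g k) h) + br g (br (br k f) h) + br k (br (br f g) h)

lemma tri_eq (f g k h : (ZMod p)⟦X⟧) : tri f g k h = tri f g k 1 * h := by
  simp only [tri, br, map_sub, Derivation.leibniz, smul_eq_mul, map_add, Derivation.map_one_eq_zero,
    map_zero, mul_zero, mul_one]
  ring

lemma tri_val : tri 1 X (X ^ 3) (1 : (ZMod p)⟦X⟧) = -12 * X := by
  simp only [tri, br, map_sub, Derivation.leibniz, smul_eq_mul, map_add, Derivation.map_one_eq_zero,
    map_zero, mul_zero, mul_one, pow_succ, pow_zero, derivative_X]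
  ring

lemma exists_subst (h5 : 5 ≤ p) (φ : (ZMod p)⟦X⟧ →+ (ZMod p)⟦X⟧)
    (h1 : ∀ n f, X ^ n ∣ f → X ^ (n + 1) ∣ φ f - f) (h2 : ∀ f g, φ (br f g) = br (φ f) (φ g)) :
    ∃ σ : Nott p, ∀ f h, φ (f * h) = f.subst σ.ser * φ h := by
  have h12 : (-12 : ZMod p) ≠ 0 := fun h => mul_ne_zero (mul_ne_zero (two_ne h5) (two_ne h5))
    (three_ne h5) (by linear_combination -h)
  obtain ⟨s, hs⟩ : ∃ s, ∀ h, φ (X * h) = s * φ h := by
    refine ⟨C (-12 : ZMod p)⁻¹ * tri (φ 1) (φ X) (φ (X ^ 3)) 1, fun h => ?_⟩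
    have a1 : φ (tri 1 X (X ^ 3) h) = tri (φ 1) (φ X) (φ (X ^ 3)) (φ h) := by
      simp only [tri, map_add, h2]
    rw [tri_eq, tri_val, tri_eq _ _ _ (φ h), show (-12 * X * h) = (-12 : ℤ) • (X * h) by
      simp [mul_assoc], map_zsmul, zsmul_eq_mul, ← map_intCast (C (R := ZMod p))] at a1
    rw [mul_assoc, ← a1, ← mul_assoc, ← map_mul]
    push_cast
    rw [inv_mul_cancel₀ h12, map_one, one_mul]
  obtain ⟨u, hu⟩ := h1 0 1 (by simp)
  obtain ⟨v, hv⟩ := h1 1 X (by simp)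
  have a1 : X ^ 2 ∣ s - X := by
    refine (IsUnit.dvd_mul_right (u := φ 1) (isUnit_iff_constantCoeff.2 ?_)).1 ⟨v - u, ?_⟩
    · simp [eq_add_of_sub_eq hu]
    · linear_combination hv - X * hu - hs 1 + congrArg φ (mul_one X)
  let σ : Nott p := ⟨s, by simpa using X_pow_dvd_iff.1 a1 0 (by omega),
    by simpa [sub_eq_zero] using X_pow_dvd_iff.1 a1 1 (by omega)⟩
  refine ⟨σ, fun f h => sub_eq_zero.1 (dense_ext (AddMonoidHom.mk'
    (fun f => φ (f * h) - f.subst σ.ser * φ h) fun f g => by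
      rw [add_mul, map_add, subst_add σ.hasSubst]; ring)
    (fun n => (Ideal.span {X ^ n}).toAddSubgroup) (fun n f hf => Ideal.mem_span_singleton.2 ?_)
    (fun n => sub_eq_zero.2 ?_) (fun b hb => PowerSeries.ext fun n => X_pow_dvd_iff.1
      (Ideal.mem_span_singleton.1 (hb (n + 1))) n (by omega)) f)⟩
  · refine dvd_sub ?_ ((σ.X_pow_dvd_subst hf).mul_right _)
    simpa using dvd_add ((pow_dvd_pow _ n.le_succ).trans (h1 n _ (hf.mul_right h)))
      (hf.mul_right h)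
  · rw [subst_pow σ.hasSubst, subst_X σ.hasSubst]
    induction n with
    | zero => simp
    | succ n ih => rw [pow_succ', mul_assoc, hs, ih, pow_succ', mul_assoc]

theorem exists_hom {G : Type*} [Group G] {K : ℕ → Subgroup G} [∀ i, (K i).Normal]
    {lG : ℕ → G → ZMod p} (h5 : 5 ≤ p) (h : NT K lG) : ∃ θ : G →* Nott p, ∀ i, 1 ≤ i → ∀ g ∈ K i,
      θ g ∈ Nott.Jn p i ∧ -coeff (i + 1) ((θ g).ser - X) = lG i g := by
  obtain ⟨A, _, Φ, μ, w, an, jac, e⟩ := exists_act h5 h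
  obtain ⟨E, E1, E2, E3, E4⟩ := WLie.exists_E ⟨h5, w, an, jac⟩
  have inj : Function.Injective E := (injective_iff_map_eq_zero E).2 fun f hf =>
    PowerSeries.ext fun n => X_pow_dvd_iff.1 ((E1 (n + 1) f).1 (hf ▸ zero_mem _)) n (by omega)
  have top : ∀ g, g ∈ K 1 := fun g => h.top ▸ Subgroup.mem_top g
  choose φ hφ using fun g f => E3 (Φ.ρ g (E f)) (by
    have a1 := (E1 0 f).2 (by simp)
    simpa using add_mem (Φ.mono (Φ.ρ_deg (top g) a1) (j := (0 : ℕ) - 1) (by omega)) a1)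
  let ψ (g : G) := AddMonoidHom.mk' (φ g) fun f f' => inj (by simp only [hφ, map_add])
  have a1 : ∀ {i g}, g ∈ K i → ∀ n f, X ^ n ∣ f → X ^ (n + i) ∣ ψ g f - f ∧ (1 ≤ i →
      coeff (n + i) (ψ g f - f) = ((n : ZMod p) - 1 - i) * lG i g * coeff n f) := by
    intro i g hg n f hf
    have b1 : E (ψ g f - f) = Φ.ρ g (E f) - E f := by rw [map_sub, ← hφ]; rfl
    have b2 := (E1 (n + i) _).1 (b1 ▸ Φ.mono (Φ.ρ_deg hg ((E1 n f).2 hf)) (by omega))
    refine ⟨b2, fun hi => ?_⟩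
    rw [← E2 _ _ b2, b1, show ((n + i : ℕ) : ℤ) - 1 = n - 1 + i by omega,
      Φ.ρ_lead hi hg ((E1 n f).2 hf), E2 _ _ hf]
    push_cast
    rfl
  choose σ hσ using fun g => exists_subst h5 (ψ g) (fun n f hf => (a1 (top g) n f hf).1)
    fun f f' => inj (by simp only [ψ, AddMonoidHom.mk'_apply, hφ, ← E4, e])
  have a2 : ∀ g, constantCoeff (ψ g 1) = 1 := fun g => by
    simpa [sub_eq_zero] using X_pow_dvd_iff.1 (a1 (top g) 0 1 (by simp)).1 0 (by omega)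
  have a3 : ∀ g, ψ g X = (σ g).ser * ψ g 1 := fun g => by
    simpa [subst_X (σ g).hasSubst] using hσ g X 1
  have a4 : ∀ g g' f, ψ (g * g') f = ψ g (ψ g' f) := fun g g' f =>
    inj (by simp only [ψ, AddMonoidHom.mk'_apply, hφ, Φ.ρ_mul])
  refine ⟨MonoidHom.mk' (fun g => (σ g)⁻¹) fun g g' => ?_, fun i hi g hg => ?_⟩
  · rw [← mul_inv_rev, inv_inj]
    refine Nott.ext (mul_right_cancel₀ (b := ψ (g * g') 1) (fun h0 => by
      simpa [h0] using a2 (g * g')) ?_)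
    rw [← a3, a4, a3, hσ, a4, Nott.mul_ser]
  · obtain ⟨b1, b2⟩ := a1 hg 0 1 (by simp)
    obtain ⟨b3, b4⟩ := a1 hg 1 X (by simp)
    rw [zero_add] at b1 b2
    rw [add_comm 1] at b3 b4
    have b5 : ((σ g).ser - X) * ψ g 1 = ψ g X - X - X * (ψ g 1 - 1) := by rw [a3]; ring
    obtain ⟨u, hu⟩ : X ^ (i + 1) ∣ (σ g).ser - X := (IsUnit.dvd_mul_right
      (isUnit_iff_constantCoeff.2 (a2 g ▸ isUnit_one))).1
      (b5 ▸ dvd_sub b3 (pow_succ' (X : (ZMod p)⟦X⟧) i ▸ mul_dvd_mul_left _ b1))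
    have b6 := congrArg (coeff (i + 1)) b5
    rw [map_sub _ _ (X * _), b4 hi, coeff_succ_X_mul, b2 hi, hu, mul_assoc] at b6
    refine ⟨inv_mem ⟨u, hu⟩, ((Nott.nt.cls i hi).inv ⟨u, hu⟩).trans ?_⟩
    rw [neg_neg, hu]
    simp only [coeff_X_pow_mul', le_refl, if_true, Nat.sub_self, coeff_zero_eq_constantCoeff,
      map_mul, a2, coeff_one_X, map_one] at b6 ⊢
    linear_combination b6

end Pool.Agent.Lib.MP_ffb54b_al
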