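import Pool.Agent.Lib.MP_ffb54b_al.Defs

set_option autoImplicit false

namespace Pool.Agent.Lib.MP_ffb54b_al

open Subgroup
open scoped commutatorElement

universe u

variable {G : Type u} [Group G]

/-- A decreasing series of subgroups with `[K i, K j] ≤ K (i + j)`. -/
structure NS (K : ℕ → Subgroup G) : Prop where
  anti : Antitone K
  comm : ∀ {i j : ℕ} {a b : G}, a ∈ K i → b ∈ K j → ⁅a, b⁆ ∈ K (i + j)

section NS

variable {K : ℕ → Subgroup G} [∀ i, (K i).Normal]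

/-- The projection modulo `K n`. -/
abbrev pr (K : ℕ → Subgroup G) [∀ i, (K i).Normal] (n : ℕ) : G →* G ⧸ K n :=
  QuotientGroup.mk' (K n)

lemma pr_one {n : ℕ} {a : G} : pr K n a = 1 ↔ a ∈ K n := QuotientGroup.eq_one_iff a

lemma pr_eq {n : ℕ} {a b : G} : pr K n a = pr K n b ↔ a * b⁻¹ ∈ K n := by
  rw [← pr_one, map_mul, map_inv, mul_inv_eq_one]

lemma pr_mem {n : ℕ} {a b : G} {S : Subgroup G} (hS : K n ≤ S) (h : pr K n a = pr K n b)
    (hb : b ∈ S) : a ∈ S := by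
  simpa using S.mul_mem (hS (pr_eq.1 h)) hb

variable (hK : NS K) {i j k n : ℕ} {a a' b b' c : G}
include hK

omit [∀ i, (K i).Normal] in
lemma NS.comm' (ha : a ∈ K i) (hb : b ∈ K j) (h : n ≤ i + j) : ⁅a, b⁆ ∈ K n :=
  hK.anti h (hK.comm ha hb)

lemma NS.pr_mono (h : pr K n a = pr K n b) (hn : k ≤ n) : pr K k a = pr K k b :=
  pr_eq.2 (hK.anti hn (pr_eq.1 h))

lemma NS.pr_comm (ha : a ∈ K i) (hb : b ∈ K j) (h : n ≤ i + j) :
    pr K n a * pr K n b = pr K n b * pr K n a := by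
  rw [← commutatorElement_eq_one_iff_mul_comm, ← map_commutatorElement, pr_one]
  exact hK.comm' ha hb h

lemma NS.mul_left (ha : a ∈ K i) (ha' : a' ∈ K k) (hb : b ∈ K j) (h : n ≤ i + (k + j)) :
    pr K n ⁅a * a', b⁆ = pr K n ⁅a, b⁆ * pr K n ⁅a', b⁆ := by
  have h1 : ⁅a * a', b⁆ = ⁅a, ⁅a', b⁆⁆ * ⁅a', b⁆ * ⁅a, b⁆ := by
    simp only [commutatorElement_def]; group
  rw [h1, map_mul, map_mul, pr_one.2 (hK.comm' ha (hK.comm ha' hb) h), one_mul,
    hK.pr_comm (hK.comm ha' hb) (hK.comm ha hb) (by omega)]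

lemma NS.mul_right (ha : a ∈ K i) (hb : b ∈ K j) (hb' : b' ∈ K k) (h : n ≤ k + (j + i)) :
    pr K n ⁅a, b * b'⁆ = pr K n ⁅a, b⁆ * pr K n ⁅a, b'⁆ := by
  have h1 : ⁅a, b * b'⁆ = ⁅a, b⁆ * (⁅b, ⁅a, b'⁆⁆ * ⁅a, b'⁆) := by
    simp only [commutatorElement_def]; group
  rw [h1, map_mul, map_mul, pr_one.2 (hK.comm' hb (hK.comm ha hb') (by omega)), one_mul]

lemma NS.congr_left (h : pr K i a = pr K i a') (hb : b ∈ K j) (hn : n ≤ i + j) :
    pr K n ⁅a, b⁆ = pr K n ⁅a', b⁆ := by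
  have h1 : ⁅a, b⁆ * ⁅a', b⁆⁻¹ = ⁅a * a'⁻¹, a' * b * a'⁻¹⁆ := by
    simp only [commutatorElement_def]; group
  rw [pr_eq, h1]
  exact hK.comm' (pr_eq.1 h) (Normal.conj_mem inferInstance _ hb _) hn

lemma NS.congr_right (ha : a ∈ K i) (h : pr K j b = pr K j b') (hn : n ≤ i + j) :
    pr K n ⁅a, b⁆ = pr K n ⁅a, b'⁆ := by
  rw [← commutatorElement_inv b, ← commutatorElement_inv b', map_inv, map_inv,
    hK.congr_left h ha (by omega)]

lemma NS.jacobi (ha : a ∈ K i) (hb : b ∈ K j) (hc : c ∈ K k) (h1 : n ≤ i + j + k + i)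
    (h2 : n ≤ i + j + k + j) (h3 : n ≤ i + j + k + k) :
    pr K n ⁅⁅a, b⁆, c⁆ * pr K n ⁅⁅b, c⁆, a⁆ * pr K n ⁅⁅c, a⁆, b⁆ = 1 := by
  have key : ∀ {i j k : ℕ} {a b c : G}, a ∈ K i → b ∈ K j → c ∈ K k → n ≤ i + j + k + j →
      pr K n ⁅⁅a, b⁆, c⁆ = pr K n ⁅⁅a, b⁆, b * c * b⁻¹⁆ := fun ha hb hc h =>
    hK.congr_right (hK.comm ha hb) (pr_eq.2 (by
      convert hK.comm hc hb using 1
      simp only [commutatorElement_def]; group)) (by omega)
  rw [key ha hb hc h2, key hb hc ha (by omega), key hc ha hb (by omega), ← map_mul, ← map_mul,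
    ← map_one (pr K n)]
  congr 1
  simp only [commutatorElement_def]; group

end NS

/-- The class map of the factor `K M / K (M + 1)`. -/
structure IsCls (K : ℕ → Subgroup G) (M : ℕ) {Q : Type*} [AddCommGroup Q] (cls : G → Q) : Prop where
  mul : ∀ {a b : G}, a ∈ K M → b ∈ K M → cls (a * b) = cls a + cls b
  zero : ∀ {a : G}, a ∈ K M → (cls a = 0 ↔ a ∈ K (M + 1))

section Cls

variable {K : ℕ → Subgroup G} [∀ i, (K i).Normal] {M : ℕ} {Q : Type*} [AddCommGroup Q]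
  {cls : G → Q} (h : IsCls K M cls) {i j k : ℕ} {a a' b b' c : G}
include h

omit [∀ i, (K i).Normal] in
lemma IsCls.one : cls 1 = 0 := (h.zero (one_mem _)).2 (one_mem _)

omit [∀ i, (K i).Normal] in
lemma IsCls.inv (ha : a ∈ K M) : cls a⁻¹ = -cls a := by
  rw [eq_neg_iff_add_eq_zero, ← h.mul (inv_mem ha) ha, inv_mul_cancel, h.one]

omit [∀ i, (K i).Normal] in
lemma IsCls.zpow (ha : a ∈ K M) (n : ℤ) : cls (a ^ n) = n • cls a := by
  induction n using Int.induction_on with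
  | zero => simp [h.one]
  | succ n ih => rw [zpow_add_one, h.mul (zpow_mem ha _) ha, ih, add_smul, one_smul]
  | pred n ih =>
    rw [zpow_sub_one, h.mul (zpow_mem ha _) (inv_mem ha), ih, h.inv ha, sub_smul, one_smul,
      sub_eq_add_neg]

lemma IsCls.eq_iff (ha : a ∈ K M) (hb : b ∈ K M) :
    cls a = cls b ↔ pr K (M + 1) a = pr K (M + 1) b := by
  rw [pr_eq, ← h.zero (mul_mem ha (inv_mem hb)), h.mul ha (inv_mem hb), h.inv hb, ← sub_eq_add_neg,
    sub_eq_zero]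

omit [∀ i, (K i).Normal] in
lemma IsCls.anti (hK : NS K) (ha : a ∈ K i) (hb : b ∈ K j) (hM : M ≤ i + j) :
    cls ⁅a, b⁆ = -cls ⁅b, a⁆ := by
  rw [← h.inv (hK.comm' hb ha (by omega)), commutatorElement_inv]

lemma IsCls.congr_left (hK : NS K) (ha : a ∈ K i) (ha' : a' ∈ K i)
    (e : pr K (i + 1) a = pr K (i + 1) a') (hb : b ∈ K j) (hM : M ≤ i + j) :
    cls ⁅a, b⁆ = cls ⁅a', b⁆ :=
  (h.eq_iff (hK.comm' ha hb hM) (hK.comm' ha' hb hM)).2 (hK.congr_left e hb (by omega))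

lemma IsCls.mul_left (hK : NS K) (hi : 1 ≤ i) (ha : a ∈ K i) (ha' : a' ∈ K i) (hb : b ∈ K j)
    (hM : M ≤ i + j) : cls ⁅a * a', b⁆ = cls ⁅a, b⁆ + cls ⁅a', b⁆ := by
  rw [← h.mul (hK.comm' ha hb hM) (hK.comm' ha' hb hM), h.eq_iff (hK.comm' (mul_mem ha ha') hb hM)
    (mul_mem (hK.comm' ha hb hM) (hK.comm' ha' hb hM)), map_mul, hK.mul_left ha ha' hb (by omega)]

lemma IsCls.zpow_left (hK : NS K) (hi : 1 ≤ i) (ha : a ∈ K i) (hb : b ∈ K j)
    (hM : M ≤ i + j) (n : ℤ) : cls ⁅a ^ n, b⁆ = n • cls ⁅a, b⁆ := by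
  induction n using Int.induction_on with
  | zero => simp [h.one]
  | succ n ih => rw [zpow_add_one, h.mul_left hK hi (zpow_mem ha _) ha hb hM, ih, add_smul, one_smul]
  | pred n ih =>
    have := h.mul_left hK hi (zpow_mem ha (-n - 1)) ha hb hM
    rw [← zpow_add_one, sub_add_cancel, ih] at this
    rw [sub_smul, this, one_smul, add_sub_cancel_right]

/-- If `a ≡ g ^ n` to leading order then the class of `[a, b]` is `n` times that of `[g, b]`. -/
lemma IsCls.lead_left (hK : NS K) (hi : 1 ≤ i) (ha : a ∈ K i) (ha' : a' ∈ K i) {n : ℤ}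
    (e : pr K (i + 1) a = pr K (i + 1) (a' ^ n)) (hb : b ∈ K j) (hM : M ≤ i + j) :
    cls ⁅a, b⁆ = n • cls ⁅a', b⁆ := by
  rw [h.congr_left hK ha (zpow_mem ha' n) e hb hM, h.zpow_left hK hi ha' hb hM]

lemma IsCls.lead_right (hK : NS K) (hj : 1 ≤ j) (ha : a ∈ K i) (hb : b ∈ K j) (hb' : b' ∈ K j)
    {n : ℤ} (e : pr K (j + 1) b = pr K (j + 1) (b' ^ n)) (hM : M ≤ i + j) :
    cls ⁅a, b⁆ = n • cls ⁅a, b'⁆ := by
  rw [h.anti hK ha hb hM, h.lead_left hK hj hb hb' e ha (by omega), h.anti hK ha hb' hM, smul_neg]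

lemma IsCls.jacobi (hK : NS K) (hi : 1 ≤ i) (hj : 1 ≤ j) (hk : 1 ≤ k) (ha : a ∈ K i)
    (hb : b ∈ K j) (hc : c ∈ K k) (hM : M ≤ i + j + k) :
    cls ⁅⁅a, b⁆, c⁆ + cls ⁅⁅b, c⁆, a⁆ + cls ⁅⁅c, a⁆, b⁆ = 0 := by
  have h1 := hK.comm' (hK.comm ha hb) hc hM
  have h2 := hK.comm' (hK.comm hb hc) ha (n := M) (by omega)
  have h3 := hK.comm' (hK.comm hc ha) hb (n := M) (by omega)
  rw [← h.mul h1 h2, ← h.mul (mul_mem h1 h2) h3, h.zero (mul_mem (mul_mem h1 h2) h3), ← pr_one,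
    map_mul, map_mul]
  exact hK.jacobi ha hb hc (by omega) (by omega) (by omega)

omit h in
lemma exists_cls (hK : NS K) {p : ℕ} (hM : 1 ≤ M) (hp : ∀ a ∈ K M, a ^ p ∈ K (M + 1)) :
    ∃ (Q : Type u) (_ : AddCommGroup Q) (_ : Module (ZMod p) Q) (cls : G → Q), IsCls K M cls := by
  classical
  let H := K M ⧸ (K (M + 1)).subgroupOf (K M)
  let _ : CommGroup H := { (inferInstance : Group H) with
    mul_comm := by
      rintro ⟨a⟩ ⟨b⟩
      refine QuotientGroup.eq.2 (mem_subgroupOf.2 ?_)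
      convert hK.comm' (inv_mem b.2) (inv_mem a.2) (n := M + 1) (by omega) using 1
      simp only [commutatorElement_def, coe_mul, coe_inv]; group }
  refine ⟨Additive H, inferInstance, AddCommGroup.zmodModule ?_,
    fun a => if h : a ∈ K M then Additive.ofMul (QuotientGroup.mk ⟨a, h⟩) else 0,
    fun {a b} ha hb => ?_, fun {a} ha => ?_⟩
  · rintro ⟨a⟩
    exact (QuotientGroup.eq_one_iff (a ^ p)).2 (mem_subgroupOf.2 (hp a a.2))
  · simp only [dif_pos ha, dif_pos hb, dif_pos (mul_mem ha hb)]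
    rfl
  · simp only [dif_pos ha]
    exact (QuotientGroup.eq_one_iff (⟨a, ha⟩ : K M)).trans mem_subgroupOf

end Cls

section WS

variable [TopologicalSpace G] [IsTopologicalGroup G]

lemma closure_comm_le {A S T : Subgroup G} (hT : IsClosed (T : Set G)) (h : ⁅S, A⁆ ≤ T) :
    ⁅S.topologicalClosure, A⁆ ≤ T :=
  commutator_le.2 fun _ hs a ha => closure_minimal (s := (S : Set G))
    (t := (fun s => ⁅s, a⁆) ⁻¹' T) (fun s hs => commutator_le.1 h s hs a ha)
    (hT.preimage (by simp only [commutatorElement_def]; fun_prop)) hs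

omit [TopologicalSpace G] [IsTopologicalGroup G] in
lemma sup_comm_le {A S S' T : Subgroup G} [T.Normal] (h : ⁅S, A⁆ ≤ T) (h' : ⁅S', A⁆ ≤ T) :
    ⁅S ⊔ S', A⁆ ≤ T := by
  rw [← QuotientGroup.ker_mk' T, ← Subgroup.map_eq_bot_iff, map_commutator,
    commutator_eq_bot_iff_le_centralizer] at h h' ⊢
  rw [Subgroup.map_sup]
  exact sup_le h h'

omit [TopologicalSpace G] [IsTopologicalGroup G] in
lemma three_sub {A B C T : Subgroup G} [T.Normal] (h : ⁅⁅B, C⁆, A⁆ ≤ T) (h' : ⁅⁅C, A⁆, B⁆ ≤ T) :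
    ⁅⁅A, B⁆, C⁆ ≤ T := by
  rw [← QuotientGroup.ker_mk' T, ← Subgroup.map_eq_bot_iff, map_commutator, map_commutator] at h h' ⊢
  exact commutator_commutator_eq_bot_of_rotate h h'

/-- The weighted central series in which the elements of `Y` have weight two. -/
def WS (Y : Subgroup G) : ℕ → Subgroup G
  | 0 => ⊤
  | 1 => ⊤
  | 2 => Y
  | i + 3 => (⁅WS Y (i + 2), ⊤⁆ ⊔ ⁅WS Y (i + 1), Y⁆ : Subgroup G).topologicalClosure

variable {Y : Subgroup G}

instance WS_normal [Y.Normal] : ∀ i, (WS Y i).Normal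
  | 0 => inferInstanceAs (⊤ : Subgroup G).Normal
  | 1 => inferInstanceAs (⊤ : Subgroup G).Normal
  | 2 => inferInstanceAs Y.Normal
  | i + 3 => haveI := WS_normal (i + 1)
    haveI := WS_normal (i + 2)
    Subgroup.is_normal_topologicalClosure _

lemma WS_closed (hY : IsClosed (Y : Set G)) : ∀ i, IsClosed (WS Y i : Set G)
  | 0 => isClosed_univ
  | 1 => isClosed_univ
  | 2 => hY
  | _ + 3 => isClosed_topologicalClosure _

lemma WS_ns [Y.Normal] (hY : IsClosed (Y : Set G)) (h2 : ⁅(⊤ : Subgroup G), ⊤⁆ ≤ Y) :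
    NS (WS Y) := by
  have c1 : ∀ i, ⁅WS Y (i + 1), ⊤⁆ ≤ WS Y (i + 2) := fun i => by
    rcases i with _ | i
    · exact h2
    · exact le_sup_left.trans (le_topologicalClosure _)
  have c2 : ∀ i, ⁅WS Y (i + 1), Y⁆ ≤ WS Y (i + 3) := fun i =>
    le_sup_right.trans (le_topologicalClosure _)
  have an : ∀ i, WS Y (i + 1) ≤ WS Y i := by
    intro i
    induction i using Nat.strong_induction_on with
    | _ i ih =>
    rcases i with _ | _ | _ | i
    · exact le_top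
    · exact le_top
    · exact topologicalClosure_minimal _ (sup_le (commutator_le_left _ _) (commutator_le_right _ _))
        hY
    · exact topologicalClosure_minimal _ (sup_le (commutator_le_left _ _)
        ((commutator_mono (ih _ (by omega)) le_rfl).trans (c2 i))) (WS_closed hY _)
  have key : ∀ j i, ⁅WS Y (j + 1), WS Y (i + 1)⁆ ≤ WS Y (i + j + 2) := by
    intro j
    induction j using Nat.strong_induction_on with
    | _ j ih =>
    intro i
    rcases j with _ | _ | j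
    · rw [commutator_comm]; exact c1 i
    · rw [commutator_comm]; exact c2 i
    refine closure_comm_le (WS_closed hY _) (sup_comm_le (three_sub ?_ ?_) (three_sub ?_ ?_))
    · refine (commutator_mono ((commutator_comm_le _ _).trans (c1 i)) le_rfl).trans ?_
      rw [commutator_comm]
      exact (ih (j + 1) (by omega) (i + 1)).trans (le_of_eq (by congr 1; omega))
    · refine (commutator_mono ((commutator_comm_le _ _).trans (ih (j + 1) (by omega) i))
        le_rfl).trans (c1 _)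
    · refine (commutator_mono ((commutator_comm_le _ _).trans (c2 i)) le_rfl).trans ?_
      rw [commutator_comm]
      exact (ih j (by omega) (i + 2)).trans (le_of_eq (by congr 1; omega))
    · refine (commutator_mono ((commutator_comm_le _ _).trans (ih j (by omega) i))
        le_rfl).trans (c2 _)
  refine ⟨antitone_nat_of_succ_le an, fun {i j a b} ha hb => ?_⟩
  rcases i with _ | i
  · rw [zero_add]
    exact commutator_le_right ⊤ _ (commutator_mem_commutator (mem_top a) hb)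
  rcases j with _ | j
  · exact commutator_le_left _ ⊤ (commutator_mem_commutator ha (mem_top b))
  · rw [show i + 1 + (j + 1) = j + i + 2 by omega]
    exact key i j (commutator_mem_commutator ha hb)

lemma gamma_le_WS [Y.Normal] (hY : IsClosed (Y : Set G)) (h2 : ⁅(⊤ : Subgroup G), ⊤⁆ ≤ Y) :
    ∀ i, gamma G i ≤ WS Y i
  | 0 => le_top
  | 1 => le_top
  | i + 2 => topologicalClosure_minimal _ (commutator_le.2 fun _ ha b _ =>
      (WS_ns hY h2).comm (i := i + 1) (j := 1) (gamma_le_WS hY h2 (i + 1) ha) (mem_top b))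
      (WS_closed hY _)

end WS

end Pool.Agent.Lib.MP_ffb54b_al
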